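import Mathlib

/-!
# Reflective lattices: basic definitions

* `bf G x y = xᵀ G y`, the symmetric bilinear form with Gram matrix `G`;
* `isoGroup G`, the isometry group of the lattice `(ℤ^ι, G)`;
* `reflGroup G`, its subgroup generated by the reflections in vectors of positive norm;
* `Reflective G`, finiteness of the index;
* `LG K`, the Gram matrix of `U ⊕ E₈ ⊕ E₈ ⊕ K`.
-/

namespace MP_dcc566_gt

open Matrix

section Basic

variable {ι : Type} [Fintype ι]

/-- The bilinear form with Gram matrix `G`: `bf G x y = xᵀ G y`. -/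
def bf {R : Type} [CommRing R] (G : Matrix ι ι R) (x y : ι → R) : R := x ⬝ᵥ (G *ᵥ y)

section lemmas

variable {R : Type} [CommRing R] (G : Matrix ι ι R)

theorem bf_eq_sum (x y : ι → R) : bf G x y = ∑ i, ∑ j, x i * G i j * y j := by
  simp only [bf, dotProduct, mulVec, Finset.mul_sum, mul_assoc]

theorem bf_add_left (x y z : ι → R) : bf G (x + y) z = bf G x z + bf G y z := by
  simp [bf, add_dotProduct]

theorem bf_add_right (x y z : ι → R) : bf G x (y + z) = bf G x y + bf G x z := by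
  simp [bf, mulVec_add, dotProduct_add]

theorem bf_smul_left (c : R) (x y : ι → R) : bf G (c • x) y = c * bf G x y := by
  simp [bf, smul_dotProduct]

theorem bf_smul_right (c : R) (x y : ι → R) : bf G x (c • y) = c * bf G x y := by
  simp [bf, mulVec_smul, dotProduct_smul]

theorem bf_neg_left (x y : ι → R) : bf G (-x) y = -bf G x y := by
  simp [bf, neg_dotProduct]

theorem bf_neg_right (x y : ι → R) : bf G x (-y) = -bf G x y := by
  simp [bf, mulVec_neg, dotProduct_neg]

theorem bf_sub_left (x y z : ι → R) : bf G (x - y) z = bf G x z - bf G y z := by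
  simp [bf, sub_dotProduct]

theorem bf_sub_right (x y z : ι → R) : bf G x (y - z) = bf G x y - bf G x z := by
  simp [bf, mulVec_sub, dotProduct_sub]

theorem bf_zero_left (y : ι → R) : bf G 0 y = 0 := by simp [bf]

theorem bf_zero_right (x : ι → R) : bf G x 0 = 0 := by simp [bf]

theorem bf_comm (h : G.IsSymm) (x y : ι → R) : bf G x y = bf G y x := by
  rw [bf, bf, dotProduct_mulVec, dotProduct_comm]
  congr 1
  conv_rhs => rw [← h]
  rw [mulVec_transpose]

theorem bf_single_left [DecidableEq ι] (i : ι) (y : ι → R) :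
    bf G (Pi.single i 1) y = (G *ᵥ y) i := by
  simp [bf]

end lemmas

/-- The isometry group of the lattice `ℤ^ι` with Gram matrix `G`. -/
def isoGroup (G : Matrix ι ι ℤ) : Subgroup ((ι → ℤ) ≃ₗ[ℤ] (ι → ℤ)) where
  carrier := {g | ∀ x y, bf G (g x) (g y) = bf G x y}
  mul_mem' := by
    intro a b ha hb x y
    have h1 := ha (b x) (b y)
    have h2 := hb x y
    simpa [LinearEquiv.mul_apply] using h1.trans h2
  one_mem' := by intro x y; rfl
  inv_mem' := by
    intro a ha x y
    have h := ha (a⁻¹ x) (a⁻¹ y)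
    have e : ∀ z, a (a⁻¹ z) = z := fun z => a.apply_symm_apply z
    rw [e, e] at h
    exact h.symm

/-- `g` is the reflection in the hyperplane orthogonal to the vector `r` of positive norm:
`g x = x - (2 (r,x)/(r,r)) r` (written without division). -/
def IsReflectionIn (G : Matrix ι ι ℤ) (g : (ι → ℤ) ≃ₗ[ℤ] (ι → ℤ)) (r : ι → ℤ) : Prop :=
  0 < bf G r r ∧ ∀ x, bf G r r • g x = bf G r r • x - (2 * bf G r x) • r

/-- The subgroup of the isometry group generated by all reflections (in vectors of positive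
norm) contained in it. -/
def reflGroup (G : Matrix ι ι ℤ) : Subgroup (isoGroup G) :=
  Subgroup.closure {g | ∃ r, IsReflectionIn G g.1 r}

/-- The lattice with Gram matrix `G` is reflective: the reflections generate a subgroup of
finite index in the isometry group. -/
def Reflective (G : Matrix ι ι ℤ) : Prop := (reflGroup G).FiniteIndex

end Basic

section Lattice

/-- Index set of the lattices `U ⊕ E₈ ⊕ E₈ ⊕ K`, `K` of rank `k`. -/
abbrev Idx (k : ℕ) : Type := Fin 2 ⊕ (Fin 8 ⊕ (Fin 8 ⊕ Fin k))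

/-- The `E₈` Gram matrix. -/
abbrev E8 : Matrix (Fin 8) (Fin 8) ℤ := CartanMatrix.E₈

/-- The Gram matrix of the hyperbolic plane `U`. -/
def UG : Matrix (Fin 2) (Fin 2) ℤ := !![0, 1; 1, 0]

variable {k : ℕ}

/-- The Gram matrix of `U ⊕ E₈ ⊕ E₈ ⊕ K`. -/
def LG (K : Matrix (Fin k) (Fin k) ℤ) : Matrix (Idx k) (Idx k) ℤ :=
  fromBlocks UG 0 0 (fromBlocks E8 0 0 (fromBlocks E8 0 0 K))

/-- The vector `a e + b f + u₁ + u₂ + z`. -/
def mk {R : Type} (a b : R) (u₁ u₂ : Fin 8 → R) (z : Fin k → R) : Idx k → R :=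
  Sum.elim ![a, b] (Sum.elim u₁ (Sum.elim u₂ z))

theorem exists_mk {R : Type} (x : Idx k → R) : ∃ a b u₁ u₂ z, x = mk a b u₁ u₂ z := by
  refine ⟨x (Sum.inl 0), x (Sum.inl 1), fun i => x (Sum.inr (Sum.inl i)),
    fun i => x (Sum.inr (Sum.inr (Sum.inl i))), fun i => x (Sum.inr (Sum.inr (Sum.inr i))), ?_⟩
  funext i
  rcases i with i | i | i | i
  · fin_cases i <;> rfl
  · rfl
  · rfl
  · rfl

theorem mk_add {R : Type} [CommRing R] (a b a' b' : R) (u₁ u₂ u₁' u₂' : Fin 8 → R)
    (z z' : Fin k → R) :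
    mk a b u₁ u₂ z + mk a' b' u₁' u₂' z' =
      mk (a + a') (b + b') (u₁ + u₁') (u₂ + u₂') (z + z') := by
  funext i
  rcases i with i | i | i | i
  · fin_cases i <;> rfl
  · rfl
  · rfl
  · rfl

theorem mk_sub {R : Type} [CommRing R] (a b a' b' : R) (u₁ u₂ u₁' u₂' : Fin 8 → R)
    (z z' : Fin k → R) :
    mk a b u₁ u₂ z - mk a' b' u₁' u₂' z' =
      mk (a - a') (b - b') (u₁ - u₁') (u₂ - u₂') (z - z') := by
  funext i
  rcases i with i | i | i | i
  · fin_cases i <;> rfl
  · rfl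
  · rfl
  · rfl

theorem smul_mk {R : Type} [CommRing R] (c a b : R) (u₁ u₂ : Fin 8 → R) (z : Fin k → R) :
    c • mk a b u₁ u₂ z = mk (c * a) (c * b) (c • u₁) (c • u₂) (c • z) := by
  funext i
  rcases i with i | i | i | i
  · fin_cases i <;> rfl
  · rfl
  · rfl
  · rfl

theorem mk_inj {R : Type} {a b a' b' : R} {u₁ u₂ u₁' u₂' : Fin 8 → R} {z z' : Fin k → R}
    (h : mk a b u₁ u₂ z = mk a' b' u₁' u₂' z') :
    a = a' ∧ b = b' ∧ u₁ = u₁' ∧ u₂ = u₂' ∧ z = z' := by
  refine ⟨congrFun h (Sum.inl 0), congrFun h (Sum.inl 1), ?_, ?_, ?_⟩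
  · funext i; exact congrFun h (Sum.inr (Sum.inl i))
  · funext i; exact congrFun h (Sum.inr (Sum.inr (Sum.inl i)))
  · funext i; exact congrFun h (Sum.inr (Sum.inr (Sum.inr i)))

theorem bf_fromBlocks {R : Type} [CommRing R] {m n : Type} [Fintype m] [Fintype n]
    (A : Matrix m m R) (D : Matrix n n R) (x x' : m → R) (y y' : n → R) :
    bf (fromBlocks A 0 0 D) (Sum.elim x y) (Sum.elim x' y') = bf A x x' + bf D y y' := by
  rw [bf, fromBlocks_mulVec]
  simp only [Sum.elim_comp_inl, Sum.elim_comp_inr, zero_mulVec, add_zero, zero_add]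
  rw [sumElim_dotProduct_sumElim]
  rfl

theorem LG_symm {K : Matrix (Fin k) (Fin k) ℤ} (hK : K.IsSymm) : (LG K).IsSymm := by
  unfold LG
  refine IsSymm.fromBlocks (by decide) (by simp) ?_
  refine IsSymm.fromBlocks CartanMatrix.E₈_isSymm (by simp) ?_
  exact IsSymm.fromBlocks CartanMatrix.E₈_isSymm (by simp) hK

theorem bf_UG (a b a' b' : ℤ) : bf UG ![a, b] ![a', b'] = a * b' + b * a' := by
  simp [bf, UG, dotProduct, mulVec, Fin.sum_univ_two]

theorem bf_mk (K : Matrix (Fin k) (Fin k) ℤ) (a b a' b' : ℤ) (u₁ u₂ u₁' u₂' : Fin 8 → ℤ)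
    (z z' : Fin k → ℤ) :
    bf (LG K) (mk a b u₁ u₂ z) (mk a' b' u₁' u₂' z') =
      a * b' + b * a' + bf E8 u₁ u₁' + bf E8 u₂ u₂' + bf K z z' := by
  unfold LG mk
  rw [bf_fromBlocks, bf_fromBlocks, bf_fromBlocks, bf_UG]
  ring

/-- The obstruction to reflectivity: an isotropic vector `e` and a vector `t` of positive norm
orthogonal to `e` and to all roots orthogonal to `e`. -/
def CuspBad {ι : Type} [Fintype ι] (G : Matrix ι ι ℤ) : Prop :=
  ∃ e t : ι → ℤ, e ≠ 0 ∧ bf G e e = 0 ∧ bf G t e = 0 ∧ 0 < bf G t t ∧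
    ∀ r : ι → ℤ, 0 < bf G r r → (∀ x, bf G r r ∣ 2 * bf G r x) → bf G r e = 0 → bf G r t = 0

end Lattice

section Real

variable {ι : Type} [Fintype ι] [DecidableEq ι]

/-- The real bilinear form with (integral) Gram matrix `G`. -/
noncomputable def rB (G : Matrix ι ι ℤ) : (ι → ℝ) →ₗ[ℝ] (ι → ℝ) →ₗ[ℝ] ℝ :=
  Matrix.toLinearMap₂' ℝ (G.map (Int.cast : ℤ → ℝ))

/-- An integral vector as a real vector. -/
def rv (x : ι → ℤ) : ι → ℝ := fun i => (x i : ℝ)

theorem rB_apply (G : Matrix ι ι ℤ) (x y : ι → ℝ) :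
    rB G x y = ∑ i, ∑ j, x i * (G i j : ℝ) * y j := by
  simp [rB, Matrix.toLinearMap₂'_apply, mul_comm, mul_left_comm]

theorem rB_rv (G : Matrix ι ι ℤ) (x y : ι → ℤ) : rB G (rv x) (rv y) = ((bf G x y : ℤ) : ℝ) := by
  rw [rB_apply, bf_eq_sum]
  push_cast
  rfl

theorem rB_symm {G : Matrix ι ι ℤ} (hG : G.IsSymm) (x y : ι → ℝ) : rB G x y = rB G y x := by
  rw [rB_apply, rB_apply, Finset.sum_comm]
  refine Finset.sum_congr rfl fun i _ => Finset.sum_congr rfl fun j _ => ?_
  rw [show G j i = G i j from hG.apply i j]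
  ring

omit [Fintype ι] [DecidableEq ι] in
theorem rv_add (x y : ι → ℤ) : rv (x + y) = rv x + rv y := by
  funext i; simp [rv]

omit [Fintype ι] [DecidableEq ι] in
theorem rv_sub (x y : ι → ℤ) : rv (x - y) = rv x - rv y := by
  funext i; simp [rv]

omit [Fintype ι] [DecidableEq ι] in
theorem rv_neg (x : ι → ℤ) : rv (-x) = -rv x := by
  funext i; simp [rv]

omit [Fintype ι] [DecidableEq ι] in
theorem rv_smul (c : ℤ) (x : ι → ℤ) : rv (c • x) = (c : ℝ) • rv x := by
  funext i; simp [rv]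

omit [Fintype ι] [DecidableEq ι] in
theorem rv_zero : rv (0 : ι → ℤ) = 0 := by
  funext i; simp [rv]

omit [Fintype ι] [DecidableEq ι] in
theorem rv_injective : Function.Injective (rv : (ι → ℤ) → (ι → ℝ)) := by
  intro x y h
  funext i
  have := congrFun h i
  simpa [rv] using this

/-- `G` is the Gram matrix of a lattice of signature `(n, 1)`: the form is symmetric,
nondegenerate, `p` has negative norm and the form is positive definite on `p^⊥`. -/
structure Lor (G : Matrix ι ι ℤ) (p : ι → ℝ) : Prop where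
  symm : G.IsSymm
  det : G.det ≠ 0
  neg : rB G p p < 0
  pos : ∀ v : ι → ℝ, rB G v p = 0 → v ≠ 0 → 0 < rB G v v

end Real

end MP_dcc566_gt
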