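import Mathlib

/-!
# Reflective lattices: the definitions used in the statements

A lattice is `ℤ^ι` with an integral symmetric Gram matrix `G`.
-/

namespace MP_dcc566_gt

open Matrix

variable {ι : Type} [Fintype ι]

/-- The bilinear form with Gram matrix `G`: `(x, y) = xᵀ G y`. -/
def form (G : Matrix ι ι ℤ) (x y : ι → ℤ) : ℤ := x ⬝ᵥ (G *ᵥ y)

/-- The isometry group of the lattice `ℤ^ι` with Gram matrix `G`: the additive bijections which
preserve the form. -/
def isometries (G : Matrix ι ι ℤ) : Subgroup (Equiv.Perm (ι → ℤ)) where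
  carrier := {g | (∀ x y, g (x + y) = g x + g y) ∧ ∀ x y, form G (g x) (g y) = form G x y}
  mul_mem' := fun {a b} ha hb =>
    ⟨fun x y => by rw [Equiv.Perm.mul_apply, hb.1, ha.1, Equiv.Perm.mul_apply,
      Equiv.Perm.mul_apply], fun x y => (ha.2 (b x) (b y)).trans (hb.2 x y)⟩
  one_mem' := ⟨fun _ _ => rfl, fun _ _ => rfl⟩
  inv_mem' := fun {a} ha => by
    have e : ∀ z, a (a⁻¹ z) = z := fun z => a.apply_symm_apply z
    refine ⟨fun x y => a.injective ?_, fun x y => ?_⟩
    · rw [ha.1, e, e, e]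
    · have h := ha.2 (a⁻¹ x) (a⁻¹ y)
      rw [e, e] at h
      exact h.symm

/-- The reflections of the lattice: the isometries `g` for which there is a vector `r` of positive
norm with `g x = x - (2 (r,x)/(r,r)) r` for all `x` (written without division). -/
def reflections (G : Matrix ι ι ℤ) : Set (isometries G) :=
  {g | ∃ r : ι → ℤ, 0 < form G r r ∧
    ∀ x, form G r r • g.1 x = form G r r • x - (2 * form G r x) • r}

/-- The lattice is reflective: the reflections generate a subgroup of finite index in the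
isometry group. -/
def IsReflective (G : Matrix ι ι ℤ) : Prop :=
  (Subgroup.closure (reflections G)).FiniteIndex

/-- The Gram matrix of the lattice `U ⊕ E₈ ⊕ E₈ ⊕ K`, where `U = [0, 1; 1, 0]`. -/
def UEEK {k : ℕ} (K : Matrix (Fin k) (Fin k) ℤ) :
    Matrix (Fin 2 ⊕ (Fin 8 ⊕ (Fin 8 ⊕ Fin k))) (Fin 2 ⊕ (Fin 8 ⊕ (Fin 8 ⊕ Fin k))) ℤ :=
  fromBlocks !![0, 1; 1, 0] 0 0
    (fromBlocks CartanMatrix.E₈ 0 0 (fromBlocks CartanMatrix.E₈ 0 0 K))

end MP_dcc566_gt
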