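import Mathlib
import Pool.Agent.Lib.MP_dcc566_gt.Stmt
import Pool.Agent.Lib.MP_dcc566_gt.Defs

/-!
# The two forms of the definition of reflectivity agree
-/

namespace MP_dcc566_gt

open Matrix

variable {ι : Type} [Fintype ι]

/-- Additive and linear isometries are the same. -/
def isoEquiv (G : Matrix ι ι ℤ) : isoGroup G ≃* isometries G where
  toFun g := ⟨g.1.toEquiv, fun x y => map_add g.1 x y, g.2⟩
  invFun g := ⟨(AddEquiv.mk g.1 g.2.1).toIntLinearEquiv, g.2.2⟩
  left_inv g := by
    apply Subtype.ext
    apply LinearEquiv.ext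
    intro x
    rfl
  right_inv g := by
    apply Subtype.ext
    apply Equiv.ext
    intro x
    rfl
  map_mul' a b := by
    apply Subtype.ext
    apply Equiv.ext
    intro x
    rfl

theorem reflective_of_isReflective {G : Matrix ι ι ℤ} (h : IsReflective G) : Reflective G := by
  have h1 : reflGroup G = (Subgroup.closure (reflections G)).comap (isoEquiv G).toMonoidHom := by
    have h2 : (Subgroup.closure (reflections G)).comap (isoEquiv G).toMonoidHom =
        (Subgroup.closure (reflections G)).map (isoEquiv G).symm.toMonoidHom :=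
      (Subgroup.map_equiv_eq_comap_symm (isoEquiv G).symm _).symm
    rw [h2, MonoidHom.map_closure]
    unfold reflGroup
    congr 1
    ext g
    constructor
    · rintro ⟨r, hr⟩
      refine ⟨isoEquiv G g, ⟨r, hr.1, hr.2⟩, ?_⟩
      exact (isoEquiv G).symm_apply_apply g
    · rintro ⟨g', ⟨r, hr⟩, rfl⟩
      exact ⟨r, hr.1, hr.2⟩
  unfold Reflective
  rw [h1]
  unfold IsReflective at h
  constructor
  rw [Subgroup.index_comap_of_surjective _ (isoEquiv G).surjective]
  exact h.index_ne_zero

theorem UEEK_eq {k : ℕ} (K : Matrix (Fin k) (Fin k) ℤ) : UEEK K = LG K := rfl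

theorem form_eq (G : Matrix ι ι ℤ) (x y : ι → ℤ) : form G x y = bf G x y := rfl

end MP_dcc566_gt
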