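import Mathlib
import Pool.Agent.Lib.MP_dcc566_gt.Defs

namespace MP_dcc566_gt

/-- Fundamental weights of `E₈` of norm 8, 6, 4, 2 (rows 1, 6, 0, 7 of the inverse Cartan matrix).
-/
def w8 : Fin 8 → ℤ := ![5, 8, 10, 15, 12, 9, 6, 3]
def w6 : Fin 8 → ℤ := ![4, 6, 8, 12, 10, 8, 6, 3]
def w4 : Fin 8 → ℤ := ![4, 5, 7, 10, 8, 6, 4, 2]
def w2 : Fin 8 → ℤ := ![2, 3, 4, 6, 5, 4, 3, 2]

theorem norm_w8 : bf E8 w8 w8 = 8 := by decide
theorem norm_w6 : bf E8 w6 w6 = 6 := by decide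
theorem norm_w4 : bf E8 w4 w4 = 4 := by decide
theorem norm_w2 : bf E8 w2 w2 = 2 := by decide

theorem E8_comm (x y : Fin 8 → ℤ) : bf E8 x y = bf E8 y x :=
  bf_comm _ CartanMatrix.E₈_isSymm x y

/-- Explicit form: `(x,x) = 2 (Σ x_i² - x0 x2 - x1 x3 - x2 x3 - x3 x4 - x4 x5 - x5 x6 - x6 x7)`. -/
theorem E8_norm {R : Type} [CommRing R] (x : Fin 8 → R) :
    bf (E8.map (Int.cast : ℤ → R)) x x =
      2 * (x 0 ^ 2 + x 1 ^ 2 + x 2 ^ 2 + x 3 ^ 2 + x 4 ^ 2 + x 5 ^ 2 + x 6 ^ 2 + x 7 ^ 2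
        - x 0 * x 2 - x 1 * x 3 - x 2 * x 3 - x 3 * x 4 - x 4 * x 5 - x 5 * x 6 - x 6 * x 7) := by
  simp [bf, dotProduct, Matrix.mulVec, Fin.sum_univ_eight, E8, CartanMatrix.E₈]
  ring

/-- The same for integers. -/
theorem E8_norm' (x : Fin 8 → ℤ) :
    bf E8 x x =
      2 * (x 0 ^ 2 + x 1 ^ 2 + x 2 ^ 2 + x 3 ^ 2 + x 4 ^ 2 + x 5 ^ 2 + x 6 ^ 2 + x 7 ^ 2
        - x 0 * x 2 - x 1 * x 3 - x 2 * x 3 - x 3 * x 4 - x 4 * x 5 - x 5 * x 6 - x 6 * x 7) := by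
  simp [bf, dotProduct, Matrix.mulVec, Fin.sum_univ_eight, E8, CartanMatrix.E₈]
  ring

theorem E8_even (x : Fin 8 → ℤ) : Even (bf E8 x x) := by
  rw [E8_norm']
  exact even_two_mul _

/-- `E₈` is positive definite over `ℝ`.  (Complete the squares successively, starting with `x 0`,
`x 7`,
`x 6`, `x 5`, `x 4`, `x 1`, `x 2`, `x 3`: an `LDLᵀ` decomposition with positive rational
coefficients; the last
coefficient is positive since `det = 1`.) -/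
theorem E8_pos_real (x : Fin 8 → ℝ) (hx : x ≠ 0) :
    0 < bf (E8.map (Int.cast : ℤ → ℝ)) x x := by
  rw [E8_norm]
  by_contra hcon
  apply hx
  rw [not_lt] at hcon
  have s0 := sq_nonneg (x 0 - x 2 / 2)
  have s7 := sq_nonneg (x 7 - x 6 / 2)
  have s6 := sq_nonneg (x 6 - 2 / 3 * x 5)
  have s5 := sq_nonneg (x 5 - 3 / 4 * x 4)
  have s4 := sq_nonneg (x 4 - 4 / 5 * x 3)
  have s1 := sq_nonneg (x 1 - x 3 / 2)
  have s2 := sq_nonneg (x 2 - 2 / 3 * x 3)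
  have s3 := sq_nonneg (x 3)
  have e : x 0 ^ 2 + x 1 ^ 2 + x 2 ^ 2 + x 3 ^ 2 + x 4 ^ 2 + x 5 ^ 2 + x 6 ^ 2 + x 7 ^ 2
        - x 0 * x 2 - x 1 * x 3 - x 2 * x 3 - x 3 * x 4 - x 4 * x 5 - x 5 * x 6 - x 6 * x 7 =
      (x 0 - x 2 / 2) ^ 2 + (x 7 - x 6 / 2) ^ 2 + 3 / 4 * (x 6 - 2 / 3 * x 5) ^ 2 +
        2 / 3 * (x 5 - 3 / 4 * x 4) ^ 2 + 5 / 8 * (x 4 - 4 / 5 * x 3) ^ 2 +
        (x 1 - x 3 / 2) ^ 2 + 3 / 4 * (x 2 - 2 / 3 * x 3) ^ 2 + 1 / 60 * x 3 ^ 2 := by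
    ring
  rw [e] at hcon
  have z3 : x 3 = 0 := pow_eq_zero_iff two_ne_zero |>.1 (le_antisymm (by linarith) s3)
  have z2 : x 2 - 2 / 3 * x 3 = 0 :=
    pow_eq_zero_iff two_ne_zero |>.1 (le_antisymm (by linarith) s2)
  have z1 : x 1 - x 3 / 2 = 0 :=
    pow_eq_zero_iff two_ne_zero |>.1 (le_antisymm (by linarith) s1)
  have z4 : x 4 - 4 / 5 * x 3 = 0 :=
    pow_eq_zero_iff two_ne_zero |>.1 (le_antisymm (by linarith) s4)
  have z5 : x 5 - 3 / 4 * x 4 = 0 :=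
    pow_eq_zero_iff two_ne_zero |>.1 (le_antisymm (by linarith) s5)
  have z6 : x 6 - 2 / 3 * x 5 = 0 :=
    pow_eq_zero_iff two_ne_zero |>.1 (le_antisymm (by linarith) s6)
  have z7 : x 7 - x 6 / 2 = 0 :=
    pow_eq_zero_iff two_ne_zero |>.1 (le_antisymm (by linarith) s7)
  have z0 : x 0 - x 2 / 2 = 0 :=
    pow_eq_zero_iff two_ne_zero |>.1 (le_antisymm (by linarith) s0)
  funext i
  fin_cases i
  · change x 0 = 0
    linarith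
  · change x 1 = 0
    linarith
  · change x 2 = 0
    linarith
  · exact z3
  · change x 4 = 0
    linarith
  · change x 5 = 0
    linarith
  · change x 6 = 0
    linarith
  · change x 7 = 0
    linarith

theorem E8_pos (x : Fin 8 → ℤ) (hx : x ≠ 0) : 0 < bf E8 x x := by
  have h := E8_pos_real (fun i => (x i : ℝ)) (fun h0 => hx (funext fun i => by
    have h1 : ((x i : ℤ) : ℝ) = 0 := congrFun h0 i
    rw [Pi.zero_apply]
    exact_mod_cast h1))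
  rw [E8_norm] at h
  rw [E8_norm']
  exact_mod_cast h

theorem E8_nonneg (x : Fin 8 → ℤ) : 0 ≤ bf E8 x x := by
  by_cases h : x = 0
  · rw [h, bf_zero_left]
  · exact (E8_pos x h).le

/-- the fundamental weights -/
private def E8Fw : Fin 8 → Fin 8 → ℤ :=
  ![![4, 5, 7, 10, 8, 6, 4, 2], ![5, 8, 10, 15, 12, 9, 6, 3], ![7, 10, 14, 20, 16, 12, 8, 4],
    ![10, 15, 20, 30, 24, 18, 12, 6], ![8, 12, 16, 24, 20, 15, 10, 5],
    ![6, 9, 12, 18, 15, 12, 8, 4], ![4, 6, 8, 12, 10, 8, 6, 3], ![2, 3, 4, 6, 5, 4, 3, 2]]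

private theorem E8F_dual (i j : Fin 8) : (E8.mulVec (E8Fw i)) j = if j = i then 1 else 0 := by
  revert i j
  decide

private theorem E8F_bf (x : Fin 8 → ℤ) (i : Fin 8) : bf E8 x (E8Fw i) = x i := by
  unfold bf dotProduct
  simp only [E8F_dual, mul_ite, mul_one, mul_zero, Finset.sum_ite_eq', Finset.mem_univ, if_true]

/-- `E₈` is unimodular.  (The inverse matrix is integral; `u = E₈⁻¹ (E₈ u)`.) -/
theorem E8_unimod {k : ℤ} {u : Fin 8 → ℤ} (h : ∀ x, k ∣ bf E8 u x) : ∃ u', u = k • u' := by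
  have h1 : ∀ i, k ∣ u i := fun i => by
    have h2 := h (E8Fw i)
    rwa [E8F_bf] at h2
  choose u' hu using h1
  exact ⟨u', funext fun i => hu i⟩

/-- Duality: `(x, w) = ` coordinate, e.g. `(x, w8) = x 1`, `(x, w4) = x 0`. -/
theorem bf_w8 (x : Fin 8 → ℤ) : bf E8 x w8 = x 1 := E8F_bf x 1

theorem bf_w6 (x : Fin 8 → ℤ) : bf E8 x w6 = x 6 := E8F_bf x 6

theorem bf_w4 (x : Fin 8 → ℤ) : bf E8 x w4 = x 0 := E8F_bf x 0

theorem bf_w2 (x : Fin 8 → ℤ) : bf E8 x w2 = x 7 := E8F_bf x 7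

end MP_dcc566_gt
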