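import Mathlib
import Pool.Agent.Lib.MP_dcc566_gt.E8F

namespace MP_dcc566_gt

variable {k : ℕ}

/-- Even positive definite lattices. -/
structure EvenPD (K : Matrix (Fin k) (Fin k) ℤ) : Prop where
  symm : K.IsSymm
  even : ∀ z, Even (bf K z z)
  pos : ∀ z, z ≠ 0 → 0 < bf K z z

/-- The shape of a root of `U ⊕ E₈ ⊕ E₈ ⊕ K`, `K` even.

PROOF.  The norm is even: `2ab + (u₁,u₁) + (u₂,u₂) + (z,z)`; call it `2κ`, `κ > 0`; `2κ ∣ 2 (r,x)`
gives
`κ ∣ (r,x)` for all `x`.  Take `x = mk 0 1 0 0 0`, `mk 1 0 0 0 0`, `mk 0 0 v 0 0` (`E8_unimod`),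
`mk 0 0 0 v 0`, `mk 0 0 0 0 x`. -/
theorem root_shape {K : Matrix (Fin k) (Fin k) ℤ} (hK : EvenPD K) {r : Idx k → ℤ}
    (h0 : 0 < bf (LG K) r r) (hr : ∀ x, bf (LG K) r r ∣ 2 * bf (LG K) r x) :
    ∃ (κ a b : ℤ) (x₁ x₂ : Fin 8 → ℤ) (z : Fin k → ℤ), 0 < κ ∧
      r = mk (κ * a) (κ * b) (κ • x₁) (κ • x₂) z ∧ (∀ x, κ ∣ bf K z x) ∧
      2 * κ ^ 2 * a * b + κ ^ 2 * (bf E8 x₁ x₁ + bf E8 x₂ x₂) + bf K z z = 2 * κ := by
  obtain ⟨a, b, u₁, u₂, z, rfl⟩ := exists_mk r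
  obtain ⟨c₁, h1⟩ := (E8_even u₁).two_dvd
  obtain ⟨c₂, h2⟩ := (E8_even u₂).two_dvd
  obtain ⟨c₃, h3⟩ := (hK.even z).two_dvd
  have hn := bf_mk K a b a b u₁ u₂ u₁ u₂ z z
  set κ : ℤ := a * b + c₁ + c₂ + c₃ with hκ
  have hn' : bf (LG K) (mk a b u₁ u₂ z) (mk a b u₁ u₂ z) = 2 * κ := by
    rw [hn, h1, h2, h3, hκ]
    ring
  rw [hn'] at h0 hr
  have hd : ∀ x, κ ∣ bf (LG K) (mk a b u₁ u₂ z) x := fun x =>
    Int.dvd_of_mul_dvd_mul_left (by norm_num : (2 : ℤ) ≠ 0) (hr x)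
  have ha : κ ∣ a := by
    have h := hd (mk 0 1 0 0 0)
    rw [bf_mk, bf_zero_right, bf_zero_right, bf_zero_right] at h
    simpa using h
  have hb : κ ∣ b := by
    have h := hd (mk 1 0 0 0 0)
    rw [bf_mk, bf_zero_right, bf_zero_right, bf_zero_right] at h
    simpa using h
  obtain ⟨x₁, hx₁⟩ := E8_unimod (k := κ) (u := u₁) (fun v => by
    have h := hd (mk 0 0 v 0 0)
    rw [bf_mk, bf_zero_right, bf_zero_right] at h
    simpa using h)
  obtain ⟨x₂, hx₂⟩ := E8_unimod (k := κ) (u := u₂) (fun v => by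
    have h := hd (mk 0 0 0 v 0)
    rw [bf_mk, bf_zero_right, bf_zero_right] at h
    simpa using h)
  have hz : ∀ x, κ ∣ bf K z x := fun x => by
    have h := hd (mk 0 0 0 0 x)
    rw [bf_mk, bf_zero_right, bf_zero_right] at h
    simpa using h
  clear_value κ
  obtain ⟨a', rfl⟩ := ha
  obtain ⟨b', rfl⟩ := hb
  subst hx₁ hx₂
  refine ⟨κ, a', b', x₁, x₂, z, by linarith, rfl, hz, ?_⟩
  rw [hn] at hn'
  simp only [bf_smul_left, bf_smul_right] at hn'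
  linear_combination hn'

/-- THE ROOTS AT A CUSP.  Let `e = mk (-N) m w₁ w₂ y` be isotropic and `r` a root orthogonal to `e`.

PROOF.  Write `r = mk (κ a) (κ β) (κ x₁) (κ x₂) z` by `root_shape`; `(r,e) = 0` reads
`m κ a - N κ β + κ (x₁,w₁) + κ (x₂,w₂) + (z,y) = 0`.
(1) If `m ∤ β` use the identity (R_i = m x_i - β w_i, S = m z - κ β y)
`κ² ((R₁,R₁) + (R₂,R₂)) + (S,S) = m² (2κ)`; it follows from the norm of `r`, `(r,e) = 0` and `hN`
by expansion
(`linear_combination`).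
(2),(3) If `β = m β'`, put `c = κ β'`, `r' = r - c e = mk (κ a + c N) 0 (κ x₁ - c w₁) (κ x₂ - c
w₂) (z - c y)
= mk (κ a'') 0 (κ u₁) (κ u₂) s` with `a'' = a + β' N`, `u_i = x_i - β' w_i`; it is a root
orthogonal to `e`
(only the following is needed: its norm is `2κ` since `(r,e) = 0 = (e,e)`, i.e.
`κ² ((u₁,u₁)+(u₂,u₂)) + (s,s) = 2κ`; `κ ∣ (s,x)` for all `x`; `m κ a'' + κ (u₁,w₁) + κ (u₂,w₂) +
(s,y) = 0`).
`κ ∣ (s, x)`: `(s,x) = (z,x) - κ β' (y,x)`.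
If `u₁ = u₂ = 0` we are in case (3).  Otherwise `(u₁,u₁)+(u₂,u₂) ≥ 2` (even, positive), so `2κ² ≤
2κ`, `κ = 1`,
`(u₁,u₁)+(u₂,u₂) = 2`, `(s,s) = 0`, `s = 0`, and one of the `u_i` is zero, the other has norm 2:
case (2). -/
theorem cusp_cases {K : Matrix (Fin k) (Fin k) ℤ} (hK : EvenPD K) {m N : ℤ} (hm : 0 < m)
    {w₁ w₂ : Fin 8 → ℤ} {y : Fin k → ℤ}
    (hN : bf E8 w₁ w₁ + bf E8 w₂ w₂ + bf K y y = 2 * m * N) {r : Idx k → ℤ}
    (h0 : 0 < bf (LG K) r r) (hr : ∀ x, bf (LG K) r r ∣ 2 * bf (LG K) r x)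
    (hre : bf (LG K) r (mk (-N) m w₁ w₂ y) = 0) :
    (∃ (κ β a : ℤ) (x₁ x₂ : Fin 8 → ℤ) (z : Fin k → ℤ), 0 < κ ∧ ¬ m ∣ β ∧
      r = mk a (κ * β) (κ • x₁) (κ • x₂) z ∧
      κ ^ 2 * (bf E8 (m • x₁ - β • w₁) (m • x₁ - β • w₁) +
        bf E8 (m • x₂ - β • w₂) (m • x₂ - β • w₂)) +
        bf K (m • z - (κ * β) • y) (m • z - (κ * β) • y) = 2 * κ * m ^ 2) ∨
    (∃ (c a : ℤ) (ρ₁ ρ₂ : Fin 8 → ℤ), r = mk a 0 ρ₁ ρ₂ 0 + c • mk (-N) m w₁ w₂ y ∧
      ((bf E8 ρ₁ ρ₁ = 2 ∧ ρ₂ = 0) ∨ (ρ₁ = 0 ∧ bf E8 ρ₂ ρ₂ = 2)) ∧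
      m * a + bf E8 ρ₁ w₁ + bf E8 ρ₂ w₂ = 0) ∨
    (∃ (c κ a : ℤ) (s : Fin k → ℤ), 0 < κ ∧
      r = mk (κ * a) 0 0 0 s + c • mk (-N) m w₁ w₂ y ∧ bf K s s = 2 * κ ∧
      (∀ x, κ ∣ bf K s x) ∧ m * κ * a + bf K s y = 0) := by
  obtain ⟨κ, a, β, x₁, x₂, z, hκ, rfl, hz, hn⟩ := root_shape hK h0 hr
  rw [bf_mk] at hre
  simp only [bf_smul_left] at hre
  have e1 := E8_comm w₁ x₁
  have e2 := E8_comm w₂ x₂
  have e3 := bf_comm K hK.symm y z
  by_cases hβ : m ∣ β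
  · obtain ⟨β', rfl⟩ := hβ
    right
    -- the vectors orthogonal to the cusp direction
    have hr1 : mk (κ * a) (κ * (m * β')) (κ • x₁) (κ • x₂) z =
        mk (κ * (a + β' * N)) 0 (κ • (x₁ - β' • w₁)) (κ • (x₂ - β' • w₂))
          (z - (κ * β') • y) + (κ * β') • mk (-N) m w₁ w₂ y := by
      rw [smul_mk, mk_add]
      congr 1
      · ring
      · ring
      · rw [smul_sub, smul_smul]
        abel
      · rw [smul_sub, smul_smul]
        abel
      · abel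
    have hs : ∀ x, κ ∣ bf K (z - (κ * β') • y) x := fun x => by
      rw [bf_sub_left, bf_smul_left]
      exact dvd_sub (hz x) ⟨β' * bf K y x, by ring⟩
    have hnorm : κ ^ 2 * (bf E8 (x₁ - β' • w₁) (x₁ - β' • w₁) +
        bf E8 (x₂ - β' • w₂) (x₂ - β' • w₂)) +
        bf K (z - (κ * β') • y) (z - (κ * β') • y) = 2 * κ := by
      simp only [bf_sub_left, bf_sub_right, bf_smul_left, bf_smul_right]
      rw [e1, e2, e3]
      linear_combination hn - 2 * κ * β' * hre + κ ^ 2 * β' ^ 2 * hN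
    have horth : m * (κ * (a + β' * N)) + κ * bf E8 (x₁ - β' • w₁) w₁ +
        κ * bf E8 (x₂ - β' • w₂) w₂ + bf K (z - (κ * β') • y) y = 0 := by
      simp only [bf_sub_left, bf_smul_left]
      linear_combination hre - κ * β' * hN
    generalize hu₁ : x₁ - β' • w₁ = u₁ at *
    generalize hu₂ : x₂ - β' • w₂ = u₂ at *
    generalize hss : z - (κ * β') • y = s at *
    by_cases h00 : u₁ = 0 ∧ u₂ = 0
    · right
      obtain ⟨rfl, rfl⟩ := h00
      refine ⟨κ * β', κ, a + β' * N, s, hκ, ?_, ?_, hs, ?_⟩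
      · rw [hr1, smul_zero]
      · rw [bf_zero_left] at hnorm
        linarith
      · rw [bf_zero_left, bf_zero_left] at horth
        linarith
    · left
      obtain ⟨c₁, h1⟩ := (E8_even u₁).two_dvd
      obtain ⟨c₂, h2⟩ := (E8_even u₂).two_dvd
      have g1 := E8_nonneg u₁
      have g2 := E8_nonneg u₂
      have g3 : 0 ≤ bf K s s := by
        by_cases hs0 : s = 0
        · rw [hs0, bf_zero_left]
        · exact (hK.pos s hs0).le
      have hc : 1 ≤ c₁ + c₂ := by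
        by_contra hcon
        apply h00
        constructor
        · by_contra hne
          have := E8_pos u₁ hne
          omega
        · by_contra hne
          have := E8_pos u₂ hne
          omega
      have hκ1 : κ = 1 := by
        by_contra hne
        have hk2 : 2 ≤ κ := by omega
        nlinarith
      subst hκ1
      have hc1 : c₁ + c₂ = 1 := by
        rw [h1, h2] at hnorm
        omega
      have hs0 : s = 0 := by
        by_contra hne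
        have := hK.pos s hne
        rw [h1, h2] at hnorm
        omega
      subst hs0
      refine ⟨1 * β', 1 * (a + β' * N), u₁, u₂, ?_, ?_, ?_⟩
      · rw [hr1, one_smul, one_smul]
      · rcases (by omega : c₁ = 0 ∨ c₂ = 0) with h | h
        · right
          refine ⟨?_, by omega⟩
          by_contra hne
          have := E8_pos u₁ hne
          omega
        · left
          refine ⟨by omega, ?_⟩
          by_contra hne
          have := E8_pos u₂ hne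
          omega
      · rw [bf_zero_left] at horth
        linarith
  · left
    refine ⟨κ, β, κ * a, x₁, x₂, z, hκ, hβ, rfl, ?_⟩
    simp only [bf_sub_left, bf_sub_right, bf_smul_left, bf_smul_right]
    rw [e1, e2, e3]
    linear_combination m ^ 2 * hn - 2 * m * κ * β * hre + κ ^ 2 * β ^ 2 * hN

end MP_dcc566_gt
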