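import Mathlib
import Pool.Agent.Lib.MP_dcc566_gt.E8F

namespace MP_dcc566_gt

private theorem E8C_expand (n β : ℤ) (x w : Fin 8 → ℤ) :
    bf E8 (n • x - β • w) (n • x - β • w) =
      n ^ 2 * bf E8 x x - 2 * n * β * bf E8 x w + β ^ 2 * bf E8 w w := by
  simp only [bf_sub_left, bf_sub_right, bf_smul_left, bf_smul_right, E8_comm w x]
  ring

private theorem E8C_sq {β : ℤ} (hβ : ¬ (3 : ℤ) ∣ β) : ∃ c : ℤ, β ^ 2 = 3 * c + 1 := by
  have h : β % 3 = 1 ∨ β % 3 = 2 := by omega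
  rcases h with h | h
  · obtain ⟨k, hk⟩ : ∃ k : ℤ, β = 3 * k + 1 := ⟨β / 3, by omega⟩
    exact ⟨3 * k ^ 2 + 2 * k, by rw [hk]; ring⟩
  · obtain ⟨k, hk⟩ : ∃ k : ℤ, β = 3 * k + 2 := ⟨β / 3, by omega⟩
    exact ⟨3 * k ^ 2 + 4 * k + 1, by rw [hk]; ring⟩

private theorem E8C_cs (v w : Fin 8 → ℤ) :
    -(bf E8 v v + bf E8 w w) ≤ 2 * bf E8 v w ∧ 2 * bf E8 v w ≤ bf E8 v v + bf E8 w w := by
  have h1 := E8_nonneg (v + w)
  have h2 := E8_nonneg (v - w)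
  simp only [bf_add_left, bf_add_right, bf_sub_left, bf_sub_right, E8_comm w v] at h1 h2
  constructor <;> linarith

private theorem E8C_self (u : Fin 8 → ℤ) :
    bf E8 u u = ∑ i, u i * bf E8 u (Pi.single i 1) := by
  have h : ∀ i, bf E8 u (Pi.single i 1) = (E8.mulVec u) i := fun i => by
    rw [E8_comm, bf_single_left]
  simp only [h]
  rfl

private theorem E8C_zero {u : Fin 8 → ℤ} (h : ∀ i, bf E8 u (Pi.single i 1) = 0) : u = 0 := by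
  by_contra hu
  have h1 := E8_pos u hu
  rw [E8C_self] at h1
  simp [h] at h1

private theorem E8C_root (i : Fin 8) : bf E8 (Pi.single i 1) (Pi.single i 1) = 2 := by
  revert i
  decide

private theorem E8C_small {y : Fin 8 → ℤ} (h : 9 * bf E8 y y ≤ 16) : y = 0 := by
  by_contra hy
  have h1 := E8_pos y hy
  obtain ⟨a, ha⟩ := E8_even y
  omega

/-- The class of `w8` modulo `3 E₈` contains no vector of norm `< 8` (nor does that of `-w8`).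

PROOF.  Let `v = 3x - β w8`; `(v,v) = 9 (x,x) - 6 β (x,w8) + 8 β² ≡ 2 mod 6` (`(x,x)` even, `β² ≡
1 mod 3`,
`8 β²` even), and `(v,v) ≥ 0`; so `(v,v) ≥ 8` unless `(v,v) = 2`.  Suppose `(v,v) = 2`.  For the
simple root
`α_i = Pi.single i 1` one has `(v, α_i)² ≤ 4` (Cauchy–Schwarz: `0 ≤ (v ± α_i, v ± α_i) = 4 ± 2
(v,α_i)`),
and `(v, α_i) ≡ -β (w8, α_i) = -β δ_{i1} mod 3`.  So `(v, α_i) = 0` for `i ≠ 1`, and
`(v,v) = Σ_i v_i (v, α_i) = v_1 (v, α_1)`; also `v = c w8` with `c = (v, α_1)` (both have the same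
products
with all `α_i`; `E8_pos`), so `(v,v) = 8 c² ≠ 2`. -/
theorem class8 (x : Fin 8 → ℤ) {β : ℤ} (hβ : ¬ (3 : ℤ) ∣ β) :
    8 ≤ bf E8 ((3 : ℤ) • x - β • w8) ((3 : ℤ) • x - β • w8) := by
  obtain ⟨v, hv⟩ : ∃ v : Fin 8 → ℤ, v = (3 : ℤ) • x - β • w8 := ⟨_, rfl⟩
  have hexp := E8C_expand 3 β x w8
  obtain ⟨c, hc⟩ := E8C_sq hβ
  obtain ⟨a, ha⟩ := E8_even x
  rw [norm_w8, bf_w8, hc, ha] at hexp
  rw [← hv] at hexp ⊢
  have h0 := E8_nonneg v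
  have hmod : ∃ d : ℤ, bf E8 v v = 6 * d + 2 :=
    ⟨3 * a - β * x 1 + 4 * c + 1, by rw [hexp]; ring⟩
  obtain ⟨d, hd⟩ := hmod
  by_contra hlt
  have h2 : bf E8 v v = 2 := by omega
  have hi : ∀ i, bf E8 v (Pi.single i 1) = 3 * bf E8 x (Pi.single i 1) -
      β * (Pi.single i 1 : Fin 8 → ℤ) 1 := fun i => by
    rw [hv, bf_sub_left, bf_smul_left, bf_smul_left, E8_comm w8, bf_w8]
  have hz : ∀ i, i ≠ 1 → bf E8 v (Pi.single i 1) = 0 := fun i hi1 => by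
    have h3 := E8C_cs v (Pi.single i 1)
    rw [h2, E8C_root] at h3
    have h4 := hi i
    rw [Pi.single_eq_of_ne (Ne.symm hi1), mul_zero, sub_zero] at h4
    omega
  have hw : v - bf E8 v (Pi.single 1 1) • w8 = 0 := by
    apply E8C_zero
    intro i
    rw [bf_sub_left, bf_smul_left, E8_comm w8, bf_w8]
    by_cases hi1 : i = 1
    · rw [hi1, Pi.single_eq_same, mul_one, sub_self]
    · rw [hz i hi1, Pi.single_eq_of_ne (Ne.symm hi1), mul_zero, sub_zero]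
  obtain ⟨e, he⟩ : ∃ e, e = bf E8 v (Pi.single 1 1) := ⟨_, rfl⟩
  rw [← he, sub_eq_zero] at hw
  rw [hw, bf_smul_left, bf_smul_right, norm_w8] at h2
  have h5 : 2 * (2 * (e * e)) = 1 := by linarith
  omega

/-- `(v,v) ≡ 0 mod 6`, and `v ≠ 0` since the coordinate `8 β` … `4 β` of `β w6` is not divisible
by `3`. -/
theorem class6 (x : Fin 8 → ℤ) {β : ℤ} (hβ : ¬ (3 : ℤ) ∣ β) :
    6 ≤ bf E8 ((3 : ℤ) • x - β • w6) ((3 : ℤ) • x - β • w6) := by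
  obtain ⟨v, hv⟩ : ∃ v : Fin 8 → ℤ, v = (3 : ℤ) • x - β • w6 := ⟨_, rfl⟩
  have hexp := E8C_expand 3 β x w6
  obtain ⟨a, ha⟩ := E8_even x
  rw [norm_w6, ha] at hexp
  rw [← hv] at hexp ⊢
  have hv0 : v ≠ 0 := by
    intro h0
    have h1 := congrFun (hv.symm.trans h0) 0
    have h2 : 3 * x 0 - β * 4 = 0 := h1
    omega
  have h3 := E8_pos v hv0
  have h4 : bf E8 v v = 6 * (3 * a - β * bf E8 x w6 + β ^ 2) := by
    rw [hexp]
    ring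
  omega

/-- `(v,v) ≡ 4 mod 6` and `≥ 0`. -/
theorem class4 (x : Fin 8 → ℤ) {β : ℤ} (hβ : ¬ (3 : ℤ) ∣ β) :
    4 ≤ bf E8 ((3 : ℤ) • x - β • w4) ((3 : ℤ) • x - β • w4) := by
  have hexp := E8C_expand 3 β x w4
  obtain ⟨c, hc⟩ := E8C_sq hβ
  obtain ⟨a, ha⟩ := E8_even x
  rw [norm_w4, hc, ha] at hexp
  have h0 := E8_nonneg ((3 : ℤ) • x - β • w4)
  have h4 : bf E8 ((3 : ℤ) • x - β • w4) ((3 : ℤ) • x - β • w4) =
      6 * (3 * a - β * bf E8 x w4 + 2 * c) + 4 := by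
    rw [hexp]
    ring
  omega

/-- The only vector of norm 4 in the class of `± w4` modulo `3 E₈` is `± w4`: if `v, w4` have norm
4 and
`v - w4 = 3 y`, then `9 (y,y) = (v - w4, v - w4) ≤ 16` (Cauchy–Schwarz or parallelogram law:
`(v-w,v-w) + (v+w,v+w) = 16`), `(y,y)` is even, so `(y,y) = 0` and `y = 0`. -/
theorem class4_eq (x : Fin 8 → ℤ) {β : ℤ}
    (h : bf E8 ((3 : ℤ) • x - β • w4) ((3 : ℤ) • x - β • w4) = 4) :
    ((3 : ℤ) ∣ β - 1 → (3 : ℤ) • x - β • w4 = -w4) ∧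
      ((3 : ℤ) ∣ β + 1 → (3 : ℤ) • x - β • w4 = w4) := by
  obtain ⟨v, hv⟩ : ∃ v : Fin 8 → ℤ, v = (3 : ℤ) • x - β • w4 := ⟨_, rfl⟩
  rw [← hv] at h ⊢
  have hcs := E8C_cs v w4
  rw [h, norm_w4] at hcs
  constructor
  · rintro ⟨k, hk⟩
    have e : v + w4 = (3 : ℤ) • (x - k • w4) := by
      rw [hv, show β = 3 * k + 1 by linarith]
      module
    have h1 : bf E8 (v + w4) (v + w4) = 9 * bf E8 (x - k • w4) (x - k • w4) := by
      rw [e, bf_smul_left, bf_smul_right]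
      ring
    have h2 : bf E8 (v + w4) (v + w4) = 8 + 2 * bf E8 v w4 := by
      simp only [bf_add_left, bf_add_right, E8_comm w4 v]
      rw [h, norm_w4]
      ring
    have h3 : x - k • w4 = 0 := E8C_small (by linarith)
    rw [h3, smul_zero] at e
    exact eq_neg_of_add_eq_zero_left e
  · rintro ⟨k, hk⟩
    have e : v - w4 = (3 : ℤ) • (x - k • w4) := by
      rw [hv, show β = 3 * k - 1 by linarith]
      module
    have h1 : bf E8 (v - w4) (v - w4) = 9 * bf E8 (x - k • w4) (x - k • w4) := by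
      rw [e, bf_smul_left, bf_smul_right]
      ring
    have h2 : bf E8 (v - w4) (v - w4) = 8 - 2 * bf E8 v w4 := by
      simp only [bf_sub_left, bf_sub_right, E8_comm w4 v]
      rw [h, norm_w4]
      ring
    have h3 : x - k • w4 = 0 := E8C_small (by linarith)
    rw [h3, smul_zero] at e
    exact sub_eq_zero.1 e

/-- Modulo 2: `(v,v) ≡ 0 mod 4`, `v ≠ 0` since the coordinate `5 β` of `β w4` is odd. -/
theorem class4_two (x : Fin 8 → ℤ) {β : ℤ} (hβ : ¬ (2 : ℤ) ∣ β) :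
    4 ≤ bf E8 ((2 : ℤ) • x - β • w4) ((2 : ℤ) • x - β • w4) := by
  obtain ⟨v, hv⟩ : ∃ v : Fin 8 → ℤ, v = (2 : ℤ) • x - β • w4 := ⟨_, rfl⟩
  have hexp := E8C_expand 2 β x w4
  rw [norm_w4] at hexp
  rw [← hv] at hexp ⊢
  have hv0 : v ≠ 0 := by
    intro h0
    have h1 := congrFun (hv.symm.trans h0) 1
    have h2 : 2 * x 1 - β * 5 = 0 := h1
    omega
  have h3 := E8_pos v hv0
  have h4 : bf E8 v v = 4 * (bf E8 x x - β * bf E8 x w4 + β ^ 2) := by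
    rw [hexp]
    ring
  omega

/-- Modulo 2: `(v,v) ≥ 0` even and `v ≠ 0` since the coordinate `3 β` of `β w2` is odd. -/
theorem class2_two (x : Fin 8 → ℤ) {β : ℤ} (hβ : ¬ (2 : ℤ) ∣ β) :
    2 ≤ bf E8 ((2 : ℤ) • x - β • w2) ((2 : ℤ) • x - β • w2) := by
  obtain ⟨v, hv⟩ : ∃ v : Fin 8 → ℤ, v = (2 : ℤ) • x - β • w2 := ⟨_, rfl⟩
  rw [← hv]
  have hv0 : v ≠ 0 := by
    intro h0
    have h1 := congrFun (hv.symm.trans h0) 1
    have h2 : 2 * x 1 - β * 3 = 0 := h1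
    omega
  have h3 := E8_pos v hv0
  obtain ⟨a, ha⟩ := E8_even v
  omega

/-- A root `ρ` of `E₈` with `3 ∣ (ρ, w4)` is orthogonal to `w4`
(`0 ≤ (2 w4 ∓ 3 ρ, 2 w4 ∓ 3 ρ) = 16 + 18 ∓ 12 (ρ,w4)`, so `|(ρ,w4)| ≤ 2`). -/
theorem root_w4 {ρ : Fin 8 → ℤ} (h : bf E8 ρ ρ = 2) (h3 : (3 : ℤ) ∣ bf E8 ρ w4) :
    bf E8 ρ w4 = 0 := by
  have h1 := E8_nonneg ((2 : ℤ) • w4 - (3 : ℤ) • ρ)
  have h2 := E8_nonneg ((2 : ℤ) • w4 - (-3 : ℤ) • ρ)
  rw [E8C_expand, norm_w4, h, E8_comm w4 ρ] at h1 h2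
  obtain ⟨k, hk⟩ := h3
  rw [hk] at h1 h2 ⊢
  have h5 : k = 0 := by omega
  rw [h5, mul_zero]

end MP_dcc566_gt
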