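import Mathlib
import Pool.Agent.Lib.MP_dcc566_gt.Cusp
import Pool.Agent.Lib.MP_dcc566_gt.E8C

namespace MP_dcc566_gt

variable {k : ℕ}

/-- LEMMA O.  `e = mk (-N) m w₁ w₂ y`, `t = mk (-(y,y)) 0 0 0 (m y)`.

PROOF.  `(e,e) = -2mN + (w₁,w₁)+(w₂,w₂)+(y,y) = 0`, `(t,e) = -(y,y) m + m (y,y) = 0`, `(t,t) = m²
(y,y) > 0`.
Let `r` be a root orthogonal to `e`; use `cusp_cases`.
(1): `κ² (c₁ + c₂) ≤ 2 κ m²` gives `κ (c₁+c₂) ≤ 2 m² < 2 (c₁ + c₂)`, so `κ = 1`, and then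
`(m z - β y, m z - β y) ≤ 2 m² - c₁ - c₂`, against `hS`.
(2): `(r,t) = 0` as `r - c e = mk a 0 ρ₁ ρ₂ 0`.
(3): `(r,t) = m (s,y)` and `m κ ∣ (s,y)`, so `(s,y) = 0` by `hK'`. -/
theorem cuspBad_O {K : Matrix (Fin k) (Fin k) ℤ} (hK : EvenPD K) {m N c₁ c₂ : ℤ} (hm : 0 < m)
    {w₁ w₂ : Fin 8 → ℤ} {y : Fin k → ℤ} (hy : y ≠ 0)
    (hN : bf E8 w₁ w₁ + bf E8 w₂ w₂ + bf K y y = 2 * m * N)
    (h1 : ∀ (x : Fin 8 → ℤ) (β : ℤ), ¬ m ∣ β → c₁ ≤ bf E8 (m • x - β • w₁) (m • x - β • w₁))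
    (h2 : ∀ (x : Fin 8 → ℤ) (β : ℤ), ¬ m ∣ β → c₂ ≤ bf E8 (m • x - β • w₂) (m • x - β • w₂))
    (hc : m ^ 2 < c₁ + c₂)
    (hS : ∀ (z : Fin k → ℤ) (β : ℤ), ¬ m ∣ β →
      2 * m ^ 2 - c₁ - c₂ < bf K (m • z - β • y) (m • z - β • y))
    (hK' : ∀ (s : Fin k → ℤ) (κ : ℤ), 0 < κ → bf K s s = 2 * κ → (∀ x, κ ∣ bf K s x) →
      m * κ ∣ bf K s y → bf K s y = 0) : CuspBad (LG K) := by
  have hyy := hK.pos y hy
  have hS0 : ∀ v : Fin k → ℤ, 0 ≤ bf K v v := fun v => by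
    by_cases hv : v = 0
    · rw [hv, bf_zero_left]
    · exact (hK.pos v hv).le
  have het : bf (LG K) (mk (-N) m w₁ w₂ y) (mk (-(bf K y y)) 0 0 0 (m • y)) = 0 := by
    rw [bf_mk, bf_zero_right, bf_zero_right, bf_smul_right]
    ring
  refine ⟨mk (-N) m w₁ w₂ y, mk (-(bf K y y)) 0 0 0 (m • y), ?_, ?_, ?_, ?_, ?_⟩
  · intro h
    have h3 : m = 0 := congrFun h (Sum.inl 1)
    omega
  · rw [bf_mk]
    linarith
  · rw [bf_mk, bf_zero_left, bf_zero_left, bf_smul_left]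
    ring
  · rw [bf_mk, bf_zero_left, bf_smul_left, bf_smul_right]
    have : 0 < m * (m * bf K y y) := by positivity
    linarith
  · intro r h0 hr hre
    rcases cusp_cases hK hm hN h0 hr hre with ⟨κ, β, a, x₁, x₂, z, hκ, hβ, rfl, hn⟩ |
      ⟨c, a, ρ₁, ρ₂, rfl, _, _⟩ | ⟨c, κ, a, s, hκ, rfl, hss, hsd, hsy⟩
    · exfalso
      have g1 := h1 x₁ β hβ
      have g2 := h2 x₂ β hβ
      have g3 := hS0 (m • z - (κ * β) • y)
      have hm2 : 0 < m ^ 2 := by positivity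
      have hκ1 : κ = 1 := by
        by_contra hne
        have hk2 : 2 ≤ κ := by omega
        have e1 : κ ^ 2 * (c₁ + c₂) ≤ 2 * κ * m ^ 2 := by
          have : κ ^ 2 * (c₁ + c₂) ≤ κ ^ 2 * (bf E8 (m • x₁ - β • w₁) (m • x₁ - β • w₁) +
              bf E8 (m • x₂ - β • w₂) (m • x₂ - β • w₂)) :=
            mul_le_mul_of_nonneg_left (by linarith) (by positivity)
          linarith
        have e2 : 2 * κ * m ^ 2 < κ ^ 2 * (c₁ + c₂) := by
          have e3 : 2 * κ * m ^ 2 < 2 * κ * (c₁ + c₂) :=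
            mul_lt_mul_of_pos_left hc (by positivity)
          have e4 : 2 * κ * (c₁ + c₂) ≤ κ ^ 2 * (c₁ + c₂) := by
            apply mul_le_mul_of_nonneg_right _ (by linarith)
            nlinarith
          linarith
        linarith
      subst hκ1
      rw [one_mul] at hn
      have g4 := hS z β hβ
      linarith
    · rw [bf_add_left, bf_smul_left, het, bf_mk, bf_zero_right, bf_zero_right, bf_zero_left]
      ring
    · rw [bf_add_left, bf_smul_left, het, bf_mk, bf_zero_left, bf_smul_right]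
      have h5 : bf K s y = 0 := hK' s κ hκ hss hsd ⟨-a, by linear_combination hsy⟩
      rw [h5]
      ring

/-- LEMMA S.  `e = mk (-3) 3 w8 w4 y`, `t = mk 0 0 0 (3 w4) (-2 y)`, where `(y,y) = 6`.

PROOF.  `(e,e) = -18 + 8 + 4 + 6 = 0`, `(t,e) = 3·4 - 2·6 = 0`, `(t,t) = 36 + 24 = 60 > 0`.
Let `r` be a root orthogonal to `e`; `cusp_cases` with `m = N = 3`:
(1): `12 κ² ≤ 18 κ`, so `κ = 1`; `(R₁,R₁) ≥ 8`, `(R₂,R₂) ≥ 4`, `(S,S) ≥ 6` and the sum is 18, so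
all are
equalities; by `class4_eq` and `hSe`: `R₂ = ∓ w4`, `S = ∓ y` with the same sign (`-` if `β ≡ 1`,
`+` if
`β ≡ -1 mod 3`).  Then `3 (x₂,w4) = (R₂,w4) + 4β = ∓4 + 4β`, `3 (z,y) = (S,y) + 6β = ∓6 + 6β`, so
`(r,t) = 3 (x₂,w4) - 2 (z,y) = 0`.
(2): `ρ₂ = 0`: `(r,t) = 0`.  `ρ₁ = 0`: `3 a + (ρ₂,w4) = 0`, so `(ρ₂,w4) = 0` by `root_w4`, `(r,t)
= 3 (ρ₂,w4) = 0`.
(3): `(r,t) = -2 (s,y) = 0` by `hK'`. -/
theorem cuspBad_S {K : Matrix (Fin k) (Fin k) ℤ} (hK : EvenPD K) {y : Fin k → ℤ}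
    (hy : bf K y y = 6)
    (hS : ∀ (z : Fin k → ℤ) (β : ℤ), ¬ (3 : ℤ) ∣ β →
      6 ≤ bf K ((3 : ℤ) • z - β • y) ((3 : ℤ) • z - β • y))
    (hSe : ∀ (z : Fin k → ℤ) (β : ℤ),
      bf K ((3 : ℤ) • z - β • y) ((3 : ℤ) • z - β • y) = 6 →
        ((3 : ℤ) ∣ β - 1 → (3 : ℤ) • z - β • y = -y) ∧ ((3 : ℤ) ∣ β + 1 → (3 : ℤ) • z - β • y = y))
    (hK' : ∀ (s : Fin k → ℤ) (κ : ℤ), 0 < κ → bf K s s = 2 * κ → (∀ x, κ ∣ bf K s x) →
      3 * κ ∣ bf K s y → bf K s y = 0) : CuspBad (LG K) := by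
  have hm : (0 : ℤ) < 3 := by norm_num
  have hN : bf E8 w8 w8 + bf E8 w4 w4 + bf K y y = 2 * 3 * 3 := by
    rw [norm_w8, norm_w4, hy]
    norm_num
  have het : bf (LG K) (mk (-3) 3 w8 w4 y) (mk 0 0 0 ((3 : ℤ) • w4) ((-2 : ℤ) • y)) = 0 := by
    rw [bf_mk, bf_zero_right, bf_smul_right, bf_smul_right, norm_w4, hy]
    norm_num
  refine ⟨mk (-3) 3 w8 w4 y, mk 0 0 0 ((3 : ℤ) • w4) ((-2 : ℤ) • y), ?_, ?_, ?_, ?_, ?_⟩
  · intro h
    have h3 : (3 : ℤ) = 0 := congrFun h (Sum.inl 1)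
    omega
  · rw [bf_mk]
    linarith
  · rw [bf_mk, bf_zero_left, bf_smul_left, bf_smul_left, norm_w4, hy]
    norm_num
  · rw [bf_mk, bf_zero_left, bf_smul_left, bf_smul_left, bf_smul_right, bf_smul_right,
      norm_w4, hy]
    norm_num
  · intro r h0 hr hre
    rcases cusp_cases hK hm hN h0 hr hre with ⟨κ, β, a, x₁, x₂, z, hκ, hβ, rfl, hn⟩ |
      ⟨c, a, ρ₁, ρ₂, rfl, hρ, hra⟩ | ⟨c, κ, a, s, hκ, rfl, hss, hsd, hsy⟩
    · have g1 := class8 x₁ hβ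
      have g2 := class4 x₂ hβ
      have g3 : 0 ≤ bf K ((3 : ℤ) • z - (κ * β) • y) ((3 : ℤ) • z - (κ * β) • y) := by
        by_cases hv : (3 : ℤ) • z - (κ * β) • y = 0
        · rw [hv, bf_zero_left]
        · exact (hK.pos _ hv).le
      have hκ1 : κ = 1 := by
        by_contra hne
        have hk2 : 2 ≤ κ := by omega
        have e1 : κ ^ 2 * 12 ≤ 2 * κ * 3 ^ 2 := by
          have : κ ^ 2 * 12 ≤ κ ^ 2 * (bf E8 ((3 : ℤ) • x₁ - β • w8) ((3 : ℤ) • x₁ - β • w8) +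
              bf E8 ((3 : ℤ) • x₂ - β • w4) ((3 : ℤ) • x₂ - β • w4)) :=
            mul_le_mul_of_nonneg_left (by linarith) (by positivity)
          linarith
        nlinarith
      subst hκ1
      rw [one_mul] at hn
      have g4 := hS z β hβ
      have hR2 : bf E8 ((3 : ℤ) • x₂ - β • w4) ((3 : ℤ) • x₂ - β • w4) = 4 := by linarith
      have hS6 : bf K ((3 : ℤ) • z - β • y) ((3 : ℤ) • z - β • y) = 6 := by linarith
      have k1 := class4_eq x₂ hR2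
      have k2 := hSe z β hS6
      have hval : 3 * (3 * bf E8 x₂ w4 - 2 * bf K z y) = 0 := by
        have f1 : bf E8 ((3 : ℤ) • x₂ - β • w4) w4 = 3 * bf E8 x₂ w4 - β * 4 := by
          rw [bf_sub_left, bf_smul_left, bf_smul_left, norm_w4]
        have f2 : bf K ((3 : ℤ) • z - β • y) y = 3 * bf K z y - β * 6 := by
          rw [bf_sub_left, bf_smul_left, bf_smul_left, hy]
        rcases (by omega : (3 : ℤ) ∣ β - 1 ∨ (3 : ℤ) ∣ β + 1) with h | h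
        · rw [k1.1 h, bf_neg_left, norm_w4] at f1
          rw [k2.1 h, bf_neg_left, hy] at f2
          linarith
        · rw [k1.2 h, norm_w4] at f1
          rw [k2.2 h, hy] at f2
          linarith
      rw [bf_mk, bf_zero_right, bf_smul_right, bf_smul_right, one_smul]
      linarith
    · rw [bf_add_left, bf_smul_left, het, bf_mk, bf_zero_right, bf_zero_left, bf_smul_right]
      have h5 : bf E8 ρ₂ w4 = 0 := by
        rcases hρ with ⟨_, h⟩ | ⟨h, h'⟩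
        · rw [h, bf_zero_left]
        · rw [h, bf_zero_left] at hra
          exact root_w4 h' ⟨-a, by linear_combination hra⟩
      rw [h5]
      ring
    · rw [bf_add_left, bf_smul_left, het, bf_mk, bf_zero_left, bf_zero_left, bf_smul_right]
      have h5 : bf K s y = 0 := hK' s κ hκ hss hsd ⟨-a, by linear_combination hsy⟩
      rw [h5]
      ring

/-- LEMMA H.  `e = mk (-N) 3 w8 w4 y`, `t = mk (-4) 0 0 (3 w4) 0`, `12 + (y,y) = 6 N`.

PROOF.  `(t,e) = -12 + 12 = 0`, `(t,t) = 36`.  `cusp_cases`, `m = 3`: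
(1): `12 κ² ≤ 18 κ` so `κ = 1` and `(S,S) ≤ 6`, against `hS`.
(2): `(r,t) = 3 (ρ₂,w4)`, zero as in Lemma S.  (3): `(r,t) = 0`. -/
theorem cuspBad_H {K : Matrix (Fin k) (Fin k) ℤ} (hK : EvenPD K) {N : ℤ} {y : Fin k → ℤ}
    (hN : 12 + bf K y y = 6 * N)
    (hS : ∀ (z : Fin k → ℤ) (β : ℤ), ¬ (3 : ℤ) ∣ β →
      6 < bf K ((3 : ℤ) • z - β • y) ((3 : ℤ) • z - β • y)) : CuspBad (LG K) := by
  have hm : (0 : ℤ) < 3 := by norm_num
  have hN' : bf E8 w8 w8 + bf E8 w4 w4 + bf K y y = 2 * 3 * N := by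
    rw [norm_w8, norm_w4]
    linarith
  have het : bf (LG K) (mk (-N) 3 w8 w4 y) (mk (-4) 0 0 ((3 : ℤ) • w4) 0) = 0 := by
    rw [bf_mk, bf_zero_right, bf_zero_right, bf_smul_right, norm_w4]
    ring
  refine ⟨mk (-N) 3 w8 w4 y, mk (-4) 0 0 ((3 : ℤ) • w4) 0, ?_, ?_, ?_, ?_, ?_⟩
  · intro h
    have h3 : (3 : ℤ) = 0 := congrFun h (Sum.inl 1)
    omega
  · rw [bf_mk]
    linarith
  · rw [bf_mk, bf_zero_left, bf_zero_left, bf_smul_left, norm_w4]
    ring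
  · rw [bf_mk, bf_zero_left, bf_zero_left, bf_smul_left, bf_smul_right, norm_w4]
    norm_num
  · intro r h0 hr hre
    rcases cusp_cases hK hm hN' h0 hr hre with ⟨κ, β, a, x₁, x₂, z, hκ, hβ, rfl, hn⟩ |
      ⟨c, a, ρ₁, ρ₂, rfl, hρ, hra⟩ | ⟨c, κ, a, s, hκ, rfl, hss, hsd, hsy⟩
    · exfalso
      have g1 := class8 x₁ hβ
      have g2 := class4 x₂ hβ
      have g3 : 0 ≤ bf K ((3 : ℤ) • z - (κ * β) • y) ((3 : ℤ) • z - (κ * β) • y) := by
        by_cases hv : (3 : ℤ) • z - (κ * β) • y = 0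
        · rw [hv, bf_zero_left]
        · exact (hK.pos _ hv).le
      have hκ1 : κ = 1 := by
        by_contra hne
        have hk2 : 2 ≤ κ := by omega
        have e1 : κ ^ 2 * 12 ≤ 2 * κ * 3 ^ 2 := by
          have : κ ^ 2 * 12 ≤ κ ^ 2 * (bf E8 ((3 : ℤ) • x₁ - β • w8) ((3 : ℤ) • x₁ - β • w8) +
              bf E8 ((3 : ℤ) • x₂ - β • w4) ((3 : ℤ) • x₂ - β • w4)) :=
            mul_le_mul_of_nonneg_left (by linarith) (by positivity)
          linarith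
        nlinarith
      subst hκ1
      rw [one_mul] at hn
      have g4 := hS z β hβ
      linarith
    · rw [bf_add_left, bf_smul_left, het, bf_mk, bf_zero_right, bf_zero_left, bf_smul_right]
      have h5 : bf E8 ρ₂ w4 = 0 := by
        rcases hρ with ⟨_, h⟩ | ⟨h, h'⟩
        · rw [h, bf_zero_left]
        · rw [h, bf_zero_left] at hra
          exact root_w4 h' ⟨-a, by linear_combination hra⟩
      rw [h5]
      ring
    · rw [bf_add_left, bf_smul_left, het, bf_mk, bf_zero_left, bf_zero_left, bf_zero_right]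
      ring

/-- LEMMA 0.  If `K` (of rank `≥ 1`) has no root then `e = mk 1 0 0 0 0`, `t = mk 0 0 0 0 y`, `y ≠
0`.

PROOF.  A root `r ⊥ e` has `b = 0`; by `root_shape`: `κ² ((x₁,x₁)+(x₂,x₂)) + (z,z) = 2κ`.  If `z ≠
0`: if
`x₁ = x₂ = 0` then `z` is a root of `K` (`(z,z) = 2κ`, `κ ∣ (z,x)`), excluded; otherwise
`(x₁,x₁)+(x₂,x₂) ≥ 2`, `2κ² < 2κ`, impossible.  So `z = 0` and `(r,t) = (z,y) = 0`. -/
theorem cuspBad_zero {K : Matrix (Fin k) (Fin k) ℤ} (hK : EvenPD K) {y : Fin k → ℤ} (hy : y ≠ 0)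
    (hno : ∀ s : Fin k → ℤ, 0 < bf K s s → ¬ ∀ x, bf K s s ∣ 2 * bf K s x) :
    CuspBad (LG K) := by
  have hyy := hK.pos y hy
  refine ⟨mk 1 0 0 0 0, mk 0 0 0 0 y, ?_, ?_, ?_, ?_, ?_⟩
  · intro h
    have h3 : (1 : ℤ) = 0 := congrFun h (Sum.inl 0)
    omega
  · rw [bf_mk, bf_zero_left, bf_zero_left]
    ring
  · rw [bf_mk, bf_zero_left, bf_zero_right]
    ring
  · rw [bf_mk, bf_zero_left]
    linarith
  · intro r h0 hr hre
    obtain ⟨κ, a, b, x₁, x₂, z, hκ, rfl, hz, hn⟩ := root_shape hK h0 hr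
    rw [bf_mk, bf_zero_right, bf_zero_right, bf_zero_right] at hre
    have hb : b = 0 := by
      have : κ * b = 0 := by linarith
      rcases mul_eq_zero.1 this with h | h
      · omega
      · exact h
    subst hb
    have hz0 : z = 0 := by
      by_contra hne
      have hzz := hK.pos z hne
      by_cases h00 : x₁ = 0 ∧ x₂ = 0
      · obtain ⟨rfl, rfl⟩ := h00
        rw [bf_zero_left] at hn
        have h2 : bf K z z = 2 * κ := by linarith
        apply hno z hzz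
        intro x
        rw [h2]
        exact mul_dvd_mul_left 2 (hz x)
      · obtain ⟨c₁, h1⟩ := (E8_even x₁).two_dvd
        obtain ⟨c₂, h2⟩ := (E8_even x₂).two_dvd
        have g1 := E8_nonneg x₁
        have g2 := E8_nonneg x₂
        have hc : 1 ≤ c₁ + c₂ := by
          by_contra hcon
          apply h00
          constructor
          · by_contra hne'
            have := E8_pos x₁ hne'
            omega
          · by_contra hne'
            have := E8_pos x₂ hne'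
            omega
        rw [h1, h2] at hn
        have e1 : κ ^ 2 * 1 ≤ κ ^ 2 * (c₁ + c₂) :=
          mul_le_mul_of_nonneg_left hc (by positivity)
        nlinarith
    subst hz0
    rw [bf_mk, bf_zero_right, bf_zero_right, bf_zero_left]
    ring

end MP_dcc566_gt
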