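import Mathlib
import Pool.Agent.Lib.MP_dcc566_gt.Lem

namespace MP_dcc566_gt

private theorem CaseA_dvd {κ t : ℤ} (h : 3 * κ ∣ t) (hκ : 0 < κ) (hb : |t| ≤ 2 * κ) : t = 0 :=
  Int.eq_zero_of_abs_lt_dvd h (by linarith)

private theorem CaseA_sq {a : ℤ} (h : a ≠ 0) : 1 ≤ a ^ 2 := by
  have h1 : 0 < a ^ 2 := by positivity
  linarith

private theorem CaseA_abs_le (a : ℤ) : |a| ≤ a ^ 2 := by
  rcases eq_or_ne a 0 with h | h
  · subst h
    simp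
  · have h1 : 1 ≤ |a| := Int.one_le_abs h
    have h2 : a ^ 2 = |a| ^ 2 := (sq_abs a).symm
    rw [h2]
    nlinarith

private theorem CaseA_ne {z β : ℤ} (h : ¬ (3 : ℤ) ∣ β) : 3 * z - β ≠ 0 := by
  intro h1
  exact h ⟨z, by linarith⟩

/-- the values `± 1` -/
private theorem CaseA_pm {z β : ℤ} (h : (3 * z - β) ^ 2 = 1) :
    ((3 : ℤ) ∣ β - 1 → 3 * z - β = -1) ∧ ((3 : ℤ) ∣ β + 1 → 3 * z - β = 1) := by
  have h1 : 3 * z - β = 1 ∨ 3 * z - β = -1 := by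
    have h2 : (3 * z - β - 1) * (3 * z - β + 1) = 0 := by
      have h4 : (3 * z - β - 1) * (3 * z - β + 1) = (3 * z - β) ^ 2 - 1 := by ring
      rw [h4, h, sub_self]
    rcases mul_eq_zero.1 h2 with h | h
    · exact Or.inl (by linarith)
    · exact Or.inr (by linarith)
  constructor
  · rintro ⟨c, hc⟩
    omega
  · rintro ⟨c, hc⟩
    omega

private theorem CaseA_bf1 (a : ℤ) (z w : Fin 1 → ℤ) : bf !![a] z w = a * z 0 * w 0 := by
  simp [bf, dotProduct, Matrix.mulVec]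
  ring

private theorem CaseA_even1 {q : ℤ} (hq : 0 < q) : EvenPD !![2 * q] where
  symm := by
    ext i j
    fin_cases i
    fin_cases j
    rfl
  even := fun z => ⟨q * z 0 * z 0, by rw [CaseA_bf1]; ring⟩
  pos := fun z hz => by
    have h0 : z 0 ≠ 0 := by
      intro h
      apply hz
      funext i
      rw [Subsingleton.elim i 0, h]
      rfl
    rw [CaseA_bf1]
    have h1 : 0 < z 0 ^ 2 := by positivity
    nlinarith

private theorem CaseA_rank1_O {q c₁ c₂ N : ℤ} (hq : 0 < q) {w₁ w₂ : Fin 8 → ℤ}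
    (hN : bf E8 w₁ w₁ + bf E8 w₂ w₂ + 2 * q = 6 * N)
    (h1 : ∀ (x : Fin 8 → ℤ) (β : ℤ), ¬ (3 : ℤ) ∣ β →
      c₁ ≤ bf E8 ((3 : ℤ) • x - β • w₁) ((3 : ℤ) • x - β • w₁))
    (h2 : ∀ (x : Fin 8 → ℤ) (β : ℤ), ¬ (3 : ℤ) ∣ β →
      c₂ ≤ bf E8 ((3 : ℤ) • x - β • w₂) ((3 : ℤ) • x - β • w₂))
    (hc : 9 < c₁ + c₂) (hS : 18 - c₁ - c₂ < 2 * q) : CuspBad (LG !![2 * q]) := by
  refine cuspBad_O (CaseA_even1 hq) (m := 3) (N := N) (c₁ := c₁) (c₂ := c₂) (by norm_num)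
    (w₁ := w₁) (w₂ := w₂) (y := ![1]) ?_ ?_ h1 h2 (by linarith) ?_ ?_
  · intro h
    have := congrFun h 0
    simp at this
  · rw [CaseA_bf1]
    simp only [Matrix.cons_val_zero]
    linarith
  · intro z β hβ
    rw [CaseA_bf1]
    have h3 : (((3 : ℤ) • z - β • ![1]) : Fin 1 → ℤ) 0 = 3 * z 0 - β := by simp
    rw [h3]
    have h4 := CaseA_sq (CaseA_ne (z := z 0) hβ)
    nlinarith
  · intro s κ hκ hs _ hd
    refine CaseA_dvd hd hκ ?_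
    rw [CaseA_bf1] at hs ⊢
    simp only [Matrix.cons_val_zero, mul_one]
    have h5 := CaseA_abs_le (s 0)
    have h6 : |2 * q * s 0| = 2 * q * |s 0| := by
      rw [abs_mul, abs_of_pos (by linarith : (0 : ℤ) < 2 * q)]
    rw [h6, ← hs]
    nlinarith

/-- Rank one.  `K = ⟨2q⟩`, `q ≥ 3`: `U ⊕ E₈ ⊕ E₈ ⊕ K` has a bad cusp.

PROOF.  `y = ![1]`, `(y,y) = 2q`; `bf K z w = 2 q z0 w0`.
`q = 3`: `cuspBad_S`: `(3z - βy, 3z - βy) = 6 (3 z0 - β)²`, `≥ 6`, equality iff `3 z0 - β = ± 1`.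
`hK'`: `6 s0² = 2κ`, `9 s0² ∣ 6 s0` forces `s0 = 0`.
`q ≥ 4`: `cuspBad_O` with `m = 3` and
`q ≡ 1 mod 3`: `w₁ = w₂ = w8`, `c₁ = c₂ = 8`, `6N = 16 + 2q`, `hS`: `2 < 2q (3 z0 - β)²`;
`q ≡ 2` (`q ≥ 5`): `w8, w6`, `c = 8, 6`, `6N = 14 + 2q`, `hS`: `4 < 2q`;
`q ≡ 0` (`q ≥ 6`): `w6, w6`, `c = 6, 6`, `6N = 12 + 2q`, `hS`: `6 < 2q`.
`hK'`: `κ = q s0²`, `3κ ∣ 2 q s0`, while `|2 q s0| ≤ 2 q s0² < 3κ`; so `2 q s0 = 0`. -/
theorem cuspBad_rank1 {q : ℤ} (hq : 3 ≤ q) : CuspBad (LG !![2 * q]) := by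
  rcases eq_or_lt_of_le hq with h | h
  · subst h
    refine cuspBad_S (CaseA_even1 (by norm_num)) (y := ![1]) ?_ ?_ ?_ ?_
    · rw [CaseA_bf1]
      simp
    · intro z β hβ
      rw [CaseA_bf1]
      have h3 : (((3 : ℤ) • z - β • ![1]) : Fin 1 → ℤ) 0 = 3 * z 0 - β := by simp
      rw [h3]
      have h4 := CaseA_sq (CaseA_ne (z := z 0) hβ)
      nlinarith
    · intro z β h4
      rw [CaseA_bf1] at h4
      have h3 : (((3 : ℤ) • z - β • ![1]) : Fin 1 → ℤ) 0 = 3 * z 0 - β := by simp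
      rw [h3] at h4
      have h5 : (3 * z 0 - β) ^ 2 = 1 := by nlinarith
      obtain ⟨h6, h7⟩ := CaseA_pm h5
      constructor
      · intro hd
        funext i
        rw [Subsingleton.elim i 0, h3, h6 hd]
        simp
      · intro hd
        funext i
        rw [Subsingleton.elim i 0, h3, h7 hd]
        simp
    · intro s κ hκ hs _ hd
      refine CaseA_dvd hd hκ ?_
      rw [CaseA_bf1] at hs ⊢
      simp only [Matrix.cons_val_zero, mul_one]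
      have h5 := CaseA_abs_le (s 0)
      have h6 : |2 * 3 * s 0| = 2 * 3 * |s 0| := by
        rw [abs_mul]
        norm_num
      rw [h6, ← hs]
      nlinarith
  · have h4 : 4 ≤ q := h
    have hq0 : 0 < q := by linarith
    have hmod : q % 3 = 0 ∨ q % 3 = 1 ∨ q % 3 = 2 := by omega
    rcases hmod with h3 | h3 | h3
    · refine CaseA_rank1_O (N := 2 + q / 3) (c₁ := 6) (c₂ := 6) (w₁ := w6) (w₂ := w6) hq0 ?_
        (fun x β hβ => class6 x hβ) (fun x β hβ => class6 x hβ) (by norm_num) (by omega)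
      rw [norm_w6]
      omega
    · refine CaseA_rank1_O (N := 3 + q / 3) (c₁ := 8) (c₂ := 8) (w₁ := w8) (w₂ := w8) hq0 ?_
        (fun x β hβ => class8 x hβ) (fun x β hβ => class8 x hβ) (by norm_num) (by omega)
      rw [norm_w8]
      omega
    · refine CaseA_rank1_O (N := 3 + q / 3) (c₁ := 8) (c₂ := 6) (w₁ := w8) (w₂ := w6) hq0 ?_
        (fun x β hβ => class8 x hβ) (fun x β hβ => class6 x hβ) (by norm_num) (by omega)
      rw [norm_w8, norm_w6]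
      omega

/-- `bf` for a `2 × 2` matrix. -/
theorem bf_two (a b c : ℤ) (z w : Fin 2 → ℤ) :
    bf !![a, b; b, c] z w = a * z 0 * w 0 + b * (z 0 * w 1 + z 1 * w 0) + c * z 1 * w 1 := by
  simp [bf, dotProduct, Matrix.mulVec, Fin.sum_univ_two]
  ring

private theorem CaseA_even2 {p q : ℤ} (hp : 0 < p) (hq : 0 < q) :
    EvenPD !![2 * p, 0; 0, 2 * q] where
  symm := by
    ext i j
    fin_cases i <;> fin_cases j <;> rfl
  even := fun z => ⟨p * z 0 * z 0 + q * z 1 * z 1, by rw [bf_two]; ring⟩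
  pos := fun z hz => by
    have h0 : z 0 ≠ 0 ∨ z 1 ≠ 0 := by
      by_contra h
      rw [not_or, not_not, not_not] at h
      apply hz
      funext i
      fin_cases i
      · exact h.1
      · exact h.2
    rw [bf_two]
    rcases h0 with h | h
    · have h1 : 0 < z 0 ^ 2 := by positivity
      have h2 : 0 ≤ z 1 ^ 2 := sq_nonneg _
      nlinarith [mul_pos hp h1, mul_nonneg hq.le h2]
    · have h1 : 0 < z 1 ^ 2 := by positivity
      have h2 : 0 ≤ z 0 ^ 2 := sq_nonneg _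
      nlinarith [mul_pos hq h1, mul_nonneg hp.le h2]

private theorem CaseA_O1_aux {p q c₁ c₂ N : ℤ} (hp : 0 < p) (hq : 0 < q) {w₁ w₂ : Fin 8 → ℤ}
    (hN : bf E8 w₁ w₁ + bf E8 w₂ w₂ + 2 * q = 6 * N)
    (h1 : ∀ (x : Fin 8 → ℤ) (β : ℤ), ¬ (3 : ℤ) ∣ β →
      c₁ ≤ bf E8 ((3 : ℤ) • x - β • w₁) ((3 : ℤ) • x - β • w₁))
    (h2 : ∀ (x : Fin 8 → ℤ) (β : ℤ), ¬ (3 : ℤ) ∣ β →
      c₂ ≤ bf E8 ((3 : ℤ) • x - β • w₂) ((3 : ℤ) • x - β • w₂))
    (hc : 9 < c₁ + c₂) (hS : 18 - c₁ - c₂ < 2 * q) :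
    CuspBad (LG !![2 * p, 0; 0, 2 * q]) := by
  refine cuspBad_O (CaseA_even2 hp hq) (m := 3) (N := N) (c₁ := c₁) (c₂ := c₂) (by norm_num)
    (w₁ := w₁) (w₂ := w₂) (y := ![0, 1]) ?_ ?_ h1 h2 (by linarith) ?_ ?_
  · intro h
    have := congrFun h 1
    simp at this
  · rw [bf_two]
    simp only [Matrix.cons_val_zero, Matrix.cons_val_one]
    linarith
  · intro z β hβ
    rw [bf_two]
    have h3 : (((3 : ℤ) • z - β • ![0, 1]) : Fin 2 → ℤ) 0 = 3 * z 0 := by simp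
    have h3' : (((3 : ℤ) • z - β • ![0, 1]) : Fin 2 → ℤ) 1 = 3 * z 1 - β := by simp
    rw [h3, h3']
    have h4 := CaseA_sq (CaseA_ne (z := z 1) hβ)
    have h5 : 0 ≤ p * z 0 ^ 2 := mul_nonneg hp.le (sq_nonneg _)
    have h6 : q * 1 ≤ q * (3 * z 1 - β) ^ 2 := mul_le_mul_of_nonneg_left h4 hq.le
    nlinarith
  · intro s κ hκ hs _ hd
    refine CaseA_dvd hd hκ ?_
    rw [bf_two] at hs ⊢
    simp only [Matrix.cons_val_zero, Matrix.cons_val_one, mul_one, mul_zero, zero_mul, zero_add]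
    have h5 := CaseA_abs_le (s 1)
    have h6 : |2 * q * s 1| = 2 * q * |s 1| := by
      rw [abs_mul, abs_of_pos (by linarith : (0 : ℤ) < 2 * q)]
    have h7 : 0 ≤ p * s 0 ^ 2 := mul_nonneg hp.le (sq_nonneg _)
    have h8 : q * |s 1| ≤ q * s 1 ^ 2 := mul_le_mul_of_nonneg_left h5 hq.le
    rw [h6, ← hs]
    nlinarith

/-- Type O: `K = ⟨2p⟩ ⊕ ⟨2q⟩`, `1 ≤ p ≤ q`, `q ≥ 4`.

PROOF.  `y = ![0, 1]`, `cuspBad_O` with `m = 3` and `w₁, w₂, c₁, c₂, N` as in `cuspBad_rank1`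
according to `q mod 3`;
`(3z - βy, 3z - βy) = 2p (3 z0)² + 2q (3 z1 - β)² ≥ 2q`;
`hK'`: `|(s,y)| = |2 q s1| ≤ 2 q s1² ≤ (s,s) = 2κ < 3κ`. -/
theorem cuspBad_O1 {p q : ℤ} (hp : 1 ≤ p) (hpq : p ≤ q) (hq : 4 ≤ q) :
    CuspBad (LG !![2 * p, 0; 0, 2 * q]) := by
  have hp0 : 0 < p := by linarith
  have hq0 : 0 < q := by linarith
  have hmod : q % 3 = 0 ∨ q % 3 = 1 ∨ q % 3 = 2 := by omega
  rcases hmod with h3 | h3 | h3
  · refine CaseA_O1_aux (N := 2 + q / 3) (c₁ := 6) (c₂ := 6) (w₁ := w6) (w₂ := w6) hp0 hq0 ?_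
      (fun x β hβ => class6 x hβ) (fun x β hβ => class6 x hβ) (by norm_num) (by omega)
    rw [norm_w6]
    omega
  · refine CaseA_O1_aux (N := 3 + q / 3) (c₁ := 8) (c₂ := 8) (w₁ := w8) (w₂ := w8) hp0 hq0 ?_
      (fun x β hβ => class8 x hβ) (fun x β hβ => class8 x hβ) (by norm_num) (by omega)
    rw [norm_w8]
    omega
  · refine CaseA_O1_aux (N := 3 + q / 3) (c₁ := 8) (c₂ := 6) (w₁ := w8) (w₂ := w6) hp0 hq0 ?_
      (fun x β hβ => class8 x hβ) (fun x β hβ => class6 x hβ) (by norm_num) (by omega)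
    rw [norm_w8, norm_w6]
    omega

private theorem CaseA_abs2 {p q κ : ℤ} (hp : 0 < p) (hq : 0 < q) {s : Fin 2 → ℤ}
    (hs : bf !![2 * p, 0; 0, 2 * q] s s = 2 * κ) :
    |bf !![2 * p, 0; 0, 2 * q] s ![1, 1]| ≤ 2 * κ := by
  rw [bf_two] at hs ⊢
  simp only [Matrix.cons_val_zero, Matrix.cons_val_one, mul_one, zero_mul, add_zero]
  have h0 := CaseA_abs_le (s 0)
  have h1 := CaseA_abs_le (s 1)
  have h2 := abs_add_le (2 * p * s 0) (2 * q * s 1)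
  rw [abs_mul (2 * p), abs_mul (2 * q), abs_of_pos (by linarith : (0 : ℤ) < 2 * p),
    abs_of_pos (by linarith : (0 : ℤ) < 2 * q)] at h2
  have h3 : p * |s 0| ≤ p * s 0 ^ 2 := mul_le_mul_of_nonneg_left h0 hp.le
  have h4 : q * |s 1| ≤ q * s 1 ^ 2 := mul_le_mul_of_nonneg_left h1 hq.le
  rw [← hs]
  nlinarith

private theorem CaseA_val (p q : ℤ) (z : Fin 2 → ℤ) (β : ℤ) :
    bf !![2 * p, 0; 0, 2 * q] ((3 : ℤ) • z - β • ![1, 1]) ((3 : ℤ) • z - β • ![1, 1]) =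
      2 * p * (3 * z 0 - β) ^ 2 + 2 * q * (3 * z 1 - β) ^ 2 := by
  rw [bf_two]
  have h3 : (((3 : ℤ) • z - β • ![1, 1]) : Fin 2 → ℤ) 0 = 3 * z 0 - β := by simp
  have h3' : (((3 : ℤ) • z - β • ![1, 1]) : Fin 2 → ℤ) 1 = 3 * z 1 - β := by simp
  rw [h3, h3']
  ring

private theorem CaseA_val_ge {p q : ℤ} (hp : 0 < p) (hq : 0 < q) (z : Fin 2 → ℤ) {β : ℤ}
    (hβ : ¬ (3 : ℤ) ∣ β) : 2 * p + 2 * q ≤
      bf !![2 * p, 0; 0, 2 * q] ((3 : ℤ) • z - β • ![1, 1]) ((3 : ℤ) • z - β • ![1, 1]) := by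
  rw [CaseA_val]
  have h4 := CaseA_sq (CaseA_ne (z := z 0) hβ)
  have h5 := CaseA_sq (CaseA_ne (z := z 1) hβ)
  have h6 : p * 1 ≤ p * (3 * z 0 - β) ^ 2 := mul_le_mul_of_nonneg_left h4 hp.le
  have h7 : q * 1 ≤ q * (3 * z 1 - β) ^ 2 := mul_le_mul_of_nonneg_left h5 hq.le
  linarith

private theorem CaseA_O2_aux {p q c₁ c₂ N : ℤ} (hp : 0 < p) (hq : 0 < q) {w₁ w₂ : Fin 8 → ℤ}
    (hN : bf E8 w₁ w₁ + bf E8 w₂ w₂ + (2 * p + 2 * q) = 6 * N)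
    (h1 : ∀ (x : Fin 8 → ℤ) (β : ℤ), ¬ (3 : ℤ) ∣ β →
      c₁ ≤ bf E8 ((3 : ℤ) • x - β • w₁) ((3 : ℤ) • x - β • w₁))
    (h2 : ∀ (x : Fin 8 → ℤ) (β : ℤ), ¬ (3 : ℤ) ∣ β →
      c₂ ≤ bf E8 ((3 : ℤ) • x - β • w₂) ((3 : ℤ) • x - β • w₂))
    (hc : 9 < c₁ + c₂) (hS : 18 - c₁ - c₂ < 2 * p + 2 * q) :
    CuspBad (LG !![2 * p, 0; 0, 2 * q]) := by
  refine cuspBad_O (CaseA_even2 hp hq) (m := 3) (N := N) (c₁ := c₁) (c₂ := c₂) (by norm_num)
    (w₁ := w₁) (w₂ := w₂) (y := ![1, 1]) ?_ ?_ h1 h2 (by linarith) ?_ ?_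
  · intro h
    have := congrFun h 1
    simp at this
  · rw [bf_two]
    simp only [Matrix.cons_val_zero, Matrix.cons_val_one]
    linarith
  · intro z β hβ
    have h4 := CaseA_val_ge hp hq z hβ
    linarith
  · intro s κ hκ hs _ hd
    exact CaseA_dvd hd hκ (CaseA_abs2 hp hq hs)

/-- Type O: `K = ⟨2p⟩ ⊕ ⟨2q⟩`, `1 ≤ p ≤ q ≤ 3`, `(p,q) ≠ (1,1)`.

PROOF.  `y = ![1, 1]`, `(y,y) = 2p + 2q`.  `(3z - βy, 3z - βy) = 2p (3 z0 - β)² + 2q (3 z1 - β)² ≥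
2p + 2q`.
`(1,2)`: `cuspBad_S`, `(y,y) = 6`; equality forces `(3 z0 - β)² = (3 z1 - β)² = 1`.
`(1,3), (2,2)`: `(y,y) = 8`, `cuspBad_O`, `m = 3`, `w8, w8`, `N = 4`.  `(2,3)`: `(y,y) = 10`, `w8,
w6`, `N = 4`.
`(3,3)`: `(y,y) = 12`, `w6, w6`, `N = 4`.
`hK'`: `|(s,y)| = |2 p s0 + 2 q s1| ≤ 2 p s0² + 2 q s1² = (s,s) = 2κ < 3κ`. -/
theorem cuspBad_O2 {p q : ℤ} (hp : 1 ≤ p) (hpq : p ≤ q) (hq : q ≤ 3) (hne : ¬ (p = 1 ∧ q = 1)) :
    CuspBad (LG !![2 * p, 0; 0, 2 * q]) := by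
  have hp3 : p ≤ 3 := hpq.trans hq
  have hq1 : 1 ≤ q := hp.trans hpq
  rcases (by omega : (p = 1 ∧ q = 2) ∨ (p = 1 ∧ q = 3) ∨ (p = 2 ∧ q = 2) ∨ (p = 2 ∧ q = 3) ∨
    (p = 3 ∧ q = 3)) with ⟨rfl, rfl⟩ | ⟨rfl, rfl⟩ | ⟨rfl, rfl⟩ | ⟨rfl, rfl⟩ | ⟨rfl, rfl⟩
  · refine cuspBad_S (CaseA_even2 (by norm_num) (by norm_num)) (y := ![1, 1]) ?_ ?_ ?_ ?_
    · rw [bf_two]
      simp
    · intro z β hβ
      have h4 := CaseA_val_ge (p := 1) (q := 2) (by norm_num) (by norm_num) z hβ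
      linarith
    · intro z β h4
      rw [CaseA_val] at h4
      have h0 : (3 * z 0 - β) ^ 2 = 1 ∧ (3 * z 1 - β) ^ 2 = 1 := by
        have ha := sq_nonneg (3 * z 0 - β)
        have hb := sq_nonneg (3 * z 1 - β)
        have hb1 : (3 * z 1 - β) ^ 2 ≤ 1 := by omega
        have hb2 : -1 ≤ 3 * z 1 - β ∧ 3 * z 1 - β ≤ 1 := by
          constructor <;> nlinarith
        rcases (by omega : 3 * z 1 - β = 0 ∨ 3 * z 1 - β = 1 ∨ 3 * z 1 - β = -1) with h | h | h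
        · exfalso
          rw [h] at h4
          have h5 : (3 * z 0 - β) ^ 2 = 3 := by linarith
          have h6 : -2 < 3 * z 0 - β ∧ 3 * z 0 - β < 2 := by
            constructor <;> nlinarith
          rcases (by omega : 3 * z 0 - β = 0 ∨ 3 * z 0 - β = 1 ∨ 3 * z 0 - β = -1)
            with h7 | h7 | h7 <;> rw [h7] at h5 <;> norm_num at h5
        · rw [h] at h4 ⊢
          exact ⟨by linarith, by norm_num⟩
        · rw [h] at h4 ⊢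
          exact ⟨by linarith, by norm_num⟩
      obtain ⟨h6, h7⟩ := CaseA_pm h0.1
      obtain ⟨h8, h9⟩ := CaseA_pm h0.2
      have h3 : (((3 : ℤ) • z - β • ![1, 1]) : Fin 2 → ℤ) 0 = 3 * z 0 - β := by simp
      have h3' : (((3 : ℤ) • z - β • ![1, 1]) : Fin 2 → ℤ) 1 = 3 * z 1 - β := by simp
      constructor
      · intro hd
        funext i
        fin_cases i
        · show (((3 : ℤ) • z - β • ![1, 1]) : Fin 2 → ℤ) 0 = -1
          rw [h3, h6 hd]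
        · show (((3 : ℤ) • z - β • ![1, 1]) : Fin 2 → ℤ) 1 = -1
          rw [h3', h8 hd]
      · intro hd
        funext i
        fin_cases i
        · show (((3 : ℤ) • z - β • ![1, 1]) : Fin 2 → ℤ) 0 = 1
          rw [h3, h7 hd]
        · show (((3 : ℤ) • z - β • ![1, 1]) : Fin 2 → ℤ) 1 = 1
          rw [h3', h9 hd]
    · intro s κ hκ hs _ hd
      exact CaseA_dvd hd hκ (CaseA_abs2 (by norm_num) (by norm_num) hs)
  · exact CaseA_O2_aux (N := 4) (c₁ := 8) (c₂ := 8) (w₁ := w8) (w₂ := w8) (by norm_num)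
      (by norm_num) (by rw [norm_w8]; norm_num) (fun x β hβ => class8 x hβ)
      (fun x β hβ => class8 x hβ) (by norm_num) (by norm_num)
  · exact CaseA_O2_aux (N := 4) (c₁ := 8) (c₂ := 8) (w₁ := w8) (w₂ := w8) (by norm_num)
      (by norm_num) (by rw [norm_w8]; norm_num) (fun x β hβ => class8 x hβ)
      (fun x β hβ => class8 x hβ) (by norm_num) (by norm_num)
  · exact CaseA_O2_aux (N := 4) (c₁ := 8) (c₂ := 6) (w₁ := w8) (w₂ := w6) (by norm_num)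
      (by norm_num) (by rw [norm_w8, norm_w6]; norm_num) (fun x β hβ => class8 x hβ)
      (fun x β hβ => class6 x hβ) (by norm_num) (by norm_num)
  · exact CaseA_O2_aux (N := 4) (c₁ := 6) (c₂ := 6) (w₁ := w6) (w₂ := w6) (by norm_num)
      (by norm_num) (by rw [norm_w6]; norm_num) (fun x β hβ => class6 x hβ)
      (fun x β hβ => class6 x hβ) (by norm_num) (by norm_num)

end MP_dcc566_gt
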