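import Mathlib
import Pool.Agent.Lib.MP_dcc566_gt.CaseA

namespace MP_dcc566_gt

private theorem CaseB_int (u : ℤ) : 0 ≤ u * (u - 1) := by
  rcases le_or_gt u 0 with h | h
  · nlinarith
  · nlinarith

private theorem CaseB_key {h b s0 s1 : ℤ} (hb : 0 < b) (hb2 : b < 2 * h) (hs : s1 ≠ 0) :
    0 < 2 * h * (s0 * (s0 - 1)) + b * (s1 * (2 * s0 - 1)) + 2 * h * s1 ^ 2 := by
  have hh : 0 < 2 * h := by linarith
  have h1 : 0 ≤ 2 * h * (s0 * (s0 - 1)) := mul_nonneg hh.le (CaseB_int s0)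
  have h2 : 0 < s1 ^ 2 := by positivity
  rcases le_or_gt 0 (s1 * (2 * s0 - 1)) with h3 | h3
  · have h4 : 0 ≤ b * (s1 * (2 * s0 - 1)) := mul_nonneg hb.le h3
    have h5 : 0 < 2 * h * s1 ^ 2 := mul_pos hh h2
    linarith
  · have h4 : 2 * h * (s1 * (2 * s0 - 1)) < b * (s1 * (2 * s0 - 1)) :=
      mul_lt_mul_of_neg_right hb2 h3
    have h5 : 0 ≤ 2 * h * ((s0 + s1) * (s0 + s1 - 1)) := mul_nonneg hh.le (CaseB_int _)
    have h6 : 2 * h * ((s0 + s1) * (s0 + s1 - 1)) = 2 * h * (s0 * (s0 - 1)) +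
        2 * h * (s1 * (2 * s0 - 1)) + 2 * h * s1 ^ 2 := by ring
    linarith

private theorem CaseB_pos {h b x0 x1 : ℤ} (hb : 0 < b) (hb2 : b < 2 * h)
    (hx : x0 ≠ 0 ∨ x1 ≠ 0) : 0 < 2 * h * x0 * x0 + b * (x0 * x1 + x1 * x0) + 2 * h * x1 * x1 := by
  have h1 : 2 * h * x0 * x0 + b * (x0 * x1 + x1 * x0) + 2 * h * x1 * x1 =
      (2 * h - b) * (x0 ^ 2 + x1 ^ 2) + b * (x0 + x1) ^ 2 := by ring
  have h2 : 0 < x0 ^ 2 + x1 ^ 2 := by
    rcases hx with h | h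
    · have : 0 < x0 ^ 2 := by positivity
      have := sq_nonneg x1
      linarith
    · have : 0 < x1 ^ 2 := by positivity
      have := sq_nonneg x0
      linarith
  have h3 : 0 < (2 * h - b) * (x0 ^ 2 + x1 ^ 2) := mul_pos (by linarith) h2
  have h4 : 0 ≤ b * (x0 + x1) ^ 2 := mul_nonneg hb.le (sq_nonneg _)
  linarith

private theorem CaseB_even {h b : ℤ} (hb : 0 < b) (hb2 : b < 2 * h) :
    EvenPD !![2 * h, b; b, 2 * h] := by
  refine ⟨?_, fun z => ?_, fun z hz => ?_⟩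
  · ext i j
    fin_cases i <;> fin_cases j <;> rfl
  · rw [bf_two]
    exact ⟨h * z 0 * z 0 + b * (z 0 * z 1) + h * z 1 * z 1, by ring⟩
  · rw [bf_two]
    refine CaseB_pos hb hb2 ?_
    by_contra hc
    push Not at hc
    apply hz
    funext i
    fin_cases i
    · exact hc.1
    · exact hc.2

/-- Type G: `K = [2h, b; b, 2h]`, `h ≥ 2`, `0 < b < 2h`, `b ≠ h`.

PROOF.  `y = ![1, 0]`, `(y,y) = 2h`, `cuspBad_O` with `m = 2`.
`h` even: `w₁ = w₂ = w4`, `c₁ = c₂ = 4` (`class4_two`), `4N = 8 + 2h`, `hS`: `0 < (2z - βy, 2z -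
βy)` as
`2 z0 - β` is odd.
`h` odd: `w₁ = w4`, `w₂ = w2`, `c₁ = 4`, `c₂ = 2`, `4N = 6 + 2h`, `hS`: for `x0 = 2 z0 - β` odd,
`x1 = 2 z1` even:
`2h x0² + 2b x0 x1 + 2h x1² = (2h - b)(x0² + x1²) + b (x0 + x1)² ≥ (2h - b) + b = 2h > 2`.
`hK'`: let `Q = (s,s) = 2κ`, `A = (s,y) = 2h s0 + b s1`, `2κ ∣ A`, and suppose `A ≠ 0`, WLOG `A >
0` (`s → -s`).
Then `Q ≤ A`, where `Q - A = 2h s0 (s0 - 1) + b s1 (2 s0 - 1) + 2h s1²`.
If `s1 ≠ 0`: if `s1 (2 s0 - 1) ≥ 0`, then `Q - A ≥ 2h s1² > 0` (`s0(s0-1) ≥ 0`); otherwise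
`b s1 (2 s0 - 1) > 2h s1 (2 s0 - 1)`, so `Q - A > 2h (s0² - s0 + s1 (2 s0 - 1) + s1²)
= 2h ((2 s0 + 2 s1 - 1)² - 1)/4 ≥ 0`.  Contradiction.
If `s1 = 0`: `2h s0 (s0 - 1) ≤ 0`, so `s0 ∈ {0, 1}`, `s0 = 1` as `A ≠ 0`; `κ = h` divides `(s,
![0,1]) = b`,
impossible for `0 < b < 2h`, `b ≠ h`. -/
theorem cuspBad_G1 {h b : ℤ} (hh : 2 ≤ h) (hb : 0 < b) (hb2 : b < 2 * h) (hbh : b ≠ h) :
    CuspBad (LG !![2 * h, b; b, 2 * h]) := by
  have hy : (![1, 0] : Fin 2 → ℤ) ≠ 0 := fun h0 => by simpa using congrFun h0 0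
  have hyy : bf !![2 * h, b; b, 2 * h] ![1, 0] ![1, 0] = 2 * h := by
    rw [bf_two]
    simp
  have hc0 : ∀ (z : Fin 2 → ℤ) (β : ℤ), ((2 : ℤ) • z - β • (![1, 0] : Fin 2 → ℤ)) 0 =
      2 * z 0 - β := fun z β => by simp
  have hc1 : ∀ (z : Fin 2 → ℤ) (β : ℤ), ((2 : ℤ) • z - β • (![1, 0] : Fin 2 → ℤ)) 1 =
      2 * z 1 := fun z β => by simp
  have hK' : ∀ (s : Fin 2 → ℤ) (κ : ℤ), 0 < κ → bf !![2 * h, b; b, 2 * h] s s = 2 * κ →
      (∀ x, κ ∣ bf !![2 * h, b; b, 2 * h] s x) →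
      2 * κ ∣ bf !![2 * h, b; b, 2 * h] s ![1, 0] →
      bf !![2 * h, b; b, 2 * h] s ![1, 0] = 0 := by
    intro s κ hκ hss hdiv hsy
    have h01 := hdiv ![0, 1]
    rw [bf_two] at hss hsy h01 ⊢
    simp only [Matrix.cons_val_zero, Matrix.cons_val_one, mul_one, mul_zero, add_zero,
      zero_add] at hsy h01 ⊢
    by_contra hA
    have hfin : ∀ t : ℤ, t * t = 1 → s 0 = t → s 1 = 0 → False := by
      intro t ht h0 h1
      rw [h0, h1] at hss h01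
      have e0 : 2 * h * t * t = 2 * h := by rw [mul_assoc, ht, mul_one]
      have e1 : κ = h := by linarith
      rw [e1, mul_zero, add_zero] at h01
      have h2 : h ∣ b := by
        have h3 := Dvd.dvd.mul_right h01 t
        have h4 : b * t * t = b := by rw [mul_assoc, ht, mul_one]
        rwa [h4] at h3
      obtain ⟨q, hq⟩ := h2
      have hq0 : 0 < q := by
        by_contra hq0
        have : h * q ≤ 0 := mul_nonpos_of_nonneg_of_nonpos (by linarith) (by linarith)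
        linarith
      have hq2 : q < 2 := by
        by_contra hq2
        have : h * 2 ≤ h * q := mul_le_mul_of_nonneg_left (by linarith) (by linarith)
        linarith
      have hq1 : q = 1 := by omega
      rw [hq1, mul_one] at hq
      exact hbh hq
    have hh2 : 0 < 2 * h := by linarith
    rcases lt_or_gt_of_ne hA with hneg | hpos
    · have h1 : 2 * κ ≤ -(2 * h * s 0 + b * s 1) :=
        Int.le_of_dvd (by linarith) ((dvd_neg).2 hsy)
      by_cases hs1 : s 1 = 0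
      · rw [hs1] at h1 hss hneg
        have h2 : 2 * h * (s 0 * (s 0 + 1)) ≤ 0 := by linarith
        have h3 : 0 ≤ s 0 * (s 0 + 1) := by
          have := CaseB_int (-s 0)
          linarith
        have h4 : s 0 * (s 0 + 1) = 0 := by
          rcases h3.eq_or_lt with h4 | h4
          · exact h4.symm
          · exact absurd (mul_pos hh2 h4) (by linarith)
        rcases mul_eq_zero.1 h4 with h5 | h5
        · rw [h5] at hneg
          linarith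
        · exact hfin (-1) (by norm_num) (by linarith) hs1
      · have h2 := CaseB_key (s0 := -s 0) hb hb2 (neg_ne_zero.2 hs1)
        linarith
    · have h1 : 2 * κ ≤ 2 * h * s 0 + b * s 1 := Int.le_of_dvd hpos hsy
      by_cases hs1 : s 1 = 0
      · rw [hs1] at h1 hss hpos
        have h2 : 2 * h * (s 0 * (s 0 - 1)) ≤ 0 := by linarith
        have h4 : s 0 * (s 0 - 1) = 0 := by
          rcases (CaseB_int (s 0)).eq_or_lt with h4 | h4
          · exact h4.symm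
          · exact absurd (mul_pos hh2 h4) (by linarith)
        rcases mul_eq_zero.1 h4 with h5 | h5
        · rw [h5] at hpos
          linarith
        · exact hfin 1 (by norm_num) (by linarith) hs1
      · have h2 := CaseB_key (s0 := s 0) hb hb2 hs1
        linarith
  rcases Int.even_or_odd' h with ⟨g, hg | hg⟩
  · refine cuspBad_O (CaseB_even hb hb2) (m := 2) (N := 2 + g) (c₁ := 4) (c₂ := 4) two_pos
      (w₁ := w4) (w₂ := w4) hy ?_ (fun x β hβ => class4_two x hβ) (fun x β hβ => class4_two x hβ)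
      (by norm_num) ?_ hK'
    · rw [hyy, norm_w4, hg]
      ring
    · intro z β hβ
      rw [bf_two, hc0, hc1]
      have h1 := CaseB_pos (x0 := 2 * z 0 - β) (x1 := 2 * z 1) hb hb2 (Or.inl (by omega))
      linarith
  · refine cuspBad_O (CaseB_even hb hb2) (m := 2) (N := 2 + g) (c₁ := 4) (c₂ := 2) two_pos
      (w₁ := w4) (w₂ := w2) hy ?_ (fun x β hβ => class4_two x hβ) (fun x β hβ => class2_two x hβ)
      (by norm_num) ?_ hK'
    · rw [hyy, norm_w4, norm_w2, hg]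
      ring
    · intro z β hβ
      rw [bf_two, hc0, hc1]
      obtain ⟨x0, hx0⟩ : ∃ x0, x0 = 2 * z 0 - β := ⟨_, rfl⟩
      obtain ⟨x1, hx1⟩ : ∃ x1, x1 = 2 * z 1 := ⟨_, rfl⟩
      rw [← hx0, ← hx1]
      have h0 : x0 ≠ 0 := by omega
      have h01 : x0 + x1 ≠ 0 := by omega
      have e0 : 1 ≤ x0 ^ 2 := by
        have : 0 < x0 ^ 2 := by positivity
        linarith
      have e1 : 1 ≤ (x0 + x1) ^ 2 := by
        have : 0 < (x0 + x1) ^ 2 := by positivity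
        linarith
      have e2 : (2 * h - b) * 1 ≤ (2 * h - b) * (x0 ^ 2 + x1 ^ 2) :=
        mul_le_mul_of_nonneg_left (by have := sq_nonneg x1; linarith) (by linarith)
      have e3 : b * 1 ≤ b * (x0 + x1) ^ 2 := mul_le_mul_of_nonneg_left e1 hb.le
      have e4 : 2 * h * x0 * x0 + b * (x0 * x1 + x1 * x0) + 2 * h * x1 * x1 =
        (2 * h - b) * (x0 ^ 2 + x1 ^ 2) + b * (x0 + x1) ^ 2 := by ring
      rw [e4]
      linarith

/-- Hexagonal type `K = [2h, h; h, 2h]`, `h ≥ 2`.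

PROOF.  `y = ![1, 1]`, `(y,y) = 6h`, `cuspBad_H` with `N = h + 2`.  `hS`: `x0 = 3 z0 - β`, `x1 = 3
z1 - β`,
`(S,S) = 2h (x0² + x0 x1 + x1²)` and `x0² + x0 x1 + x1² = (x0 - x1)² + 3 x0 x1` is divisible by
`3` and positive,
so `(S,S) ≥ 6h ≥ 12`. -/
theorem cuspBad_G2 {h : ℤ} (hh : 2 ≤ h) : CuspBad (LG !![2 * h, h; h, 2 * h]) := by
  have hyy : bf !![2 * h, h; h, 2 * h] ![1, 1] ![1, 1] = 6 * h := by
    rw [bf_two]
    simp
    ring
  refine cuspBad_H (CaseB_even (by linarith) (by linarith)) (N := h + 2) (y := ![1, 1]) ?_ ?_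
  · rw [hyy]
    ring
  · intro z β hβ
    rw [bf_two]
    have hc0 : ((3 : ℤ) • z - β • (![1, 1] : Fin 2 → ℤ)) 0 = 3 * z 0 - β := by simp
    have hc1 : ((3 : ℤ) • z - β • (![1, 1] : Fin 2 → ℤ)) 1 = 3 * z 1 - β := by simp
    rw [hc0, hc1]
    obtain ⟨x0, hx0⟩ : ∃ x0, x0 = 3 * z 0 - β := ⟨_, rfl⟩
    obtain ⟨x1, hx1⟩ : ∃ x1, x1 = 3 * z 1 - β := ⟨_, rfl⟩
    have e1 : x0 ^ 2 + x0 * x1 + x1 ^ 2 = 3 * (3 * (z 0 - z 1) ^ 2 + x0 * x1) := by
      rw [hx0, hx1]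
      ring
    rw [← hx0, ← hx1]
    have h0 : x0 ≠ 0 := by omega
    have e2 : 0 < x0 ^ 2 + x0 * x1 + x1 ^ 2 := by
      have h1 : 0 < x0 ^ 2 := by positivity
      nlinarith [sq_nonneg (x0 + 2 * x1)]
    have e3 : 3 ≤ x0 ^ 2 + x0 * x1 + x1 ^ 2 := by omega
    have e4 : 2 * h * x0 * x0 + h * (x0 * x1 + x1 * x0) + 2 * h * x1 * x1 =
      2 * h * (x0 ^ 2 + x0 * x1 + x1 ^ 2) := by ring
    rw [e4]
    have e5 : 2 * h * 3 ≤ 2 * h * (x0 ^ 2 + x0 * x1 + x1 ^ 2) :=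
      mul_le_mul_of_nonneg_left e3 (by linarith)
    linarith

end MP_dcc566_gt
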