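import Mathlib

/-!
# Reflection groups: abstract setting

`V` is a real vector space with a symmetric bilinear form `B`, `Φ` a reduced set of roots and `Ω`
a set of generic points.  Basic lemmas about reflections `sr` and words `act`.
-/

namespace MP_dcc566_gt

variable {V : Type} [AddCommGroup V] [Module ℝ V]

/-- The reflection in the vector `r`. -/
noncomputable def sr (B : V →ₗ[ℝ] V →ₗ[ℝ] ℝ) (r x : V) : V := x - (2 * B r x / B r r) • r

/-- The word `s_{r₁} (s_{r₂} (⋯ (s_{r_k} x)))` for `l = [r₁, …, r_k]`. -/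
noncomputable def act (B : V →ₗ[ℝ] V →ₗ[ℝ] ℝ) (l : List V) (x : V) : V :=
  l.foldr (fun r y => sr B r y) x

/-- The roots separating `x` from `y`. -/
def Dset (B : V →ₗ[ℝ] V →ₗ[ℝ] ℝ) (Φ : Set V) (x y : V) : Set V :=
  {r | r ∈ Φ ∧ 0 < B r x ∧ B r y < 0}

/-- A reduced root system `Φ` together with a stable set `Ω` of generic points. -/
structure RD (B : V →ₗ[ℝ] V →ₗ[ℝ] ℝ) (Φ Ω : Set V) : Prop where
  symm : ∀ x y, B x y = B y x
  pos : ∀ r ∈ Φ, 0 < B r r
  neg : ∀ r ∈ Φ, -r ∈ Φ
  refl : ∀ r ∈ Φ, ∀ r' ∈ Φ, sr B r r' ∈ Φ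
  red : ∀ r ∈ Φ, ∀ r' ∈ Φ, ∀ c : ℝ, 0 < c → r' = c • r → r' = r
  gen : ∀ x ∈ Ω, ∀ r ∈ Φ, B r x ≠ 0
  stab : ∀ x ∈ Ω, ∀ r ∈ Φ, sr B r x ∈ Ω
  fin : ∀ x ∈ Ω, ∀ y ∈ Ω, (Dset B Φ x y).Finite
  seg : ∀ x ∈ Ω, ∀ y ∈ Ω, ∀ c : ℝ, 0 < c → c < 1 →
    ∀ v, B v ((1 - c) • x + c • y) = 0 → v ≠ 0 → 0 < B v v

variable {B : V →ₗ[ℝ] V →ₗ[ℝ] ℝ} {Φ Ω : Set V}

theorem sr_add (r x y : V) : sr B r (x + y) = sr B r x + sr B r y := by
  simp only [sr, map_add]
  rw [show 2 * (B r x + B r y) / B r r = 2 * B r x / B r r + 2 * B r y / B r r by ring, add_smul]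
  abel

theorem sr_smul (r : V) (c : ℝ) (x : V) : sr B r (c • x) = c • sr B r x := by
  simp only [sr, map_smul, smul_eq_mul, smul_sub, smul_smul]
  congr 2
  ring

theorem sr_neg_arg (r x : V) : sr B r (-x) = -sr B r x := by
  have := sr_smul (B := B) r (-1) x
  simpa using this

theorem sr_neg (r x : V) : sr B (-r) x = sr B r x := by
  simp only [sr, map_neg, LinearMap.neg_apply, neg_neg, smul_neg]
  rw [show 2 * -(B r) x / (B r) r = -(2 * B r x / B r r) by ring, neg_smul, sub_neg_eq_add,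
    sub_eq_add_neg]

theorem sr_self {r : V} (hr : B r r ≠ 0) : sr B r r = -r := by
  simp only [sr]
  rw [mul_div_assoc, div_self hr, mul_one, two_smul]
  abel

theorem B_sr_left (hs : ∀ x y, B x y = B y x) (r x y : V) : B (sr B r x) y = B x (sr B r y) := by
  simp only [sr, map_sub, map_smul, LinearMap.sub_apply, LinearMap.smul_apply, smul_eq_mul]
  rw [hs x r]
  ring

theorem sr_sr {r : V} (hr : B r r ≠ 0) (x : V) : sr B r (sr B r x) = x := by
  simp only [sr, map_sub, map_smul, smul_eq_mul]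
  rw [show 2 * ((B r) x - 2 * (B r) x / (B r) r * (B r) r) / (B r) r = -(2 * B r x / B r r) by
    field_simp; ring]
  rw [neg_smul]
  abel

theorem B_sr_sr (hs : ∀ x y, B x y = B y x) {r : V} (hr : B r r ≠ 0) (x y : V) :
    B (sr B r x) (sr B r y) = B x y := by
  rw [B_sr_left hs, sr_sr hr]

/-- `s_{s_r t} = s_r s_t s_r`. -/
theorem sr_conj (hs : ∀ x y, B x y = B y x) {r : V} (hr : B r r ≠ 0) (t x : V) :
    sr B (sr B r t) x = sr B r (sr B t (sr B r x)) := by
  have h1 : sr B (sr B r t) x = x - (2 * B (sr B r t) x / B (sr B r t) (sr B r t)) • sr B r t := rfl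
  have h2 : sr B t (sr B r x) = sr B r x - (2 * B t (sr B r x) / B t t) • t := rfl
  rw [h1, h2, B_sr_sr hs hr, B_sr_left hs, sub_eq_add_neg (sr B r x), sr_add, sr_sr hr,
    sr_neg_arg, sr_smul, ← sub_eq_add_neg]

@[simp] theorem act_nil (x : V) : act B [] x = x := rfl

@[simp] theorem act_cons (r : V) (l : List V) (x : V) :
    act B (r :: l) x = sr B r (act B l x) := rfl

theorem act_append (l l' : List V) (x : V) : act B (l ++ l') x = act B l (act B l' x) := by
  induction l with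
  | nil => rfl
  | cons r l ih => simp [ih]

theorem act_add (l : List V) (x y : V) : act B l (x + y) = act B l x + act B l y := by
  induction l with
  | nil => rfl
  | cons r l ih => simp [ih, sr_add]

theorem act_smul (l : List V) (c : ℝ) (x : V) : act B l (c • x) = c • act B l x := by
  induction l with
  | nil => rfl
  | cons r l ih => simp [ih, sr_smul]

theorem act_mem (h : RD B Φ Ω) {l : List V} (hl : ∀ r ∈ l, r ∈ Φ) {x : V} (hx : x ∈ Ω) :
    act B l x ∈ Ω := by
  induction l with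
  | nil => exact hx
  | cons r l ih =>
    rw [act_cons]
    exact h.stab _ (ih fun r' hr' => hl r' (List.mem_cons_of_mem _ hr')) r
      (hl r (List.mem_cons_self ..))

theorem act_mem_root (h : RD B Φ Ω) {l : List V} (hl : ∀ r ∈ l, r ∈ Φ) {x : V} (hx : x ∈ Φ) :
    act B l x ∈ Φ := by
  induction l with
  | nil => exact hx
  | cons r l ih =>
    rw [act_cons]
    exact h.refl r (hl r (List.mem_cons_self ..)) _
      (ih fun r' hr' => hl r' (List.mem_cons_of_mem _ hr'))

theorem act_reverse_act (h : RD B Φ Ω) {l : List V} (hl : ∀ r ∈ l, r ∈ Φ) (x : V) :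
    act B l.reverse (act B l x) = x := by
  induction l generalizing x with
  | nil => rfl
  | cons r l ih =>
    rw [List.reverse_cons, act_append, act_cons, act_cons, act_nil,
      sr_sr (h.pos r (hl r (List.mem_cons_self ..))).ne']
    exact ih (fun r' hr' => hl r' (List.mem_cons_of_mem _ hr')) x

theorem B_act_left (h : RD B Φ Ω) {l : List V} (x y : V) :
    B (act B l x) y = B x (act B l.reverse y) := by
  induction l generalizing x y with
  | nil => rfl
  | cons r l ih =>
    rw [act_cons, B_sr_left h.symm, ih, List.reverse_cons, act_append]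
    rfl

end MP_dcc566_gt
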