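import Mathlib
import Pool.Agent.Lib.MP_dcc566_gt.Chamber0

namespace MP_dcc566_gt

variable {V : Type} [AddCommGroup V] [Module ℝ V] {B : V →ₗ[ℝ] V →ₗ[ℝ] ℝ} {Φ Ω : Set V}

/-- ADJACENT WALL LEMMA.  If some root separates `x` from `y`, then some separating root `r` is
a wall of `x`: `D(x, s_r x) = {r}`.

PROOF.  For `r ∈ D(x,y)` put `τ r = B r x / (B r x - B r y) ∈ (0,1)`; then
`B r ((1-τ)x + τ y) = 0`.  `D(x,y)` is finite (`h.fin`).  Choose `r ∈ D(x,y)` minimising `τ`, and
among the minimisers of `τ` one minimising `B r x / √(B r r)`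
(`Set.Finite.exists_minimal_wrt`/`exists_min_image` twice).  Claim: `D(x, s_r x) = {r}`.
* `r ∈ D(x, s_r x)`: `B r (s_r x) = - B r x < 0` (`B_sr_left`, `sr_self`).
* Let `r' ∈ D(x, s_r x)`.  `B r' (s_r x) = B r' x - (2 B r x / B r r) B r' r < 0 < B r' x`, so
  `B r r' > 0`; put `c = 2 B r r' / B r r > 0`, `r'' = -s_r r' = -r' + c r ∈ Φ`, so `r' + r'' = c
r`,
  and `B r'' x = - B r' (s_r x) > 0`, `B r'' r'' = B r' r'`.
  Let `m = (1-τ)x + τ y`, `τ = τ r`.  For each `ρ ∈ {r', r''}`: `B ρ m ≥ 0`, because if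
  `B ρ y ≥ 0` this is clear (`B ρ m = (1-τ) B ρ x + τ B ρ y`), and if `B ρ y < 0` then
  `ρ ∈ D(x,y)`, so `τ ρ ≥ τ`, which is `B ρ m ≥ 0` after clearing denominators.
  As `B r' m + B r'' m = c B r m = 0`, both are `0`; then (as `B ρ x > 0`, `0 < τ`)
  `B ρ y < 0` and `τ ρ = τ`, so both are minimisers of `τ` in `D(x,y)`, hence
  `B ρ x /√(B ρ ρ) ≥ B r x/√(B r r)`.
  Adding: `c B r x = B r' x + B r'' x ≥ 2 √(B r' r') B r x/√(B r r)`, so
  `B r r' ≥ √(B r r) √(B r' r')`.
  Put `v = √(B r' r') r - √(B r r) r'`: `B v m = 0` and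
  `B v v = 2 (B r r)(B r' r') - 2 √(B r r)√(B r' r') B r r' ≤ 0`, so `v = 0` by `h.seg`
  (otherwise `B v v > 0`).  So `r' = (√(B r' r')/√(B r r)) r` and `r' = r` by `h.red`. -/
theorem exists_wall (h : RD B Φ Ω) {x y : V} (hx : x ∈ Ω) (hy : y ∈ Ω)
    (hne : (Dset B Φ x y).Nonempty) :
    ∃ r ∈ Dset B Φ x y, Dset B Φ x (sr B r x) = {r} := by
  classical
  set τ : V → ℝ := fun ρ => B ρ x / (B ρ x - B ρ y) with hτdef
  set μ : V → ℝ := fun ρ => B ρ x / √(B ρ ρ) with hμdef
  obtain ⟨r, hrD, hmin'⟩ := Set.exists_min_image (Dset B Φ x y)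
    (fun ρ => (toLex (τ ρ, μ ρ) : ℝ ×ₗ ℝ)) (h.fin x hx y hy) hne
  have hmin : ∀ ρ ∈ Dset B Φ x y, τ r < τ ρ ∨ (τ r = τ ρ ∧ μ r ≤ μ ρ) := by
    intro ρ hρ
    have := hmin' ρ hρ
    rw [Prod.Lex.toLex_le_toLex] at this
    exact this
  obtain ⟨hrΦ, hrx, hry⟩ := hrD
  have hrr : 0 < B r r := h.pos r hrΦ
  have hden : 0 < B r x - B r y := by linarith
  have hτ0 : 0 < τ r := div_pos hrx hden
  have hτ1 : τ r < 1 := by
    rw [hτdef]
    simp only
    rw [div_lt_one hden]
    linarith
  have hτr : τ r * (B r x - B r y) = B r x := by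
    rw [hτdef]
    exact div_mul_cancel₀ _ hden.ne'
  set m : V := (1 - τ r) • x + τ r • y with hmdef
  have hBm : ∀ ρ, B ρ m = (1 - τ r) * B ρ x + τ r * B ρ y := by
    intro ρ
    rw [hmdef]
    simp only [map_add, map_smul, smul_eq_mul]
  have hrm : B r m = 0 := by
    rw [hBm]
    linarith
  -- the two key facts on roots positive at `x`
  have key1 : ∀ ρ ∈ Φ, 0 < B ρ x → 0 ≤ B ρ m := by
    intro ρ hρ hρx
    rw [hBm]
    rcases le_or_gt 0 (B ρ y) with hy0 | hy0
    · have h1 : 0 ≤ (1 - τ r) * B ρ x := mul_nonneg (by linarith) hρx.le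
      have h2 : 0 ≤ τ r * B ρ y := mul_nonneg hτ0.le hy0
      linarith
    · have hd : 0 < B ρ x - B ρ y := by linarith
      have hle : τ r ≤ τ ρ := by
        rcases hmin ρ ⟨hρ, hρx, hy0⟩ with h1 | h1
        · exact h1.le
        · exact h1.1.le
      have hle2 : τ r * (B ρ x - B ρ y) ≤ B ρ x := by
        have h1 := mul_le_mul_of_nonneg_right hle hd.le
        have h2 : τ ρ * (B ρ x - B ρ y) = B ρ x := div_mul_cancel₀ _ hd.ne'
        rwa [h2] at h1
      linarith
  have key2 : ∀ ρ ∈ Φ, 0 < B ρ x → B ρ m = 0 → √(B ρ ρ) * μ r ≤ B ρ x := by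
    intro ρ hρ hρx hρm
    rw [hBm] at hρm
    have h1 : 0 < (1 - τ r) * B ρ x := mul_pos (by linarith) hρx
    have h2 : τ r * B ρ y < 0 := by linarith
    have hy0 : B ρ y < 0 := by
      by_contra hc
      have := mul_nonneg hτ0.le (not_lt.mp hc)
      linarith
    have hd : 0 < B ρ x - B ρ y := by linarith
    have hτρ : τ ρ = τ r := by
      rw [hτdef]
      simp only
      rw [div_eq_iff hd.ne']
      have : (B r x / (B r x - B r y)) = τ r := rfl
      rw [this]
      linarith
    have hμ : μ r ≤ μ ρ := by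
      rcases hmin ρ ⟨hρ, hρx, hy0⟩ with h3 | h3
      · rw [hτρ] at h3
        exact absurd h3 (lt_irrefl _)
      · exact h3.2
    have hs : 0 < √(B ρ ρ) := Real.sqrt_pos.mpr (h.pos ρ hρ)
    have h4 := mul_le_mul_of_nonneg_left hμ hs.le
    have h5 : √(B ρ ρ) * μ ρ = B ρ x := by
      rw [hμdef]
      simp only
      field_simp
    rwa [h5] at h4
  refine ⟨r, ⟨hrΦ, hrx, hry⟩, ?_⟩
  ext r'
  constructor
  · rintro ⟨hr'Φ, hr'x, hr's⟩
    rw [Set.mem_singleton_iff]
    have hr'r' : 0 < B r' r' := h.pos r' hr'Φ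
    have hval : B r' (sr B r x) = B r' x - 2 * B r x / B r r * B r r' := by
      simp only [sr, map_sub, map_smul, smul_eq_mul]
      rw [h.symm r' r]
    have hp : 0 < B r r' := by
      by_contra hc
      have h1 : 0 < 2 * B r x / B r r := div_pos (by linarith) hrr
      have h2 : 2 * B r x / B r r * B r r' ≤ 0 :=
        mul_nonpos_of_nonneg_of_nonpos h1.le (not_lt.mp hc)
      rw [hval] at hr's
      linarith
    set r'' : V := -(sr B r r') with hr''def
    have hr''Φ : r'' ∈ Φ := h.neg _ (h.refl r hrΦ r' hr'Φ)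
    have hr''v : ∀ z, B r'' z = 2 * B r r' / B r r * B r z - B r' z := by
      intro z
      rw [hr''def]
      simp only [sr, map_neg, map_sub, map_smul, LinearMap.neg_apply, LinearMap.sub_apply,
        LinearMap.smul_apply, smul_eq_mul]
      ring
    have hr''x : 0 < B r'' x := by
      rw [hr''def, map_neg, LinearMap.neg_apply, B_sr_left h.symm]
      linarith
    have hr''r'' : B r'' r'' = B r' r' := by
      rw [hr''def]
      simp only [map_neg, LinearMap.neg_apply, neg_neg]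
      exact B_sr_sr h.symm hrr.ne' r' r'
    have hsum : B r' m + B r'' m = 0 := by
      rw [hr''v, hrm]
      ring
    have hm1 := key1 r' hr'Φ hr'x
    have hm2 := key1 r'' hr''Φ hr''x
    have hm1' : B r' m = 0 := by linarith
    have hm2' : B r'' m = 0 := by linarith
    have hk1 := key2 r' hr'Φ hr'x hm1'
    have hk2 := key2 r'' hr''Φ hr''x hm2'
    rw [hr''r''] at hk2
    have hs : 0 < √(B r r) := Real.sqrt_pos.mpr hrr
    have hs' : 0 < √(B r' r') := Real.sqrt_pos.mpr hr'r'
    have hss : √(B r r) * √(B r r) = B r r := Real.mul_self_sqrt hrr.le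
    have hss' : √(B r' r') * √(B r' r') = B r' r' := Real.mul_self_sqrt hr'r'.le
    have hμr : √(B r r) * μ r = B r x := by
      rw [hμdef]
      simp only
      field_simp
    have hadd : 2 * (√(B r' r') * μ r) ≤ 2 * B r r' / B r r * B r x := by
      have h1 := hr''v x
      linarith
    have hμ0 : 0 < μ r := div_pos hrx hs
    have hpge : √(B r r) * √(B r' r') ≤ B r r' := by
      have h1 : 2 * B r r' / B r r * B r x = 2 * (B r r' / √(B r r) * μ r) := by
        rw [← hμr]
        nth_rewrite 1 [← hss]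
        field_simp
      rw [h1] at hadd
      have h2 : √(B r' r') * μ r ≤ B r r' / √(B r r) * μ r := by linarith
      have h3 : √(B r' r') ≤ B r r' / √(B r r) := le_of_mul_le_mul_right h2 hμ0
      rw [le_div_iff₀ hs] at h3
      linarith
    have hv0 : √(B r' r') • r - √(B r r) • r' = 0 := by
      by_contra hv
      have h1 : B (√(B r' r') • r - √(B r r) • r') m = 0 := by
        simp only [map_sub, map_smul, LinearMap.sub_apply, LinearMap.smul_apply, smul_eq_mul]
        rw [hrm, hm1']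
        ring
      have h2 := h.seg x hx y hy (τ r) hτ0 hτ1 _ h1 hv
      have h3 : B (√(B r' r') • r - √(B r r) • r') (√(B r' r') • r - √(B r r) • r') =
          (√(B r' r') * √(B r' r')) * B r r - 2 * (√(B r r) * √(B r' r')) * B r r' +
            (√(B r r) * √(B r r)) * B r' r' := by
        simp only [map_sub, map_smul, LinearMap.sub_apply, LinearMap.smul_apply, smul_eq_mul]
        rw [h.symm r' r]
        ring
      rw [h3, hss, hss'] at h2
      have h4 : (√(B r r) * √(B r' r')) * (√(B r r) * √(B r' r')) ≤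
          (√(B r r) * √(B r' r')) * B r r' :=
        mul_le_mul_of_nonneg_left hpge (mul_pos hs hs').le
      have h5 : (√(B r r) * √(B r' r')) * (√(B r r) * √(B r' r')) = B r r * B r' r' := by
        rw [← hss, ← hss']
        simp only [Real.sqrt_mul_self hs.le, Real.sqrt_mul_self hs'.le]
        ring
      linarith
    have hr'eq : r' = (√(B r' r') / √(B r r)) • r := by
      rw [sub_eq_zero] at hv0
      rw [div_eq_inv_mul, mul_smul, hv0, smul_smul, inv_mul_cancel₀ hs.ne', one_smul]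
    exact h.red r hrΦ r' hr'Φ _ (div_pos hs' hs) hr'eq
  · intro hr'
    rw [Set.mem_singleton_iff] at hr'
    subst hr'
    refine ⟨hrΦ, hrx, ?_⟩
    rw [← B_sr_left h.symm, sr_self hrr.ne', map_neg, LinearMap.neg_apply]
    linarith

end MP_dcc566_gt
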