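import Mathlib
import Pool.Agent.Lib.MP_dcc566_gt.Chamber0

namespace MP_dcc566_gt

variable {V : Type} [AddCommGroup V] [Module ℝ V] {B : V →ₗ[ℝ] V →ₗ[ℝ] ℝ} {Φ Ω : Set V}

/-- Let `r` be a wall of `x` (`D(x, s_r x) = {r}`).  A root `ρ ≠ r` positive on `x` is positive on
`s_r x`.  (Otherwise `B ρ (s_r x) < 0` by `h.gen`, `h.stab`, so `ρ ∈ D(x, s_r x) = {r}`.) -/
theorem wall_pos (h : RD B Φ Ω) {x r ρ : V} (hx : x ∈ Ω) (hr : r ∈ Φ)
    (hw : Dset B Φ x (sr B r x) = {r}) (hρ : ρ ∈ Φ) (hne : ρ ≠ r) (hpos : 0 < B ρ x) :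
    0 < B ρ (sr B r x) := by
  by_contra hc
  have hΩ := h.stab x hx r hr
  have hne0 := h.gen _ hΩ ρ hρ
  have hlt : B ρ (sr B r x) < 0 := lt_of_le_of_ne (not_lt.1 hc) hne0
  have hmem : ρ ∈ Dset B Φ x (sr B r x) := ⟨hρ, hpos, hlt⟩
  rw [hw] at hmem
  exact hne hmem

/-- For a wall `r` of `x` and `z ∈ Ω`: `r ∈ D(x, s_r z) ↔ r ∉ D(x, z)`.
(`r ∈ Φ`, `0 < B r x` as `r ∈ {r} = D(x, s_r x)`; `B r (s_r z) = -B r z`, `B r z ≠ 0`.) -/
theorem wall_mem_iff (h : RD B Φ Ω) {x z r : V} (hx : x ∈ Ω) (hz : z ∈ Ω) (hr : r ∈ Φ)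
    (hw : Dset B Φ x (sr B r x) = {r}) :
    r ∈ Dset B Φ x (sr B r z) ↔ r ∉ Dset B Φ x z := by
  have hrr := (h.pos r hr).ne'
  have hrx : 0 < B r x := by
    have hmem : r ∈ Dset B Φ x (sr B r x) := by rw [hw]; exact rfl
    exact hmem.2.1
  have hsw : B r (sr B r z) = -B r z := by
    rw [← B_sr_left h.symm, sr_self hrr, map_neg, LinearMap.neg_apply]
  have hz0 := h.gen z hz r hr
  constructor
  · intro hm hm'
    have h1 := hm.2.2
    rw [hsw] at h1
    have h2 := hm'.2.2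
    linarith
  · intro hm
    refine ⟨hr, hrx, ?_⟩
    rw [hsw]
    have h3 : ¬ B r z < 0 := fun hlt => hm ⟨hr, hrx, hlt⟩
    have h4 : 0 < B r z := lt_of_le_of_ne (not_lt.1 h3) hz0.symm
    linarith

/-- For a wall `r` of `x`, `z ∈ Ω` and `ρ ∈ D(x, s_r z)` with `ρ ≠ r`: `s_r ρ ∈ D(x, z)` and
`s_r ρ ≠ r`.
(`B (s_r ρ) x = B ρ (s_r x) > 0` by `wall_pos`; `B (s_r ρ) z = B ρ (s_r z) < 0`;
`s_r ρ = r` would give `ρ = s_r r = -r`, but `B ρ x > 0`, `B r x > 0`.) -/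
theorem wall_refl_mem (h : RD B Φ Ω) {x z r ρ : V} (hx : x ∈ Ω) (hz : z ∈ Ω) (hr : r ∈ Φ)
    (hw : Dset B Φ x (sr B r x) = {r}) (hρ : ρ ∈ Dset B Φ x (sr B r z)) (hne : ρ ≠ r) :
    sr B r ρ ∈ Dset B Φ x z ∧ sr B r ρ ≠ r := by
  have hrr := (h.pos r hr).ne'
  have hrx : 0 < B r x := by
    have hmem : r ∈ Dset B Φ x (sr B r x) := by rw [hw]; exact rfl
    exact hmem.2.1
  obtain ⟨h1, h2, h3⟩ := hρ
  have h4 := wall_pos h hx hr hw h1 hne h2
  refine ⟨⟨h.refl r hr ρ h1, ?_, ?_⟩, ?_⟩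
  · rw [B_sr_left h.symm]
    exact h4
  · rw [B_sr_left h.symm]
    exact h3
  · intro he
    have h5 : ρ = -r := by
      have h6 := congrArg (sr B r) he
      rwa [sr_sr hrr, sr_self hrr] at h6
    have h6 : B ρ x = -B r x := by rw [h5, map_neg, LinearMap.neg_apply]
    linarith

/-- If `r` is a wall of `x` and `r ∈ D(x, z)`, then `D(x, s_r z)` has one element less.
(`ρ ↦ s_r ρ` is a bijection `D(x, s_r z) \ {r} → D(x, z) \ {r}`, by `wall_refl_mem` applied to `z`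
and to `s_r z` (`s_r (s_r z) = z`), and `r ∉ D(x, s_r z)`.) -/
theorem ncard_wall (h : RD B Φ Ω) {x z r : V} (hx : x ∈ Ω) (hz : z ∈ Ω) (hr : r ∈ Φ)
    (hw : Dset B Φ x (sr B r x) = {r}) (hm : r ∈ Dset B Φ x z) :
    (Dset B Φ x (sr B r z)).ncard + 1 = (Dset B Φ x z).ncard := by
  have hrr := (h.pos r hr).ne'
  have himg : Dset B Φ x (sr B r z) = sr B r '' (Dset B Φ x z \ {r}) := by
    ext ρ
    constructor
    · intro hρ
      have hne : ρ ≠ r := by
        rintro rfl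
        exact (wall_mem_iff h hx hz hr hw).1 hρ hm
      obtain ⟨h1, h2⟩ := wall_refl_mem h hx hz hr hw hρ hne
      exact ⟨sr B r ρ, ⟨h1, h2⟩, sr_sr hrr ρ⟩
    · rintro ⟨σ, ⟨h1, h2⟩, rfl⟩
      have hz' := h.stab z hz r hr
      have h3 : σ ∈ Dset B Φ x (sr B r (sr B r z)) := by rw [sr_sr hrr]; exact h1
      exact (wall_refl_mem h hx hz' hr hw h3 h2).1
  have hinj : Function.Injective (sr B r) := fun a b hab => by
    rw [← sr_sr hrr a, hab, sr_sr hrr]
  rw [himg, Set.ncard_image_of_injective _ hinj]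
  exact Set.ncard_sdiff_singleton_add_one hm (h.fin x hx z hz)

/-- `|D(x, w x)| = |D(x, w⁻¹ x)|` for a word `w`; here `w⁻¹` is `act l.reverse`.
(`ρ ↦ -w⁻¹ρ` is a bijection `D(x, w x) → D(x, w⁻¹ x)`: `B (-w⁻¹ρ) x = -B ρ (w x) > 0`,
`B (-w⁻¹ρ) (w⁻¹x) = -B ρ x < 0`; use `B_act_left`, `act_reverse_act`, `act_mem_root`, `h.neg`.) -/
theorem ncard_inv (h : RD B Φ Ω) {x : V} (hx : x ∈ Ω) {l : List V} (hl : ∀ r ∈ l, r ∈ Φ) :
    (Dset B Φ x (act B l x)).ncard = (Dset B Φ x (act B l.reverse x)).ncard := by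
  have hl' : ∀ r ∈ l.reverse, r ∈ Φ := fun r hr => hl r (List.mem_reverse.1 hr)
  have hneg : ∀ (m : List V) (y : V), act B m (-y) = -act B m y := fun m y => by
    have := act_smul (B := B) m (-1) y
    simpa using this
  have hrev : ∀ y, act B l (act B l.reverse y) = y := fun y => by
    have := act_reverse_act h hl' y
    rwa [List.reverse_reverse] at this
  have hleft : ∀ a b, B (act B l.reverse a) b = B a (act B l b) := fun a b => by
    have := B_act_left h (l := l.reverse) a b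
    rwa [List.reverse_reverse] at this
  have himg : Dset B Φ x (act B l.reverse x) =
      (fun ρ => -act B l.reverse ρ) '' Dset B Φ x (act B l x) := by
    ext σ
    constructor
    · rintro ⟨h1, h2, h3⟩
      refine ⟨-act B l σ, ⟨h.neg _ (act_mem_root h hl h1), ?_, ?_⟩, ?_⟩
      · rw [map_neg, LinearMap.neg_apply, B_act_left h]
        linarith
      · rw [map_neg, LinearMap.neg_apply, B_act_left h, act_reverse_act h hl]
        linarith
      · simp only [hneg, neg_neg]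
        exact act_reverse_act h hl σ
    · rintro ⟨ρ, ⟨h1, h2, h3⟩, rfl⟩
      refine ⟨h.neg _ (act_mem_root h hl' h1), ?_, ?_⟩
      · simp only [map_neg, LinearMap.neg_apply, hleft]
        linarith
      · simp only [map_neg, LinearMap.neg_apply, hleft, hrev]
        linarith
  have hinj : Function.Injective (fun ρ : V => -act B l.reverse ρ) := fun a b hab => by
    have h1 : act B l.reverse a = act B l.reverse b := neg_injective hab
    rw [← hrev a, h1, hrev]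
  rw [himg, Set.ncard_image_of_injective _ hinj]

end MP_dcc566_gt
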