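import Mathlib
import Pool.Agent.Lib.MP_dcc566_gt.ChA
import Pool.Agent.Lib.MP_dcc566_gt.ChB

namespace MP_dcc566_gt

variable {V : Type} [AddCommGroup V] [Module ℝ V] {B : V →ₗ[ℝ] V →ₗ[ℝ] ℝ} {Φ Ω : Set V}

private theorem ChC_aux (h : RD B Φ Ω) {x : V} (hx : x ∈ Ω) (n : ℕ) :
    ∀ r ∈ Φ, 0 < B r x → (Dset B Φ x (sr B r x)).ncard = n →
      ∃ l : List V, (∀ t ∈ l, t ∈ Φ ∧ Dset B Φ x (sr B t x) = {t}) ∧
        ∀ y, act B l y = sr B r y := by
  induction n using Nat.strong_induction_on with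
  | _ n ih =>
    intro r hr hpos hn
    have hrr := h.pos r hr
    have hsx : sr B r x ∈ Ω := h.stab x hx r hr
    have hBr : B r (sr B r x) = -B r x := by
      rw [← B_sr_left h.symm, sr_self hrr.ne', map_neg, LinearMap.neg_apply]
    have hmem : r ∈ Dset B Φ x (sr B r x) := by
      refine ⟨hr, hpos, ?_⟩
      rw [hBr]
      linarith
    by_cases hD : Dset B Φ x (sr B r x) = {r}
    · refine ⟨[r], ?_, fun y => rfl⟩
      intro t ht
      rw [List.mem_singleton] at ht
      rw [ht]
      exact ⟨hr, hD⟩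
    obtain ⟨t, ht, hw⟩ := exists_wall h hx hsx ⟨r, hmem⟩
    have htΦ : t ∈ Φ := ht.1
    have htx : 0 < B t x := ht.2.1
    have htr : r ≠ t := by
      rintro rfl
      exact hD hw
    have htt := (h.pos t htΦ).ne'
    have hr' : sr B t r ∈ Φ := h.refl t htΦ r hr
    have hpos' : 0 < B (sr B t r) x := by
      rw [B_sr_left h.symm]
      exact wall_pos h hx htΦ hw hr htr hpos
    have hconj : ∀ y, sr B (sr B t r) y = sr B t (sr B r (sr B t y)) :=
      fun y => sr_conj h.symm htt r y
    have e1 := ncard_wall h hx hsx htΦ hw ht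
    have e2 : (Dset B Φ x (sr B r (sr B t x))).ncard =
        (Dset B Φ x (sr B t (sr B r x))).ncard := by
      refine ncard_inv h hx (l := [r, t]) ?_
      intro s hs
      rcases List.mem_cons.mp hs with rfl | hs
      · exact hr
      · rw [List.mem_singleton] at hs
        rw [hs]
        exact htΦ
    have hm : t ∈ Dset B Φ x (sr B r (sr B t x)) := by
      refine ⟨htΦ, htx, ?_⟩
      have hρ : -sr B r t ∈ Φ := h.neg _ (h.refl r hr t htΦ)
      have hρx : 0 < B (-sr B r t) x := by
        rw [map_neg, LinearMap.neg_apply, B_sr_left h.symm]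
        have := ht.2.2
        linarith
      have hne : -sr B r t ≠ t := by
        intro heq
        have h1 : (2 : ℝ) • t = (2 * B r t / B r r) • r := by
          have h2 : -(t - (2 * B r t / B r r) • r) = t := heq
          rw [neg_sub, sub_eq_iff_eq_add] at h2
          rw [two_smul]
          exact h2.symm
        have h3 : t = ((2 * B r t / B r r) / 2) • r := by
          rw [div_eq_inv_mul, mul_smul, ← h1, smul_smul, inv_mul_cancel₀ two_ne_zero, one_smul]
        have h4 : B t x = ((2 * B r t / B r r) / 2) * B r x := by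
          have h5 := congrArg (fun v => B v x) h3
          simp only [map_smul, LinearMap.smul_apply, smul_eq_mul] at h5
          exact h5
        have h6 : 0 < (2 * B r t / B r r) / 2 := by
          rw [h4] at htx
          exact pos_of_mul_pos_left htx hpos.le
        exact htr (h.red r hr t htΦ _ h6 h3).symm
      have h7 := wall_pos h hx htΦ hw hρ hne hρx
      rw [map_neg, LinearMap.neg_apply, B_sr_left h.symm] at h7
      linarith
    have e3 := ncard_wall h hx (z := sr B r (sr B t x)) (h.stab _ (h.stab x hx t htΦ) r hr)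
      htΦ hw hm
    have hlt : (Dset B Φ x (sr B (sr B t r) x)).ncard < n := by
      rw [hconj]
      omega
    obtain ⟨l', hl', hl2⟩ := ih _ hlt (sr B t r) hr' hpos' rfl
    refine ⟨t :: (l' ++ [t]), ?_, ?_⟩
    · intro s hs
      rcases List.mem_cons.mp hs with rfl | hs
      · exact ⟨htΦ, hw⟩
      · rcases List.mem_append.mp hs with hs | hs
        · exact hl' s hs
        · rw [List.mem_singleton] at hs
          rw [hs]
          exact ⟨htΦ, hw⟩
    · intro y
      rw [act_cons, act_append, act_cons, act_nil, hl2, hconj, sr_sr htt, sr_sr htt]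

/-- GENERATION BY WALLS.  The reflection in any root is a word in wall reflections of `x ∈ Ω`.

PROOF.  Strong induction on `n = |D(x, s_r x)|`.  Replacing `r` by `-r` (`sr_neg`, `h.neg`,
`h.gen`) we may
assume `B r x > 0`; then `r ∈ D(x, s_r x)` (`B r (s_r x) = -B r x`).  If `D(x, s_r x) = {r}`, take
`l = [r]`.
Otherwise `exists_wall h hx (h.stab x hx r hr)` gives a wall `t ∈ D(x, s_r x)` of `x`, and `t ≠ r`.
Put `r' = s_t r ∈ Φ`; `B r' x = B r (s_t x) > 0` by `wall_pos` (as `r ≠ t`).
`s_{r'} = s_t s_r s_t` (`sr_conj`).  Compute `|D(x, s_t s_r s_t x)|`: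
* `|D(x, s_t (s_r x))| + 1 = |D(x, s_r x)|` (`ncard_wall`, `t ∈ D(x, s_r x)`);
* `|D(x, s_r s_t x)| = |D(x, s_t s_r x)|` (`ncard_inv` with `l = [r, t]`);
* `t ∈ D(x, s_r (s_t x))`: `B t (s_r (s_t x)) = B (s_t (s_r t)) x`.  Let `ρ = -s_r t ∈ Φ`; then
  `B ρ x = -B t (s_r x) > 0` and `ρ ≠ t` (`s_r t = -t` gives, with `s_r t = t - c r`, `2 t = c r`,
  where `c > 0` since `B t x, B r x > 0`, so `t = r` by `h.red`).  So `0 < B ρ (s_t x) = -B (s_t
(s_r t)) x`
  by `wall_pos`;
* so `|D(x, s_t (s_r (s_t x)))| + 1 = |D(x, s_r (s_t x))|` by `ncard_wall` with `z = s_r (s_t x)`.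
Hence `|D(x, s_{r'} x)| < |D(x, s_r x)|`, and the induction hypothesis gives a word `l'` of walls
for
`s_{r'}`.  As `s_r = s_t s_{r'} s_t`, the word `t :: (l' ++ [t])` works. -/
theorem exists_wall_word (h : RD B Φ Ω) {x : V} (hx : x ∈ Ω) {r : V} (hr : r ∈ Φ) :
    ∃ l : List V, (∀ t ∈ l, t ∈ Φ ∧ Dset B Φ x (sr B t x) = {t}) ∧
      ∀ y, act B l y = sr B r y := by
  rcases lt_or_gt_of_ne (h.gen x hx r hr) with hlt | hgt
  · have hneg : 0 < B (-r) x := by
      rw [map_neg, LinearMap.neg_apply]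
      linarith
    obtain ⟨l, hl, hl2⟩ := ChC_aux h hx _ (-r) (h.neg r hr) hneg rfl
    refine ⟨l, hl, fun y => ?_⟩
    rw [hl2, sr_neg]
  · exact ChC_aux h hx _ r hr hgt rfl

end MP_dcc566_gt
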