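import Mathlib
import Pool.Agent.Lib.MP_dcc566_gt.ChC

namespace MP_dcc566_gt

variable {V : Type} [AddCommGroup V] [Module ℝ V] {B : V →ₗ[ℝ] V →ₗ[ℝ] ℝ} {Φ Ω : Set V}

theorem exchange (h : RD B Φ Ω) {x : V} (hx : x ∈ Ω) (l : List V)
    (hl : ∀ t ∈ l, t ∈ Φ ∧ Dset B Φ x (sr B t x) = {t}) {r : V}
    (hr : r ∈ Dset B Φ x (act B l x)) :
    ∃ l' : List V, (∀ t ∈ l', t ∈ Φ ∧ Dset B Φ x (sr B t x) = {t}) ∧
      l'.length + 1 = l.length ∧ ∀ y, act B l' y = sr B r (act B l y) := by
  induction l generalizing r with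
  | nil =>
    exfalso
    obtain ⟨_, h1, h2⟩ := hr
    rw [act_nil] at h2
    linarith
  | cons t l ih =>
    have ht := hl t (List.mem_cons_self ..)
    have hl' : ∀ s ∈ l, s ∈ Φ ∧ Dset B Φ x (sr B s x) = {s} :=
      fun s hs => hl s (List.mem_cons_of_mem _ hs)
    by_cases hrt : r = t
    · subst hrt
      refine ⟨l, hl', rfl, fun y => ?_⟩
      rw [act_cons, sr_sr (h.pos r ht.1).ne']
    · have hz : act B l x ∈ Ω := act_mem h (fun s hs => (hl' s hs).1) hx
      have h1 := wall_refl_mem h hx hz ht.1 ht.2 (by simpa using hr) hrt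
      obtain ⟨l'', h2, h3, h4⟩ := ih hl' h1.1
      refine ⟨t :: l'', ?_, ?_, fun y => ?_⟩
      · intro s hs
        rcases List.mem_cons.1 hs with rfl | hs
        · exact ht
        · exact h2 s hs
      · simp [← h3]
      · rw [act_cons, act_cons, h4, sr_conj h.symm (h.pos t ht.1).ne',
          sr_sr (h.pos t ht.1).ne']

theorem free_wall_aux (h : RD B Φ Ω) {x : V} (hx : x ∈ Ω) (n : ℕ) : ∀ (l : List V),
    l.length = n → (∀ t ∈ l, t ∈ Φ ∧ Dset B Φ x (sr B t x) = {t}) →
    Dset B Φ x (act B l x) = ∅ → ∀ y, act B l y = y := by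
  induction n using Nat.strong_induction_on with
  | _ n ih =>
    intro l hn hl hD y
    cases l with
    | nil => rfl
    | cons t l =>
      have ht := hl t (List.mem_cons_self ..)
      have hl' : ∀ s ∈ l, s ∈ Φ ∧ Dset B Φ x (sr B s x) = {s} :=
        fun s hs => hl s (List.mem_cons_of_mem _ hs)
      have hz : act B l x ∈ Ω := act_mem h (fun s hs => (hl' s hs).1) hx
      have h1 : t ∉ Dset B Φ x (sr B t (act B l x)) := by
        rw [← act_cons, hD]
        exact Set.notMem_empty t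
      have h2 : t ∈ Dset B Φ x (act B l x) := by
        by_contra h3
        exact h1 ((wall_mem_iff h hx hz ht.1 ht.2).2 h3)
      obtain ⟨l'', h3, h4, h5⟩ := exchange h hx l hl' h2
      have h6 : ∀ y, act B l'' y = act B (t :: l) y := fun y => by rw [h5, act_cons]
      rw [← h6]
      refine ih l''.length ?_ l'' rfl h3 ?_ y
      · rw [← hn, List.length_cons]
        omega
      · rw [h6, hD]

theorem free_wall (h : RD B Φ Ω) {x : V} (hx : x ∈ Ω) (l : List V)
    (hl : ∀ t ∈ l, t ∈ Φ ∧ Dset B Φ x (sr B t x) = {t})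
    (hD : Dset B Φ x (act B l x) = ∅) (y : V) : act B l y = y :=
  free_wall_aux h hx l.length l rfl hl hD y

theorem free (h : RD B Φ Ω) {x : V} (hx : x ∈ Ω) (l : List V) (hl : ∀ t ∈ l, t ∈ Φ)
    (hD : Dset B Φ x (act B l x) = ∅) (y : V) : act B l y = y := by
  have key : ∀ l : List V, (∀ t ∈ l, t ∈ Φ) → ∃ l' : List V,
      (∀ t ∈ l', t ∈ Φ ∧ Dset B Φ x (sr B t x) = {t}) ∧ ∀ y, act B l' y = act B l y := by
    intro l
    induction l with
    | nil => intro _; exact ⟨[], by simp, fun _ => rfl⟩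
    | cons r l ih =>
      intro hl
      obtain ⟨l1, h1, h2⟩ := ih fun s hs => hl s (List.mem_cons_of_mem _ hs)
      obtain ⟨l2, h3, h4⟩ := exists_wall_word h hx (hl r (List.mem_cons_self ..))
      refine ⟨l2 ++ l1, ?_, fun y => ?_⟩
      · intro t ht
        rcases List.mem_append.1 ht with ht | ht
        · exact h3 t ht
        · exact h1 t ht
      · rw [act_append, h4, h2, act_cons]
  obtain ⟨l', h1, h2⟩ := key l hl
  rw [← h2]
  exact free_wall h hx l' h1 (by rw [h2, hD]) y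

end MP_dcc566_gt
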