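import Mathlib
import Pool.Agent.Lib.MP_dcc566_gt.Chamber0
import Pool.Agent.Lib.MP_dcc566_gt.Defs

namespace MP_dcc566_gt

variable {V : Type} [AddCommGroup V] [Module ℝ V] {B : V →ₗ[ℝ] V →ₗ[ℝ] ℝ}

/-- Abstract Lorentzian form: symmetric, `B p p < 0`, positive definite on `p^⊥`. -/
structure ALor (B : V →ₗ[ℝ] V →ₗ[ℝ] ℝ) (p : V) : Prop where
  symm : ∀ x y, B x y = B y x
  neg : B p p < 0
  pos : ∀ v, B v p = 0 → v ≠ 0 → 0 < B v v

theorem Lor.alor {ι : Type} [Fintype ι] [DecidableEq ι] {G : Matrix ι ι ℤ} {p : ι → ℝ}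
    (h : Lor G p) : ALor (rB G) p := ⟨rB_symm h.symm, h.neg, h.pos⟩

/-- The orthogonal complement of any timelike vector is positive definite.

PROOF.  Suppose `v ≠ 0`, `B v x = 0`, `B v v ≤ 0`.  Put `w = (B v p) x - (B x p) v`, `B w p = 0`,
`B w w = (B v p)² B x x + (B x p)² B v v ≤ 0`, so `w = 0` by `h.pos`.  Pair with `x`:
`0 = B w x = (B v p) B x x`, so `B v p = 0`, and then `B v v > 0` by `h.pos`, contradiction. -/
theorem ALor.pos' {p : V} (h : ALor B p) {x : V} (hx : B x x < 0) {v : V} (hv : B v x = 0)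
    (hv0 : v ≠ 0) : 0 < B v v := by
  by_contra hcon
  rw [not_lt] at hcon
  have hxv : B x v = 0 := by rw [h.symm, hv]
  have hw : B ((B v p) • x - (B x p) • v) p = 0 := by
    simp only [map_sub, map_smul, LinearMap.sub_apply, LinearMap.smul_apply, smul_eq_mul]
    ring
  have hww : B ((B v p) • x - (B x p) • v) ((B v p) • x - (B x p) • v)
      = (B v p) ^ 2 * B x x + (B x p) ^ 2 * B v v := by
    simp only [map_sub, map_smul, LinearMap.sub_apply, LinearMap.smul_apply, smul_eq_mul]
    rw [hv, hxv]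
    ring
  have hw0 : (B v p) • x - (B x p) • v = 0 := by
    by_contra hne
    have h1 := h.pos _ hw hne
    rw [hww] at h1
    have h2 : (B v p) ^ 2 * B x x ≤ 0 := mul_nonpos_of_nonneg_of_nonpos (sq_nonneg _) hx.le
    have h3 : (B x p) ^ 2 * B v v ≤ 0 := mul_nonpos_of_nonneg_of_nonpos (sq_nonneg _) hcon
    linarith
  have h2 : B ((B v p) • x - (B x p) • v) x = B v p * B x x := by
    simp only [map_sub, map_smul, LinearMap.sub_apply, LinearMap.smul_apply, smul_eq_mul]
    rw [hv]
    ring
  rw [hw0, map_zero, LinearMap.zero_apply] at h2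
  have h3 : B v p = 0 := by
    rcases mul_eq_zero.1 h2.symm with h4 | h4
    · exact h4
    · exact absurd h4 hx.ne
  have h5 := h.pos v h3 hv0
  linarith

/-- `ALor` holds for every timelike vector. -/
theorem ALor.change {p : V} (h : ALor B p) {x : V} (hx : B x x < 0) : ALor B x :=
  ⟨h.symm, hx, fun _ hv hv0 => h.pos' hx hv hv0⟩

/-- The form is nonnegative on the orthogonal complement of a timelike vector. -/
theorem ALor.LorA_nonneg {p : V} (h : ALor B p) {x : V} (hx : B x x < 0) {v : V}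
    (hv : B v x = 0) : 0 ≤ B v v := by
  by_cases hv0 : v = 0
  · subst hv0
    simp
  · exact (h.pos' hx hv hv0).le

/-- Cauchy–Schwarz on `x^⊥`, `x` timelike.  (For `w = 0` clear; otherwise expand
`0 ≤ B (c v - d w) (c v - d w)` with `c = B w w`, `d = B v w`.) -/
theorem ALor.cs {p : V} (h : ALor B p) {x : V} (hx : B x x < 0) {v w : V} (hv : B v x = 0)
    (hw : B w x = 0) : (B v w) ^ 2 ≤ B v v * B w w := by
  by_cases hw0 : w = 0
  · subst hw0
    simp
  · have hww := h.pos' hx hw hw0
    have hz : B ((B w w) • v - (B v w) • w) x = 0 := by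
      simp only [map_sub, map_smul, LinearMap.sub_apply, LinearMap.smul_apply, smul_eq_mul]
      rw [hv, hw]
      ring
    have hzz := h.LorA_nonneg hx hz
    have he : B ((B w w) • v - (B v w) • w) ((B w w) • v - (B v w) • w)
        = B w w * (B v v * B w w - (B v w) ^ 2) := by
      simp only [map_sub, map_smul, LinearMap.sub_apply, LinearMap.smul_apply, smul_eq_mul]
      rw [h.symm w v]
      ring
    rw [he] at hzz
    have := nonneg_of_mul_nonneg_right hzz hww
    linarith

/-- Reverse Cauchy–Schwarz: `x` timelike, `y` arbitrary: `B x x * B y y ≤ (B x y)²`.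
(`y' = y - (B x y/B x x) x` is orthogonal to `x`, so `0 ≤ B y' y' = B y y - (B x y)²/B x x`;
multiply by
`B x x < 0`.) -/
theorem ALor.rcs {p : V} (h : ALor B p) {x : V} (hx : B x x < 0) (y : V) :
    B x x * B y y ≤ (B x y) ^ 2 := by
  have hz : B ((B x x) • y - (B x y) • x) x = 0 := by
    simp only [map_sub, map_smul, LinearMap.sub_apply, LinearMap.smul_apply, smul_eq_mul]
    rw [h.symm y x]
    ring
  have hzz := h.LorA_nonneg hx hz
  have he : B ((B x x) • y - (B x y) • x) ((B x x) • y - (B x y) • x)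
      = B x x * (B x x * B y y - (B x y) ^ 2) := by
    simp only [map_sub, map_smul, LinearMap.sub_apply, LinearMap.smul_apply, smul_eq_mul]
    rw [h.symm y x]
    ring
  rw [he] at hzz
  by_contra hcon
  rw [not_le] at hcon
  have := mul_neg_of_neg_of_pos hx (sub_pos.2 hcon)
  linarith

/-- A timelike vector is not orthogonal to a nonzero isotropic vector. -/
theorem ALor.iso_ne {p : V} (h : ALor B p) {x : V} (hx : B x x < 0) {e : V} (he : B e e = 0)
    (he0 : e ≠ 0) : B x e ≠ 0 := by
  intro hxe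
  have hex : B e x = 0 := by rw [h.symm, hxe]
  have := h.pos' hx hex he0
  linarith

/-- Two timelike vectors are not orthogonal. -/
theorem ALor.time_ne {p : V} (h : ALor B p) {x y : V} (hx : B x x < 0) (hy : B y y < 0) :
    B x y ≠ 0 := by
  intro hxy
  have hyx : B y x = 0 := by rw [h.symm, hxy]
  have hy0 : y ≠ 0 := by
    rintro rfl
    simp at hy
  have := h.pos' hx hyx hy0
  linarith

/-- Transitivity of same cone: `B x y < 0` and `B y z < 0` imply `B x z < 0`.

PROOF.  Write `x = a y + x'`, `z = b y + z'`, `a = B x y/B y y > 0`, `b = B z y/B y y > 0`, `x',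
z' ⊥ y`.
`B x x = a² B y y + B x' x' < 0`, so `B x' x' < a² |B y y|`, likewise `z'`; by `cs`
`(B x' z')² ≤ B x' x' * B z' z' < (a b |B y y|)²`, and `B x z = a b B y y + B x' z' < 0`. -/
theorem ALor.trans {p : V} (h : ALor B p) {x y z : V} (hx : B x x < 0) (hy : B y y < 0)
    (hz : B z z < 0) (hxy : B x y < 0) (hyz : B y z < 0) : B x z < 0 := by
  have hzy : B z y = B y z := h.symm z y
  have hyx : B y x = B x y := h.symm y x
  have h1 : B ((B y y) • x - (B x y) • y) y = 0 := by
    simp only [map_sub, map_smul, LinearMap.sub_apply, LinearMap.smul_apply, smul_eq_mul]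
    ring
  have h2 : B ((B y y) • z - (B y z) • y) y = 0 := by
    simp only [map_sub, map_smul, LinearMap.sub_apply, LinearMap.smul_apply, smul_eq_mul]
    rw [hzy]
    ring
  have h3 := h.cs hy h1 h2
  have e1 : B ((B y y) • x - (B x y) • y) ((B y y) • z - (B y z) • y)
      = B y y * (B y y * B x z - B x y * B y z) := by
    simp only [map_sub, map_smul, LinearMap.sub_apply, LinearMap.smul_apply, smul_eq_mul]
    ring
  have e2 : B ((B y y) • x - (B x y) • y) ((B y y) • x - (B x y) • y)
      = B y y * (B y y * B x x - (B x y) ^ 2) := by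
    simp only [map_sub, map_smul, LinearMap.sub_apply, LinearMap.smul_apply, smul_eq_mul]
    rw [hyx]
    ring
  have e3 : B ((B y y) • z - (B y z) • y) ((B y y) • z - (B y z) • y)
      = B y y * (B y y * B z z - (B y z) ^ 2) := by
    simp only [map_sub, map_smul, LinearMap.sub_apply, LinearMap.smul_apply, smul_eq_mul]
    rw [hzy]
    ring
  rw [e1, e2, e3] at h3
  by_contra hcon
  rw [not_lt] at hcon
  have hy2 : 0 < (B y y) ^ 2 := by
    have := hy.ne
    positivity
  have h4 : (B y y * B x z - B x y * B y z) ^ 2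
      ≤ ((B x y) ^ 2 - B y y * B x x) * ((B y z) ^ 2 - B y y * B z z) := by
    have : (B y y) ^ 2 * (B y y * B x z - B x y * B y z) ^ 2
        ≤ (B y y) ^ 2 * (((B x y) ^ 2 - B y y * B x x) * ((B y z) ^ 2 - B y y * B z z)) := by
      nlinarith [h3]
    exact le_of_mul_le_mul_left this hy2
  have hP : 0 < B x y * B y z := mul_pos_of_neg_of_neg hxy hyz
  have hX : 0 < B y y * B x x := mul_pos_of_neg_of_neg hy hx
  have hZ : 0 < B y y * B z z := mul_pos_of_neg_of_neg hy hz
  have hW : B y y * B x z ≤ 0 := mul_nonpos_of_nonpos_of_nonneg hy.le hcon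
  have r1 : B y y * B x x ≤ (B x y) ^ 2 := by
    have := h.rcs hy x
    rwa [hyx] at this
  have r2 : B y y * B z z ≤ (B y z) ^ 2 := h.rcs hy z
  have h5 : (B x y * B y z) ^ 2 ≤ (B y y * B x z - B x y * B y z) ^ 2 := by
    nlinarith [mul_nonneg (neg_nonneg.2 hW) hP.le, sq_nonneg (B y y * B x z)]
  have h6 : ((B x y) ^ 2 - B y y * B x x) * ((B y z) ^ 2 - B y y * B z z)
      < (B x y * B y z) ^ 2 := by
    have a1 : (B x y) ^ 2 - B y y * B x x < (B x y) ^ 2 := by linarith
    have a2 : (B y z) ^ 2 - B y y * B z z < (B y z) ^ 2 := by linarith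
    rw [mul_pow]
    exact mul_lt_mul'' a1 a2 (sub_nonneg.2 r1) (sub_nonneg.2 r2)
  linarith

/-- Convex combinations of timelike vectors of the same cone are timelike. -/
theorem ALor.conv {p : V} (h : ALor B p) {x y : V} (hx : B x x < 0) (hy : B y y < 0)
    (hxy : B x y < 0) {c : ℝ} (hc0 : 0 ≤ c) (hc1 : c ≤ 1) :
    B ((1 - c) • x + c • y) ((1 - c) • x + c • y) < 0 := by
  have e : B ((1 - c) • x + c • y) ((1 - c) • x + c • y)
      = (1 - c) ^ 2 * B x x + 2 * (c * (1 - c)) * B x y + c ^ 2 * B y y := by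
    simp only [map_add, map_smul, LinearMap.add_apply, LinearMap.smul_apply, smul_eq_mul]
    rw [h.symm y x]
    ring
  rw [e]
  have h1 : (1 - c) ^ 2 * B x x ≤ 0 := mul_nonpos_of_nonneg_of_nonpos (sq_nonneg _) hx.le
  have h2 : 2 * (c * (1 - c)) * B x y ≤ 0 :=
    mul_nonpos_of_nonneg_of_nonpos
      (mul_nonneg zero_le_two (mul_nonneg hc0 (sub_nonneg.2 hc1))) hxy.le
  rcases hc0.eq_or_lt with h0 | h0
  · rw [← h0]
    simpa using hx
  · have h3 : c ^ 2 * B y y < 0 := mul_neg_of_pos_of_neg (pow_pos h0 2) hy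
    linarith

/-- A reflection in a vector of positive norm preserves norms and the cone. -/
theorem ALor.sr_cone {p : V} (h : ALor B p) {x r : V} (hx : B x x < 0) (hr : 0 < B r r) :
    B (sr B r x) (sr B r x) < 0 ∧ B x (sr B r x) < 0 := by
  have hne : B r r ≠ 0 := hr.ne'
  have e1 : B (sr B r x) (sr B r x) = B x x := by
    simp only [sr, map_sub, map_smul, LinearMap.sub_apply, LinearMap.smul_apply, smul_eq_mul]
    rw [h.symm x r]
    field_simp
    ring
  have e2 : B x (sr B r x) = B x x - 2 * ((B r x) ^ 2 / B r r) := by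
    simp only [sr, map_sub, map_smul, smul_eq_mul]
    rw [h.symm x r]
    field_simp
  refine ⟨by rw [e1]; exact hx, ?_⟩
  rw [e2]
  have : 0 ≤ (B r x) ^ 2 / B r r := div_nonneg (sq_nonneg _) hr.le
  linarith

end MP_dcc566_gt
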