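import Mathlib
import Pool.Agent.Lib.MP_dcc566_gt.Defs

namespace MP_dcc566_gt

variable {ι : Type} [Fintype ι] [DecidableEq ι]

/-- The Eichler transvection, as a function:
`E_n x = x + 2 n (x,e) t - 2 n (x,t) e - 2 n² (t,t) (x,e) e`. -/
def eich (G : Matrix ι ι ℤ) (e t : ι → ℤ) (n : ℤ) (x : ι → ℤ) : ι → ℤ :=
  x + (2 * n * bf G x e) • t - (2 * n * bf G x t) • e -
    (2 * n ^ 2 * bf G t t * bf G x e) • e

/-- The same formula on real vectors. -/
noncomputable def reich (G : Matrix ι ι ℤ) (e t : ι → ℤ) (n : ℤ) (x : ι → ℝ) : ι → ℝ :=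
  x + (2 * n * rB G x (rv e)) • rv t - (2 * n * rB G x (rv t)) • rv e -
    (2 * n ^ 2 * ((bf G t t : ℤ) : ℝ) * rB G x (rv e)) • rv e

omit [DecidableEq ι] in
private theorem Trans_e {G : Matrix ι ι ℤ} {e t : ι → ℤ} (he : bf G e e = 0)
    (ht : bf G t e = 0) (n : ℤ) (x : ι → ℤ) : bf G (eich G e t n x) e = bf G x e := by
  unfold eich
  simp only [bf_sub_left, bf_add_left, bf_smul_left, he, ht]
  ring

omit [DecidableEq ι] in
private theorem Trans_t {G : Matrix ι ι ℤ} (hG : G.IsSymm) {e t : ι → ℤ}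
    (ht : bf G t e = 0) (n : ℤ) (x : ι → ℤ) :
    bf G (eich G e t n x) t = bf G x t + 2 * n * bf G x e * bf G t t := by
  unfold eich
  simp only [bf_sub_left, bf_add_left, bf_smul_left, bf_comm G hG e t, ht]
  ring

omit [DecidableEq ι] in
private theorem Trans_comp {G : Matrix ι ι ℤ} (hG : G.IsSymm) {e t : ι → ℤ}
    (he : bf G e e = 0) (ht : bf G t e = 0) (m n : ℤ) (x : ι → ℤ) :
    eich G e t m (eich G e t n x) = eich G e t (m + n) x := by
  have h0 : ∀ y : ι → ℤ, eich G e t m y = y + (2 * m * bf G y e) • t -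
      (2 * m * bf G y t) • e - (2 * m ^ 2 * bf G t t * bf G y e) • e := fun y => rfl
  rw [h0, Trans_e he ht, Trans_t hG ht]
  unfold eich
  funext i
  simp only [Pi.add_apply, Pi.sub_apply, Pi.smul_apply, smul_eq_mul]
  ring

omit [DecidableEq ι] in
private theorem Trans_zero (G : Matrix ι ι ℤ) (e t x : ι → ℤ) : eich G e t 0 x = x := by
  unfold eich
  simp

omit [DecidableEq ι] in
private theorem Trans_iso {G : Matrix ι ι ℤ} (hG : G.IsSymm) {e t : ι → ℤ}
    (he : bf G e e = 0) (ht : bf G t e = 0) (n : ℤ) (x y : ι → ℤ) :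
    bf G (eich G e t n x) (eich G e t n y) = bf G x y := by
  have h1 : ∀ z : ι → ℤ, bf G z (eich G e t n y) = bf G z y + (2 * n * bf G y e) * bf G z t -
      (2 * n * bf G y t) * bf G z e - (2 * n ^ 2 * bf G t t * bf G y e) * bf G z e := by
    intro z
    unfold eich
    simp only [bf_sub_right, bf_add_right, bf_smul_right]
  rw [h1, Trans_e he ht, Trans_t hG ht]
  unfold eich
  simp only [bf_sub_left, bf_add_left, bf_smul_left, bf_comm G hG t y, bf_comm G hG e y]
  ring

/-- The transvection as a linear automorphism. -/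
private def Trans_equiv {G : Matrix ι ι ℤ} (hG : G.IsSymm) {e t : ι → ℤ}
    (he : bf G e e = 0) (ht : bf G t e = 0) : (ι → ℤ) ≃ₗ[ℤ] (ι → ℤ) where
  toFun := eich G e t 1
  map_add' x y := by
    unfold eich
    funext i
    simp only [bf_add_left, Pi.add_apply, Pi.sub_apply, Pi.smul_apply, smul_eq_mul]
    ring
  map_smul' c x := by
    unfold eich
    funext i
    simp only [bf_smul_left, Pi.add_apply, Pi.sub_apply, Pi.smul_apply, smul_eq_mul,
      RingHom.id_apply]
    ring
  invFun := eich G e t (-1)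
  left_inv x := by
    rw [Trans_comp hG he ht, neg_add_cancel, Trans_zero]
  right_inv x := by
    rw [Trans_comp hG he ht, add_neg_cancel, Trans_zero]

/-- For isotropic `e` and `t ⊥ e` there is an isometry `g` of the lattice whose powers are the
transvections `E_n`.  (`E_m ∘ E_n = E_{m+n}`, `E_0 = id`, `E_n` preserves the form.) -/
theorem exists_eich {G : Matrix ι ι ℤ} (hG : G.IsSymm) {e t : ι → ℤ} (he : bf G e e = 0)
    (ht : bf G t e = 0) :
    ∃ g : isoGroup G, ∀ (n : ℕ) (x : ι → ℤ), (g ^ n).1 x = eich G e t n x := by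
  refine ⟨⟨Trans_equiv hG he ht, fun x y => Trans_iso hG he ht 1 x y⟩, fun n => ?_⟩
  induction n with
  | zero =>
    intro x
    rw [Nat.cast_zero, Trans_zero, pow_zero]
    rfl
  | succ n ih =>
    intro x
    rw [pow_succ]
    have h1 : ((⟨Trans_equiv hG he ht, fun x y => Trans_iso hG he ht 1 x y⟩ : isoGroup G) ^ n *
        ⟨Trans_equiv hG he ht, fun x y => Trans_iso hG he ht 1 x y⟩).1 x =
        ((⟨Trans_equiv hG he ht, fun x y => Trans_iso hG he ht 1 x y⟩ : isoGroup G) ^ n).1
          (eich G e t 1 x) := rfl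
    rw [h1, ih, Trans_comp hG he ht]
    push_cast
    rfl

/-- If a word `act` agrees with `E_n` on integral vectors then it agrees with the real `E_n`.
(Both sides are additive and homogeneous in `x`, and every real vector is a combination of the
`rv (Pi.single i 1)`; `pi_eq_sum_univ'`.) -/
theorem act_eq_reich {G : Matrix ι ι ℤ} {e t : ι → ℤ} {n : ℤ}
    (B : (ι → ℝ) → (ι → ℝ)) (hadd : ∀ x y, B (x + y) = B x + B y)
    (hsmul : ∀ (c : ℝ) x, B (c • x) = c • B x)
    (h : ∀ x : ι → ℤ, rv (eich G e t n x) = B (rv x)) (x : ι → ℝ) :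
    B x = reich G e t n x := by
  set B' : (ι → ℝ) →ₗ[ℝ] (ι → ℝ) := ⟨⟨B, hadd⟩, hsmul⟩ with hB'
  set R' : (ι → ℝ) →ₗ[ℝ] (ι → ℝ) :=
    { toFun := reich G e t n
      map_add' := fun x y => by
        unfold reich
        funext i
        simp only [map_add, LinearMap.add_apply, Pi.add_apply, Pi.sub_apply, Pi.smul_apply,
          smul_eq_mul]
        ring
      map_smul' := fun c x => by
        unfold reich
        funext i
        simp only [map_smul, LinearMap.smul_apply, Pi.add_apply, Pi.sub_apply, Pi.smul_apply,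
          smul_eq_mul, RingHom.id_apply]
        ring } with hR'
  have hrv : ∀ y : ι → ℤ, rv (eich G e t n y) = reich G e t n (rv y) := by
    intro y
    unfold eich reich
    rw [rv_sub, rv_sub, rv_add, rv_smul, rv_smul, rv_smul, rB_rv, rB_rv]
    push_cast
    rfl
  have hBR : B' = R' := by
    refine (Pi.basisFun ℝ ι).ext fun i => ?_
    have h1 : (Pi.basisFun ℝ ι) i = rv (Pi.single i 1 : ι → ℤ) := by
      rw [Pi.basisFun_apply]
      funext j
      by_cases hj : j = i
      · subst hj
        simp [rv]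
      · simp [rv, hj]
    rw [h1]
    have h2 := h (Pi.single i 1)
    have h3 := hrv (Pi.single i 1)
    exact h2.symm.trans h3
  exact congrArg (fun L : (ι → ℝ) →ₗ[ℝ] (ι → ℝ) => L x) hBR

end MP_dcc566_gt
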