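import Mathlib
import Pool.Agent.Lib.MP_dcc566_gt.LorA
import Pool.Agent.Lib.MP_dcc566_gt.Trans

namespace MP_dcc566_gt

/-- Abstract inequality: `κ (r,e)² ≤ (r,r) (e,c)²`, `κ = -(c,c)`, for `r ⊥ c`. -/
private theorem Deep_aux {V : Type} [AddCommGroup V] [Module ℝ V] {B : V →ₗ[ℝ] V →ₗ[ℝ] ℝ}
    {p₀ : V} (h : ALor B p₀) {c r e : V} (hc : B c c < 0) (hr : B r c = 0) (he : B e e = 0) :
    (-B c c) * (B r e) ^ 2 ≤ B r r * (B e c) ^ 2 := by
  have hw : B (B c c • e - B e c • c) c = 0 := by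
    simp only [map_sub, map_smul, LinearMap.sub_apply, LinearMap.smul_apply, smul_eq_mul]
    ring
  have hcs := h.cs hc hr hw
  have h1 : B r (B c c • e - B e c • c) = B c c * B r e := by
    simp only [map_sub, map_smul, smul_eq_mul, hr]
    ring
  have h2 : B (B c c • e - B e c • c) (B c c • e - B e c • c) = -(B c c * (B e c) ^ 2) := by
    simp only [map_sub, map_smul, LinearMap.sub_apply, LinearMap.smul_apply, smul_eq_mul, he,
      h.symm c e]
    ring
  rw [h1, h2] at hcs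
  have hk : 0 < -B c c := by linarith
  have h3 : (-B c c) * ((-B c c) * (B r e) ^ 2) ≤ (-B c c) * (B r r * (B e c) ^ 2) := by
    nlinarith [hcs]
  exact le_of_mul_le_mul_left h3 hk

/-- The main inequality, abstract form. -/
private theorem Deep_main {V : Type} [AddCommGroup V] [Module ℝ V] {B : V →ₗ[ℝ] V →ₗ[ℝ] ℝ}
    {p₀ : V} (h : ALor B p₀) {p e w r : V} {n C D ε : ℝ} (he : B e e = 0) (hwe : B w e = 0)
    (hpe : B p e = -ε) (hD : |B p p| + 2 * |B p w| + |B w w| ≤ D)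
    (hn : D + |C| * ε ^ 2 + 1 ≤ 2 * n * ε)
    (hrC : B r r ≤ C) (h1 : 0 < B r (p + n • e))
    (h2 : B r (p + n • e + w) < 0) : (B r e) ^ 2 < 1 := by
  have hpe' : B e p = -ε := by rw [h.symm, hpe]
  have hwe' : B e w = 0 := by rw [h.symm, hwe]
  set a := B r (p + n • e) with ha
  have hrw : B r w = B r (p + n • e + w) - a := by rw [map_add]; ring
  set b := -B r (p + n • e + w) with hb
  have hb0 : 0 < b := by linarith
  have hrw' : B r w = -(a + b) := by rw [hrw]; ring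
  have hab : 0 < a + b := by linarith
  set τ := a / (a + b) with hτ
  have hτ0 : 0 ≤ τ := by positivity
  have hτ1 : τ ≤ 1 := by rw [hτ, div_le_one hab]; linarith
  have hrc : B r (p + n • e + τ • w) = 0 := by
    rw [map_add, map_smul, ← ha, hrw', smul_eq_mul, hτ]
    field_simp
    ring
  have hcc : B (p + n • e + τ • w) (p + n • e + τ • w) =
      B p p + 2 * τ * B p w + τ ^ 2 * B w w - 2 * n * ε := by
    simp only [map_add, map_smul, LinearMap.add_apply, LinearMap.smul_apply, smul_eq_mul,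
      he, hwe, hwe', hpe, hpe', h.symm w p]
    ring
  have hec : B e (p + n • e + τ • w) = -ε := by
    simp only [map_add, map_smul, smul_eq_mul, he, hwe', hpe']
    ring
  have hC0 : 0 ≤ |C| * ε ^ 2 := by positivity
  have hτ2 : τ ^ 2 ≤ 1 := by nlinarith
  have b1 : B p p ≤ |B p p| := le_abs_self _
  have b2 : 2 * τ * B p w ≤ 2 * |B p w| := by
    have := le_abs_self (B p w)
    have h0 := abs_nonneg (B p w)
    nlinarith
  have b3 : τ ^ 2 * B w w ≤ |B w w| := by
    have := le_abs_self (B w w)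
    have h0 := abs_nonneg (B w w)
    have h00 : 0 ≤ τ ^ 2 := by positivity
    nlinarith
  have hκ : |C| * ε ^ 2 + 1 ≤ -B (p + n • e + τ • w) (p + n • e + τ • w) := by
    rw [hcc]
    linarith
  have hneg : B (p + n • e + τ • w) (p + n • e + τ • w) < 0 := by linarith
  have hA := Deep_aux h hneg hrc he
  rw [hec] at hA
  have hCC : B r r ≤ |C| := hrC.trans (le_abs_self _)
  have hA2 : B r r * (-ε) ^ 2 ≤ |C| * ε ^ 2 := by
    rw [neg_sq]
    exact mul_le_mul_of_nonneg_right hCC (by positivity)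
  by_contra hcon
  push Not at hcon
  have h5 : (|C| * ε ^ 2 + 1) * 1 ≤
      (-B (p + n • e + τ • w) (p + n • e + τ • w)) * (B r e) ^ 2 :=
    mul_le_mul hκ hcon (by norm_num) (by linarith)
  linarith

variable {ι : Type} [Fintype ι] [DecidableEq ι]

/-- DEEP POINTS.  Let `p` be timelike with `(p,e) < 0`, `e` isotropic, `t ⊥ e`, `(t,t) > 0`, `m ≥
0` an
integer, `C > 0`.  For all large `n`: `p + n e` is timelike, and an integral `r` with `0 < (r,r) ≤
C` separating
`p + n e` from `E_m (p + n e)` is orthogonal to `e`.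

PROOF.  `ε = -(p,e) > 0`, `x = p + n e`: `(x,x) = (p,p) - 2 n ε < 0`.  `E_m x = x + w` with
`w = -2mε t - 2m (p,t) e + 2 m² (t,t) ε e`, independent of `n` (`(x,e) = (p,e)`, `(x,t) = (p,t)`),
`(w,e) = 0`.
`(r,x) > 0 > (r, x + w)`: with `τ = (r,x)/((r,x) - (r,x+w)) ∈ (0,1)`, `c = x + τ w` satisfies
`(r,c) = 0` and
`(c,c) = (p + τw, p + τw) - 2nε ≤ D - 2nε`, `D = |(p,p)| + 2|(p,w)| + |(w,w)|`, and `(c,e) = -ε`.
For `2nε > D` the vector `c` is timelike, and `e' = (c,c) e - (e,c) c = (c,c) e + ε c` is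
orthogonal to `c`,
`(e',e') = 2 ε (c,c)(e,c) + ε²(c,c) = -ε² (c,c)`, `(r,e') = (c,c)(r,e)`.  By `ALor.cs`:
`(c,c)² (r,e)² ≤ (r,r) (-ε²(c,c))`, so `(r,e)² ≤ C ε²/|(c,c)| ≤ C ε²/(2nε - D) < 1` for large `n`;
so
`(r,e) = 0`, being an integer.  So `N` with `2Nε > D + C ε² + 1` and `2 N ε > (p,p)` works. -/
theorem deep {G : Matrix ι ι ℤ} {p₀ : ι → ℝ} (h : Lor G p₀) {p : ι → ℝ} (hp : rB G p p < 0)
    {e t : ι → ℤ} (he : bf G e e = 0) (ht : bf G t e = 0) (hpe : rB G p (rv e) < 0) (m : ℤ)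
    (C : ℝ) :
    ∃ N : ℕ, ∀ n : ℕ, N ≤ n → rB G (p + (n : ℝ) • rv e) (p + (n : ℝ) • rv e) < 0 ∧
      ∀ r : ι → ℤ, 0 < bf G r r → ((bf G r r : ℤ) : ℝ) ≤ C →
        0 < rB G (rv r) (p + (n : ℝ) • rv e) →
        rB G (rv r) (reich G e t m (p + (n : ℝ) • rv e)) < 0 → bf G r e = 0 := by
  have hL := h.alor
  have hee : rB G (rv e) (rv e) = 0 := by rw [rB_rv, he]; simp
  have hte : rB G (rv t) (rv e) = 0 := by rw [rB_rv, ht]; simp
  have het : rB G (rv e) (rv t) = 0 := by rw [hL.symm, hte]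
  set w : ι → ℝ := (2 * m * rB G p (rv e)) • rv t - (2 * m * rB G p (rv t)) • rv e -
    (2 * m ^ 2 * ((bf G t t : ℤ) : ℝ) * rB G p (rv e)) • rv e with hw
  have hwe : rB G w (rv e) = 0 := by
    rw [hw]
    simp only [map_sub, map_smul, LinearMap.sub_apply, LinearMap.smul_apply, smul_eq_mul, hee,
      hte]
    ring
  set ε : ℝ := -rB G p (rv e) with hε
  have hε0 : 0 < ε := by linarith
  have hpe' : rB G p (rv e) = -ε := by rw [hε]; ring
  set D : ℝ := |rB G p p| + 2 * |rB G p w| + |rB G w w| with hD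
  obtain ⟨N, hN⟩ := exists_nat_gt ((D + |C| * ε ^ 2 + 1) / (2 * ε))
  refine ⟨N, fun n hn => ?_⟩
  have hn' : (N : ℝ) ≤ n := by exact_mod_cast hn
  have hbig : D + |C| * ε ^ 2 + 1 ≤ 2 * (n : ℝ) * ε := by
    rw [div_lt_iff₀ (by positivity)] at hN
    nlinarith
  refine ⟨?_, ?_⟩
  · have hxx : rB G (p + (n : ℝ) • rv e) (p + (n : ℝ) • rv e) = rB G p p - 2 * n * ε := by
      simp only [map_add, map_smul, LinearMap.add_apply, LinearMap.smul_apply, smul_eq_mul,
        hee, hpe', hL.symm (rv e) p]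
      ring
    rw [hxx]
    have hD0 : 0 ≤ D := by positivity
    have hC0 : 0 ≤ |C| * ε ^ 2 := by positivity
    have : 0 < (n : ℝ) * ε := by nlinarith
    linarith
  · intro r hr hrC h1 h2
    have hre : reich G e t m (p + (n : ℝ) • rv e) = p + (n : ℝ) • rv e + w := by
      have e1 : rB G (p + (n : ℝ) • rv e) (rv e) = rB G p (rv e) := by
        simp [hee]
      have e2 : rB G (p + (n : ℝ) • rv e) (rv t) = rB G p (rv t) := by
        simp [het]
      simp only [reich, e1, e2, hw]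
      abel
    rw [hre] at h2
    have hrC' : rB G (rv r) (rv r) ≤ C := by rw [rB_rv]; exact hrC
    have key := Deep_main hL hee hwe hpe' (le_refl D) hbig hrC' h1 h2
    rw [rB_rv] at key
    have key' : (bf G r e) ^ 2 < 1 := by exact_mod_cast key
    nlinarith [sq_nonneg (bf G r e), sq_abs (bf G r e), abs_nonneg (bf G r e),
      Int.abs_lt_one_iff.mp (by nlinarith [sq_abs (bf G r e), abs_nonneg (bf G r e)] :
        |bf G r e| < 1)]

end MP_dcc566_gt
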