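import Mathlib
import Pool.Agent.Lib.MP_dcc566_gt.LorA

namespace MP_dcc566_gt

variable {ι : Type} [Fintype ι] [DecidableEq ι]

private theorem Gen_coeff {α : ℝ} (hα : Transcendental ℤ α) (σ : ι ≃ Fin (Fintype.card ι))
    (c : ι → ℤ) (d : ℤ) (h : (d : ℝ) + ∑ j, (c j : ℝ) * α ^ ((σ j : ℕ) + 1) = 0) :
    ∀ j, c j = 0 := by
  intro j
  rw [transcendental_iff] at hα
  have hP : (Polynomial.C d + ∑ j, Polynomial.C (c j) * Polynomial.X ^ ((σ j : ℕ) + 1) :
      Polynomial ℤ) = 0 := by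
    apply hα
    rw [map_add, map_sum, Polynomial.aeval_C]
    simp only [map_mul, map_pow, Polynomial.aeval_X, Polynomial.aeval_C]
    simpa using h
  have h2 := congrArg (fun P : Polynomial ℤ => P.coeff ((σ j : ℕ) + 1)) hP
  simp only [Polynomial.coeff_add, Polynomial.coeff_C_succ, Polynomial.finsetSum_coeff,
    Polynomial.coeff_C_mul_X_pow, Polynomial.coeff_zero, zero_add] at h2
  rw [Finset.sum_eq_single j] at h2
  · simpa using h2
  · intro b _ hb
    rw [if_neg]
    intro hc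
    apply hb
    apply σ.injective
    apply Fin.ext
    omega
  · intro hj
    exact absurd (Finset.mem_univ j) hj

private theorem Gen_lin (G : Matrix ι ι ℤ) (r : ι → ℤ) (w : ι → ℝ) :
    rB G (rv r) w = ∑ j, (((Matrix.vecMul r G) j : ℤ) : ℝ) * w j := by
  rw [rB_apply, Finset.sum_comm]
  refine Finset.sum_congr rfl fun j _ => ?_
  rw [← Finset.sum_mul]
  congr 1
  simp only [Matrix.vecMul, dotProduct, rv]
  push_cast
  rfl

/-- EXISTENCE OF A GENERIC POINT: a timelike `p` with `(p, e) < 0` such that no nonzero integral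
vector is
orthogonal to any of the points `p + n e`, `n ∈ ℤ`.

PROOF.  Fix a transcendental real `α` (e.g. `transcendental_liouvilleNumber`), an equivalence
`σ : ι ≃ Fin (card ι)`, and `w i = α^(σ i + 1)`.  `(q, e) ≠ 0` by `ALor.iso_ne`; let `q' = ± q` with
`(q', e) < 0`, and put `p = q' + δ w` with `δ = 1/N`, `N` large, so that `B p p < 0`, `B p e < 0`
(`B p p = B q q + 2 δ B q' w + δ² B w w`).
For integral `r` and `n`: `N * B r (p + n e) = N (B r q' + n B r e) + Σ_i (G r)_i α^{σ(i)+1}`, a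
polynomial
in `α` with integral coefficients whose coefficients of positive degree are the `(G r)_i`.  If it
vanishes then
`G r = 0` (`Transcendental`: no nonzero rational polynomial vanishes at `α`), and `r = 0` as `det
G ≠ 0`
(`Matrix.eq_zero_of_mulVec_eq_zero`). -/
theorem exists_generic {G : Matrix ι ι ℤ} {q : ι → ℤ} (h : Lor G (rv q)) {e : ι → ℤ}
    (he0 : e ≠ 0) (he : bf G e e = 0) :
    ∃ p : ι → ℝ, rB G p p < 0 ∧ rB G p (rv e) < 0 ∧
      ∀ r : ι → ℤ, r ≠ 0 → ∀ n : ℤ, rB G (rv r) (p + (n : ℝ) • rv e) ≠ 0 := by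
  obtain ⟨α, hα⟩ : ∃ α : ℝ, Transcendental ℤ α :=
    ⟨_, transcendental_liouvilleNumber (m := 2) le_rfl⟩
  have hee : rB G (rv e) (rv e) = 0 := by rw [rB_rv, he]; simp
  have hre0 : rv e ≠ 0 := by
    intro h0
    apply he0
    apply rv_injective
    rw [h0, rv_zero]
  have hqe : rB G (rv q) (rv e) ≠ 0 := h.alor.iso_ne h.neg hee hre0
  -- the sign
  obtain ⟨q', hq1, hq2⟩ : ∃ q' : ι → ℤ, rB G (rv q') (rv q') < 0 ∧ rB G (rv q') (rv e) < 0 := by
    rcases lt_or_gt_of_ne hqe with h1 | h1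
    · exact ⟨q, h.neg, h1⟩
    · refine ⟨-q, ?_, ?_⟩
      · have := h.neg
        rw [rv_neg, map_neg, map_neg, LinearMap.neg_apply, neg_neg]
        exact this
      · rw [rv_neg, map_neg, LinearMap.neg_apply]
        linarith
  set σ := Fintype.equivFin ι with hσ
  set w : ι → ℝ := fun i => α ^ ((σ i : ℕ) + 1) with hw
  -- choice of `δ`
  have hlim : Filter.Tendsto (fun n : ℕ => 1 / ((n : ℝ) + 1)) Filter.atTop (nhds 0) :=
    tendsto_one_div_add_atTop_nhds_zero_nat
  have hl1 : Filter.Tendsto (fun n : ℕ => rB G (rv q') (rv q')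
      + 2 * (1 / ((n : ℝ) + 1)) * rB G (rv q') w + (1 / ((n : ℝ) + 1)) ^ 2 * rB G w w)
      Filter.atTop (nhds (rB G (rv q') (rv q') + 2 * 0 * rB G (rv q') w
        + 0 ^ 2 * rB G w w)) :=
    (((hlim.const_mul 2).mul_const _).const_add _).add ((hlim.pow 2).mul_const _)
  have hl2 : Filter.Tendsto (fun n : ℕ => rB G (rv q') (rv e)
      + (1 / ((n : ℝ) + 1)) * rB G w (rv e)) Filter.atTop
      (nhds (rB G (rv q') (rv e) + 0 * rB G w (rv e))) :=
    (hlim.mul_const _).const_add _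
  have ev1 := hl1.eventually (gt_mem_nhds (show rB G (rv q') (rv q') + 2 * 0 * rB G (rv q') w
        + 0 ^ 2 * rB G w w < 0 by simpa using hq1))
  have ev2 := hl2.eventually (gt_mem_nhds (show rB G (rv q') (rv e) + 0 * rB G w (rv e) < 0 by
    simpa using hq2))
  obtain ⟨N, hN1, hN2⟩ := (ev1.and ev2).exists
  set δ : ℝ := 1 / ((N : ℝ) + 1) with hδ
  refine ⟨rv q' + δ • w, ?_, ?_, ?_⟩
  · have hs := rB_symm h.symm w (rv q')
    have : rB G (rv q' + δ • w) (rv q' + δ • w) = rB G (rv q') (rv q')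
        + 2 * δ * rB G (rv q') w + δ ^ 2 * rB G w w := by
      simp only [map_add, LinearMap.add_apply, map_smul, LinearMap.smul_apply, smul_eq_mul, hs]
      ring
    rw [this]
    exact hN1
  · have : rB G (rv q' + δ • w) (rv e) = rB G (rv q') (rv e) + δ * rB G w (rv e) := by
      simp only [map_add, LinearMap.add_apply, map_smul, LinearMap.smul_apply, smul_eq_mul]
    rw [this]
    exact hN2
  · intro r hr n h0
    have hN0 : ((N : ℝ) + 1) ≠ 0 := by positivity
    have hexp : rB G (rv r) (rv q' + δ • w + (n : ℝ) • rv e) =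
        rB G (rv r) (rv q') + δ * rB G (rv r) w + n * rB G (rv r) (rv e) := by
      simp only [map_add, map_smul, smul_eq_mul]
    rw [hexp, rB_rv, rB_rv, Gen_lin] at h0
    have h1 : (((N + 1 : ℤ) * (bf G r q' + n * bf G r e) : ℤ) : ℝ)
        + ∑ j, (((Matrix.vecMul r G) j : ℤ) : ℝ) * α ^ ((σ j : ℕ) + 1) = 0 := by
      have h2 : ((N : ℝ) + 1) * (((bf G r q' : ℤ) : ℝ)
          + δ * ∑ j, (((Matrix.vecMul r G) j : ℤ) : ℝ) * w j
          + (n : ℝ) * ((bf G r e : ℤ) : ℝ)) = 0 := by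
        rw [h0, mul_zero]
      have h3 : ((N : ℝ) + 1) * δ = 1 := by
        rw [hδ]
        field_simp
      push_cast
      have h4 : ((N : ℝ) + 1) * (((bf G r q' : ℤ) : ℝ)
          + δ * ∑ j, (((Matrix.vecMul r G) j : ℤ) : ℝ) * w j
          + (n : ℝ) * ((bf G r e : ℤ) : ℝ)) =
          ((N : ℝ) + 1) * ((bf G r q' : ℤ) + (n : ℝ) * ((bf G r e : ℤ) : ℝ))
          + (((N : ℝ) + 1) * δ) * ∑ j, (((Matrix.vecMul r G) j : ℤ) : ℝ) * w j := by ring
      rw [h4, h3, one_mul] at h2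
      exact h2
    have h5 := Gen_coeff hα σ (Matrix.vecMul r G) _ h1
    apply hr
    exact Matrix.eq_zero_of_vecMul_eq_zero h.det (funext h5)

end MP_dcc566_gt
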