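import Mathlib
import Pool.Agent.Lib.MP_dcc566_gt.LorA

namespace MP_dcc566_gt

variable {ι : Type} [Fintype ι] [DecidableEq ι]

/-- A positive definite real bilinear form takes bounded values only at finitely many integral
vectors.

PROOF.  If `ι` is empty it is trivial.  `v ↦ Q v v` is continuous on `ι → ℝ` (finite-dimensional),
so it has
a minimum `m > 0` on the compact unit sphere (`IsCompact.exists_isMinOn`, `isCompact_sphere`), hence
`Q v v ≥ m ‖v‖²`.  So `Q (rv r) (rv r) ≤ C` bounds `|r i| ≤ ‖rv r‖ ≤ N` and the set is contained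
in the
finite set `Set.Icc (fun _ => -N) (fun _ => N)` (`Set.finite_Icc`). -/
theorem finite_of_posdef (Q : (ι → ℝ) →ₗ[ℝ] (ι → ℝ) →ₗ[ℝ] ℝ)
    (hQ : ∀ v, v ≠ 0 → 0 < Q v v) (C : ℝ) : {r : ι → ℤ | Q (rv r) (rv r) ≤ C}.Finite := by
  classical
  rcases isEmpty_or_nonempty ι with hι | hι
  · exact Set.toFinite _
  have hcont : Continuous fun v : ι → ℝ => Q v v := by
    have h1 : (fun v : ι → ℝ => Q v v) =
        fun v => ∑ i, v i * Q (fun j => if i = j then 1 else 0) v := by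
      funext v
      conv_lhs => rw [LinearMap.pi_apply_eq_sum_univ Q v]
      rw [LinearMap.sum_apply]
      refine Finset.sum_congr rfl fun i _ => ?_
      rw [LinearMap.smul_apply, smul_eq_mul]
    rw [h1]
    refine continuous_finsetSum _ fun i _ => ?_
    exact (continuous_apply i).mul (LinearMap.continuous_of_finiteDimensional _)
  have hne : (Metric.sphere (0 : ι → ℝ) 1).Nonempty := by
    refine ⟨fun _ => 1, ?_⟩
    rw [mem_sphere_zero_iff_norm]
    simp
  obtain ⟨v₀, hv₀, hmin⟩ := (isCompact_sphere (0 : ι → ℝ) 1).exists_isMinOn hne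
    hcont.continuousOn
  have hv₀1 : ‖v₀‖ = 1 := mem_sphere_zero_iff_norm.1 hv₀
  have hm : 0 < Q v₀ v₀ := hQ v₀ (by
    intro h0
    rw [h0, norm_zero] at hv₀1
    exact zero_ne_one hv₀1)
  have hbd : ∀ v : ι → ℝ, Q v₀ v₀ * ‖v‖ ^ 2 ≤ Q v v := by
    intro v
    rcases eq_or_ne v 0 with h0 | h0
    · rw [h0]
      simp
    · have hn : 0 < ‖v‖ := norm_pos_iff.2 h0
      have h1 : ‖v‖⁻¹ • v ∈ Metric.sphere (0 : ι → ℝ) 1 := by
        rw [mem_sphere_zero_iff_norm, norm_smul, norm_inv, norm_norm]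
        exact inv_mul_cancel₀ hn.ne'
      have h2 : Q v₀ v₀ ≤ Q (‖v‖⁻¹ • v) (‖v‖⁻¹ • v) := hmin h1
      rw [map_smul, map_smul, LinearMap.smul_apply, smul_eq_mul, smul_eq_mul] at h2
      have h3 : ‖v‖ ^ 2 * (‖v‖⁻¹ * (‖v‖⁻¹ * Q v v)) = Q v v := by
        field_simp
      have h4 : 0 < ‖v‖ ^ 2 := by positivity
      nlinarith [mul_le_mul_of_nonneg_left h2 h4.le]
  refine (Set.finite_Icc (fun _ : ι => -⌈1 + C / Q v₀ v₀⌉)
    (fun _ : ι => ⌈1 + C / Q v₀ v₀⌉)).subset ?_
  intro r hr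
  have hr' : Q (rv r) (rv r) ≤ C := hr
  have h1 : ‖(rv r : ι → ℝ)‖ ^ 2 ≤ C / Q v₀ v₀ := by
    rw [le_div_iff₀ hm]
    linarith [hbd (rv r)]
  have h2 : ‖(rv r : ι → ℝ)‖ ≤ 1 + C / Q v₀ v₀ := by
    nlinarith [sq_nonneg (‖(rv r : ι → ℝ)‖ - 1)]
  have h3 : ∀ i, |((r i : ℤ) : ℝ)| ≤ (⌈1 + C / Q v₀ v₀⌉ : ℤ) := by
    intro i
    have h4 : ‖(rv r : ι → ℝ) i‖ ≤ ‖(rv r : ι → ℝ)‖ := norm_le_pi_norm _ i
    exact h4.trans (h2.trans (Int.le_ceil _))
  constructor
  · intro i
    have h5 := (abs_le.1 (h3 i)).1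
    exact_mod_cast h5
  · intro i
    have h5 := (abs_le.1 (h3 i)).2
    exact_mod_cast h5

/-- Finitely many integral vectors `r` have bounded norm and bounded product with a timelike `x`.

PROOF.  Apply `finite_of_posdef` to `Q v w = B v w + (2/|B x x|) B v x * B w x`: for `v = λ x +
v'`, `v' ⊥ x`,
`Q v v = B v' v' + λ² |B x x|`. -/
theorem finite_bdd {G : Matrix ι ι ℤ} {p : ι → ℝ} (h : Lor G p) {x : ι → ℝ}
    (hx : rB G x x < 0) (C D : ℝ) :
    {r : ι → ℤ | ((bf G r r : ℤ) : ℝ) ≤ C ∧ |rB G (rv r) x| ≤ D}.Finite := by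
  have hβ : 0 < -rB G x x := neg_pos.2 hx
  set Q : (ι → ℝ) →ₗ[ℝ] (ι → ℝ) →ₗ[ℝ] ℝ :=
    rB G + (2 / (-rB G x x)) • ((rB G).flip x).smulRight ((rB G).flip x) with hQdef
  have hQv : ∀ v w, Q v w = rB G v w + 2 / (-rB G x x) * (rB G v x * rB G w x) := by
    intro v w
    simp only [hQdef, LinearMap.add_apply, LinearMap.smul_apply, LinearMap.smulRight_apply,
      LinearMap.flip_apply, smul_eq_mul]
  have hQ : ∀ v, v ≠ 0 → 0 < Q v v := by
    intro v hv
    rw [hQv]
    rcases eq_or_ne (rB G v x) 0 with h0 | h0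
    · rw [h0]
      have := h.alor.pos' hx h0 hv
      simpa using this
    · have hx0 : rB G x x ≠ 0 := hx.ne
      set l : ℝ := rB G v x / rB G x x with hl
      have hl0 : l ≠ 0 := div_ne_zero h0 hx0
      have hlx : rB G v x = l * rB G x x := by
        rw [hl]
        field_simp
      have hxv : rB G x v = l * rB G x x := by
        rw [rB_symm h.symm x v, hlx]
      have h1 : rB G (v - l • x) x = 0 := by
        rw [map_sub, LinearMap.sub_apply, map_smul, LinearMap.smul_apply, smul_eq_mul, hlx,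
          sub_self]
      have h2 : 0 ≤ rB G (v - l • x) (v - l • x) := by
        rcases eq_or_ne (v - l • x) 0 with h3 | h3
        · rw [h3]
          simp
        · exact (h.alor.pos' hx h1 h3).le
      have h3 : rB G (v - l • x) (v - l • x) = rB G v v - l ^ 2 * rB G x x := by
        rw [map_sub, map_sub, LinearMap.sub_apply, LinearMap.sub_apply, map_smul, map_smul,
          map_smul, LinearMap.smul_apply, LinearMap.smul_apply, smul_eq_mul, smul_eq_mul,
          smul_eq_mul, smul_eq_mul, hlx, hxv]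
        ring
      have h4 : 2 / (-rB G x x) * (rB G v x * rB G v x) = 2 * l ^ 2 * (-rB G x x) := by
        rw [hlx]
        field_simp
      rw [h4]
      have h5 : 0 < l ^ 2 * (-rB G x x) := mul_pos (by positivity) hβ
      nlinarith
  refine (finite_of_posdef Q hQ (C + 2 / (-rB G x x) * D ^ 2)).subset ?_
  rintro r ⟨h1, h2⟩
  show Q (rv r) (rv r) ≤ C + 2 / (-rB G x x) * D ^ 2
  rw [hQv, rB_rv]
  have h3 : rB G (rv r) x * rB G (rv r) x ≤ D ^ 2 := by
    have h4 := mul_self_le_mul_self (abs_nonneg _) h2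
    rw [abs_mul_abs_self] at h4
    linarith [sq D]
  have h4 : 0 ≤ 2 / (-rB G x x) := by positivity
  linarith [mul_le_mul_of_nonneg_left h3 h4]

/-- Finitely many integral vectors of bounded norm separate two timelike vectors of the same cone.

PROOF.  Let `a = B r x > 0`, `b = -B r y > 0` and `v = b x + a y`.  `B r v = 0` and `v` is timelike:
`B v v = b² B x x + 2 a b B x y + a² B y y < 0`.  Let `x' = (B v v) x - (B x v) v`, `B x' v = 0`,
and
`B r x' = (B v v) a`.  By `ALor.cs`: `(B v v)² a² ≤ (B r r) (B x' x')`, and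
`B x' x' = (B v v)² B x x - (B v v) (B x v)² = (B v v)(B v v B x x - (B x v)²)
 = (B v v) a² (B x x * B y y - (B x y)²)`.
So, dividing by `a² |B v v|`: `|B v v| ≤ (B r r) Δ`, `Δ = (B x y)² - B x x * B y y ≥ 0`; as
`|B v v| ≥ a² |B y y|` this gives `a² |B y y| ≤ C Δ`.  Now use `finite_bdd`. -/
theorem finite_sep {G : Matrix ι ι ℤ} {p : ι → ℝ} (h : Lor G p) {x y : ι → ℝ}
    (hx : rB G x x < 0) (hy : rB G y y < 0) (hxy : rB G x y < 0) (C : ℝ) :
    {r : ι → ℤ | 0 < bf G r r ∧ ((bf G r r : ℤ) : ℝ) ≤ C ∧ 0 < rB G (rv r) x ∧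
      rB G (rv r) y < 0}.Finite := by
  refine (finite_bdd h hx C
    (1 + C * ((rB G x y) ^ 2 - rB G x x * rB G y y) / (-rB G y y))).subset ?_
  rintro r ⟨h0, h1, h2, h3⟩
  refine ⟨h1, ?_⟩
  have hΔ : 0 ≤ (rB G x y) ^ 2 - rB G x x * rB G y y := sub_nonneg.2 (h.alor.rcs hx y)
  have hyy : 0 < -rB G y y := neg_pos.2 hy
  have hN0 : (0 : ℝ) < ((bf G r r : ℤ) : ℝ) := by exact_mod_cast h0
  have hyx : rB G y x = rB G x y := rB_symm h.symm y x
  set R : ι → ℝ := rv r with hR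
  set a : ℝ := rB G R x with ha
  obtain ⟨b, hb⟩ : ∃ b, b = -rB G R y := ⟨_, rfl⟩
  have hb0 : 0 < b := by rw [hb]; linarith
  have hRy : rB G R y = -b := by rw [hb]; ring
  have ha' : rB G R x = a := ha.symm
  obtain ⟨v, hv⟩ : ∃ v, v = b • x + a • y := ⟨_, rfl⟩
  have e1 : rB G R v = 0 := by
    rw [hv, map_add, map_smul, map_smul, smul_eq_mul, smul_eq_mul, hRy, ha']
    ring
  have e2 : rB G x v = b * rB G x x + a * rB G x y := by
    rw [hv, map_add, map_smul, map_smul, smul_eq_mul, smul_eq_mul]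
  have e3 : rB G y v = b * rB G x y + a * rB G y y := by
    rw [hv, map_add, map_smul, map_smul, smul_eq_mul, smul_eq_mul, hyx]
  have e4 : rB G v v = b ^ 2 * rB G x x + 2 * a * b * rB G x y + a ^ 2 * rB G y y := by
    conv_lhs => rw [show rB G v v = rB G (b • x + a • y) v by rw [← hv]]
    rw [map_add, map_smul, map_smul, LinearMap.add_apply, LinearMap.smul_apply,
      LinearMap.smul_apply, smul_eq_mul, smul_eq_mul, e2, e3]
    ring
  have hab : 0 < a * b := mul_pos h2 hb0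
  have hvv1 : a ^ 2 * (-rB G y y) ≤ -rB G v v := by
    rw [e4]
    nlinarith [mul_pos (pow_pos hb0 2) (neg_pos.2 hx), mul_pos hab (neg_pos.2 hxy)]
  have hvv : rB G v v < 0 := by
    have := mul_pos (pow_pos h2 2) hyy
    linarith
  obtain ⟨x', hx'⟩ : ∃ x', x' = rB G v v • x - rB G x v • v := ⟨_, rfl⟩
  have e5 : rB G x' v = 0 := by
    rw [hx', map_sub, map_smul, map_smul, LinearMap.sub_apply, LinearMap.smul_apply,
      LinearMap.smul_apply, smul_eq_mul, smul_eq_mul]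
    ring
  have e6 : rB G R x' = rB G v v * a := by
    rw [hx', map_sub, map_smul, map_smul, smul_eq_mul, smul_eq_mul, e1, ha']
    ring
  have e7 : rB G x' x' = rB G v v * (rB G v v * rB G x x - (rB G x v) ^ 2) := by
    have e8 : rB G x' x = rB G v v * rB G x x - rB G x v * rB G v x := by
      rw [hx', map_sub, map_smul, map_smul, LinearMap.sub_apply, LinearMap.smul_apply,
        LinearMap.smul_apply, smul_eq_mul, smul_eq_mul]
    have e9 : rB G v x = rB G x v := rB_symm h.symm v x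
    conv_lhs => rw [show rB G x' x' = rB G x' (rB G v v • x - rB G x v • v) by rw [← hx']]
    rw [map_sub, map_smul, map_smul, smul_eq_mul, smul_eq_mul, e5, e8, e9]
    ring
  have e10 : rB G v v * rB G x x - (rB G x v) ^ 2 =
      -(a ^ 2 * ((rB G x y) ^ 2 - rB G x x * rB G y y)) := by
    rw [e4, e2]
    ring
  have hcs := h.alor.cs hvv (v := R) (w := x') e1 e5
  rw [e6, e7, e10, hR, rB_rv] at hcs
  have h4 : (-rB G v v) * ((-rB G v v) * a ^ 2) ≤ (-rB G v v) *
      (((bf G r r : ℤ) : ℝ) * ((rB G x y) ^ 2 - rB G x x * rB G y y) * a ^ 2) := by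
    nlinarith
  have h5 := le_of_mul_le_mul_left h4 (neg_pos.2 hvv)
  have h6 := le_of_mul_le_mul_right h5 (pow_pos h2 2)
  have h7 : ((bf G r r : ℤ) : ℝ) * ((rB G x y) ^ 2 - rB G x x * rB G y y) ≤
      C * ((rB G x y) ^ 2 - rB G x x * rB G y y) := mul_le_mul_of_nonneg_right h1 hΔ
  have h8 : a ^ 2 ≤ C * ((rB G x y) ^ 2 - rB G x x * rB G y y) / (-rB G y y) := by
    rw [le_div_iff₀ hyy]
    linarith
  rw [abs_of_pos h2]
  nlinarith [sq_nonneg (a - 1)]

end MP_dcc566_gt
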