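import Mathlib
import Pool.Agent.Lib.MP_dcc566_gt.LorA

namespace MP_dcc566_gt

variable {ι : Type} [Fintype ι] [DecidableEq ι]

/-- Primitive integral vectors. -/
def Prim (r : ι → ℤ) : Prop := ∀ (d : ℤ) (v : ι → ℤ), r = d • v → IsUnit d

/-- Primitive roots of the lattice. -/
structure IsRt (G : Matrix ι ι ℤ) (r : ι → ℤ) : Prop where
  prim : Prim r
  pos : 0 < bf G r r
  dvd : ∀ x, bf G r r ∣ 2 * bf G r x

omit [Fintype ι] [DecidableEq ι] in
private theorem Roots_dvd {r : ι → ℤ} (h : Prim r) {a b : ℤ} (ha : a ≠ 0)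
    (hab : ∀ j, a ∣ b * r j) : a ∣ b := by
  obtain ⟨g, a1, b1, hg, hcop, ha1, hb1⟩ : ∃ g a1 b1 : ℤ, g ≠ 0 ∧ IsCoprime a1 b1 ∧
      a = g * a1 ∧ b = g * b1 := by
    have hg0 : (Int.gcd a b : ℤ) ≠ 0 := by
      intro h0
      have h1 : Int.gcd a b = 0 := by exact_mod_cast h0
      rw [Int.gcd_eq_zero_iff] at h1
      exact ha h1.1
    obtain ⟨a1, ha1⟩ := Int.gcd_dvd_left a b
    obtain ⟨b1, hb1⟩ := Int.gcd_dvd_right a b
    refine ⟨Int.gcd a b, a1, b1, hg0, ?_, ha1, hb1⟩
    have hbez := Int.gcd_eq_gcd_ab a b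
    refine ⟨Int.gcdA a b, Int.gcdB a b, ?_⟩
    apply mul_left_cancel₀ hg0
    calc (Int.gcd a b : ℤ) * (Int.gcdA a b * a1 + Int.gcdB a b * b1)
        = (Int.gcd a b * a1) * Int.gcdA a b + (Int.gcd a b * b1) * Int.gcdB a b := by ring
      _ = (Int.gcd a b : ℤ) * 1 := by rw [← ha1, ← hb1, mul_one]; exact hbez.symm
  have h1 : ∀ j, a1 ∣ r j := by
    intro j
    have h2 := hab j
    rw [ha1, hb1, mul_assoc] at h2
    exact hcop.dvd_of_dvd_mul_left ((mul_dvd_mul_iff_left hg).1 h2)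
  choose v hv using h1
  have hu : IsUnit a1 := h a1 v (by funext j; simp [hv j])
  rw [ha1, hb1]
  exact mul_dvd_mul_left g hu.dvd

omit [DecidableEq ι] in
theorem IsRt.neg {G : Matrix ι ι ℤ} {r : ι → ℤ} (h : IsRt G r) : IsRt G (-r) := by
  refine ⟨?_, ?_, ?_⟩
  · intro d v hv
    exact h.prim d (-v) (by rw [smul_neg, ← hv, neg_neg])
  · rw [bf_neg_left, bf_neg_right, neg_neg]
    exact h.pos
  · intro x
    rw [bf_neg_left, bf_neg_right, neg_neg, bf_neg_left, mul_neg]
    exact (h.dvd x).neg_right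

/-- The image of a root under the reflection in a root is an integral vector which is a root.
(`s = r' - (2 (r,r')/(r,r)) r` as `(r,r) ∣ 2 (r,r')`; `rv s = sr (rv r) (rv r')`; norm preserved;
`2 (s, x) = 2 (r', s_r x)` is divisible by `(r',r') = (s,s)`; if `s = d v` then
`r' = s_r s = d s_r v`, where `s_r v = v - (2 (r,v)/(r,r)) r` is integral, so `d` is a unit.) -/
theorem IsRt.refl {G : Matrix ι ι ℤ} (hG : G.IsSymm) {r r' : ι → ℤ} (h : IsRt G r)
    (h' : IsRt G r') : ∃ s : ι → ℤ, IsRt G s ∧ rv s = sr (rB G) (rv r) (rv r') := by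
  obtain ⟨c, hc⟩ := h.dvd r'
  have hN0 : bf G r r ≠ 0 := h.pos.ne'
  have hss : bf G (r' - c • r) (r' - c • r) = bf G r' r' := by
    rw [bf_sub_left, bf_sub_right, bf_sub_right, bf_smul_left, bf_smul_right, bf_smul_left,
      bf_smul_right, bf_comm G hG r' r]
    linear_combination -c * hc
  refine ⟨r' - c • r, ⟨?_, ?_, ?_⟩, ?_⟩
  · intro d v hv
    obtain ⟨c', hc'⟩ := h.dvd v
    have h1 : bf G r (r' - c • r) = d * bf G r v := by rw [hv, bf_smul_right]
    rw [bf_sub_right, bf_smul_right] at h1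
    have h2 : d * c' = -c := by
      apply mul_left_cancel₀ hN0
      linear_combination -d * hc' - 2 * h1 + hc
    refine h'.prim d (v - c' • r) ?_
    have h3 : r' = d • v + c • r := by rw [← hv, sub_add_cancel]
    rw [h3, smul_sub, smul_smul, h2, neg_smul, sub_neg_eq_add]
  · rw [hss]
    exact h'.pos
  · intro x
    rw [hss]
    obtain ⟨cx, hcx⟩ := h.dvd x
    have h1 : 2 * bf G (r' - c • r) x = 2 * bf G r' (x - cx • r) := by
      rw [bf_sub_left, bf_sub_right, bf_smul_left, bf_smul_right, bf_comm G hG r' r]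
      linear_combination -c * hcx + cx * hc
    rw [h1]
    exact h'.dvd _
  · have h1 : (2 : ℝ) * rB G (rv r) (rv r') = rB G (rv r) (rv r) * (c : ℝ) := by
      rw [rB_rv, rB_rv]
      exact_mod_cast hc
    have h2 : rB G (rv r) (rv r) ≠ 0 := by
      rw [rB_rv]
      exact_mod_cast hN0
    have h3 : 2 * rB G (rv r) (rv r') / rB G (rv r) (rv r) = (c : ℝ) := by
      rw [h1, mul_div_cancel_left₀ _ h2]
    unfold sr
    rw [h3, rv_sub, rv_smul]

/-- Positively proportional primitive vectors are equal.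
(`r ≠ 0` has a coordinate `r i ≠ 0`; `c = r' i/r i = m/n` in lowest terms, `n, m > 0`; `n r' = m
r`; `n ∣ m r j`, so
`n ∣ r j` for all `j`, so `n` is a unit, `n = 1`; likewise `m = 1`.) -/
theorem Prim.eq_of_smul {r r' : ι → ℤ} (h : Prim r) (h' : Prim r') {c : ℝ} (hc : 0 < c)
    (he : rv r' = c • rv r) : r' = r := by
  have hcoord : ∀ j, (r' j : ℝ) = c * (r j : ℝ) := fun j => by
    have := congrFun he j
    simpa [rv] using this
  obtain ⟨i, hi⟩ : ∃ i, r i ≠ 0 := by
    by_contra hcon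
    push Not at hcon
    have h2 := h 2 0 (by funext j; simp [hcon j])
    rw [Int.isUnit_iff] at h2
    omega
  have hi' : r' i ≠ 0 := by
    intro h0
    have h1 := hcoord i
    rw [h0, Int.cast_zero] at h1
    have h2 : (r i : ℝ) ≠ 0 := by exact_mod_cast hi
    exact (mul_ne_zero hc.ne' h2) h1.symm
  have hrel : ∀ j, r i * r' j = r' i * r j := fun j => by
    have h1 : (r i : ℝ) * (r' j : ℝ) = (r' i : ℝ) * (r j : ℝ) := by
      rw [hcoord j, hcoord i]
      ring
    exact_mod_cast h1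
  obtain ⟨e, he1⟩ : r i ∣ r' i := Roots_dvd h hi fun j => ⟨r' j, (hrel j).symm⟩
  obtain ⟨f, hf1⟩ : r' i ∣ r i := Roots_dvd h' hi' fun j => ⟨r j, hrel j⟩
  have hef : e * f = 1 := by
    apply mul_left_cancel₀ hi
    rw [← mul_assoc, ← he1, ← hf1, mul_one]
  have hec : (e : ℝ) = c := by
    have h1 := hcoord i
    rw [he1] at h1
    push_cast at h1
    have h2 : (r i : ℝ) ≠ 0 := by exact_mod_cast hi
    apply mul_left_cancel₀ h2
    rw [h1]
    ring
  have he0 : 0 < e := by
    have : (0 : ℝ) < (e : ℝ) := by rw [hec]; exact hc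
    exact_mod_cast this
  have he2 : e = 1 := by
    have h1 : IsUnit e := IsUnit.of_mul_eq_one f hef
    rw [Int.isUnit_iff] at h1
    omega
  funext j
  apply mul_left_cancel₀ hi
  rw [hrel j, he1, he2, mul_one]

/-- The norm of a primitive root divides `2 det G`.
(`(r,r) ∣ 2 (G r) i` for all `i` — take `x = Pi.single i 1` — hence `(r,r)` divides the
coordinates of
`2 adj(G) (G r) = 2 det(G) r`; as `r` is primitive, `(r,r) ∣ 2 det G`: let `g = gcd ((r,r), 2 det
G)`,
then `(r,r)/g ∣ r i` for all `i`.) -/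
theorem IsRt.bound {G : Matrix ι ι ℤ} (hG : G.IsSymm) (hd : G.det ≠ 0) {r : ι → ℤ}
    (h : IsRt G r) : bf G r r ∣ 2 * G.det := by
  refine Roots_dvd h.prim h.pos.ne' fun j => ?_
  have h1 : ∀ i, bf G r r ∣ 2 * (G.mulVec r) i := fun i => by
    have h2 := h.dvd (Pi.single i 1)
    rwa [bf_comm G hG r (Pi.single i 1), bf_single_left] at h2
  have h3 : (G.adjugate.mulVec (G.mulVec r)) j = G.det * r j := by
    rw [Matrix.mulVec_mulVec, Matrix.adjugate_mul, Matrix.smul_mulVec, Matrix.one_mulVec,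
      Pi.smul_apply, smul_eq_mul]
  rw [mul_assoc, ← h3]
  simp only [Matrix.mulVec, dotProduct]
  rw [Finset.mul_sum]
  refine Finset.dvd_sum fun i _ => ?_
  have h4 : 2 * (G.adjugate j i * ∑ i_1, G i i_1 * r i_1) =
      G.adjugate j i * (2 * (G.mulVec r) i) := by
    simp only [Matrix.mulVec, dotProduct]
    ring
  rw [h4]
  exact (h1 i).mul_left _

omit [DecidableEq ι] in
/-- Every nonzero integral vector is a positive multiple of a primitive vector. -/
theorem exists_prim {r : ι → ℤ} (hr : r ≠ 0) :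
    ∃ (d : ℤ) (s : ι → ℤ), 0 < d ∧ Prim s ∧ r = d • s := by
  set d : ℤ := Finset.univ.gcd r with hdef
  have hdvd : ∀ i, d ∣ r i := fun i => Finset.gcd_dvd (Finset.mem_univ i)
  have hd0 : d ≠ 0 := by
    intro h0
    apply hr
    funext i
    exact (Finset.gcd_eq_zero_iff.1 h0) i (Finset.mem_univ i)
  have hdpos : 0 < d := by
    have h1 : normalize d = d := Finset.normalize_gcd
    exact lt_of_le_of_ne (Int.nonneg_of_normalize_eq_self h1) (Ne.symm hd0)
  choose s hs using hdvd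
  refine ⟨d, s, hdpos, ?_, ?_⟩
  · intro e v hv
    have h1 : d * e ∣ d := by
      have h2 : d * e ∣ Finset.univ.gcd r := by
        refine Finset.dvd_gcd fun i _ => ?_
        rw [hs i, hv]
        exact ⟨v i, by rw [Pi.smul_apply, smul_eq_mul]; ring⟩
      exact h2
    obtain ⟨f, hf⟩ := h1
    refine IsUnit.of_mul_eq_one f ?_
    apply mul_left_cancel₀ hd0
    rw [← mul_assoc, ← hf, mul_one]
  · funext i
    rw [Pi.smul_apply, smul_eq_mul, hs i]

end MP_dcc566_gt
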