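import Mathlib
import Pool.Agent.Lib.MP_dcc566_gt.Fin
import Pool.Agent.Lib.MP_dcc566_gt.Roots

namespace MP_dcc566_gt

variable {ι : Type} [Fintype ι] [DecidableEq ι]

/-- The set of primitive roots, as real vectors. -/
def PhiSet (G : Matrix ι ι ℤ) : Set (ι → ℝ) := {v | ∃ r : ι → ℤ, IsRt G r ∧ v = rv r}

/-- Generic points of the cone of `p`. -/
def OmSet (G : Matrix ι ι ℤ) (p : ι → ℝ) : Set (ι → ℝ) :=
  {x | rB G x x < 0 ∧ rB G x p < 0 ∧ ∀ v ∈ PhiSet G, rB G v x ≠ 0}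

/-- The primitive roots and the generic points of one cone satisfy the axioms `RD`.

PROOF.  `symm`: `rB_symm`.  `pos`: `rB_rv`.  `neg`, `refl`, `red`: `IsRt.neg`, `IsRt.refl`,
`Prim.eq_of_smul`.
`stab`: `ALor.sr_cone` and `ALor.trans` (`(s_r x, x) < 0`, `(x, p) < 0`, so `(s_r x, p) < 0`),
genericity by
`B_sr_left` and `refl`.  `fin`: `finite_sep` with `C = |2 det G|` (`IsRt.bound`, `Int.le_of_dvd`),
image under `rv`;
two points of the cone satisfy `(x,y) < 0` by `ALor.trans`.  `seg`: `ALor.conv` and `ALor.pos'`. -/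
theorem rd_lattice {G : Matrix ι ι ℤ} {p₀ : ι → ℝ} (h : Lor G p₀) {p : ι → ℝ}
    (hp : rB G p p < 0) : RD (rB G) (PhiSet G) (OmSet G p) := by
  have ha := h.alor
  have hs : ∀ x y, rB G x y = rB G y x := rB_symm h.symm
  have hpos : ∀ r ∈ PhiSet G, 0 < rB G r r := by
    rintro r ⟨a, hA, rfl⟩
    rw [rB_rv]
    exact_mod_cast hA.pos
  have hrefl : ∀ r ∈ PhiSet G, ∀ r' ∈ PhiSet G, sr (rB G) r r' ∈ PhiSet G := by
    rintro r ⟨a, hA, rfl⟩ r' ⟨b, hB, rfl⟩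
    obtain ⟨s, hS, he⟩ := IsRt.refl h.symm hA hB
    exact ⟨s, hS, he.symm⟩
  have hxy : ∀ x ∈ OmSet G p, ∀ y ∈ OmSet G p, rB G x y < 0 := by
    intro x hx y hy
    refine ha.trans hx.1 hp hy.1 hx.2.1 ?_
    rw [hs]
    exact hy.2.1
  refine
    { symm := hs
      pos := hpos
      neg := ?_
      refl := hrefl
      red := ?_
      gen := fun x hx r hr => hx.2.2 r hr
      stab := ?_
      fin := ?_
      seg := ?_ }
  · rintro r ⟨a, hA, rfl⟩
    exact ⟨-a, hA.neg, (rv_neg a).symm⟩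
  · rintro r ⟨a, hA, rfl⟩ r' ⟨b, hB, rfl⟩ c hc he
    rw [Prim.eq_of_smul hA.prim hB.prim hc he]
  · intro x hx r hr
    have h1 := ha.sr_cone hx.1 (hpos r hr)
    refine ⟨h1.1, ?_, ?_⟩
    · refine ha.trans h1.1 hx.1 hp ?_ hx.2.1
      rw [hs]
      exact h1.2
    · intro v hv
      rw [← B_sr_left hs r v x]
      exact hx.2.2 _ (hrefl r hr v hv)
  · intro x hx y hy
    have hf := finite_sep h hx.1 hy.1 (hxy x hx y hy) ((|2 * G.det| : ℤ) : ℝ)
    refine (hf.image rv).subset ?_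
    rintro r ⟨⟨a, hA, rfl⟩, h1, h2⟩
    refine ⟨a, ⟨hA.pos, ?_, h1, h2⟩, rfl⟩
    have hd := hA.bound h.symm h.det
    have hne : 2 * G.det ≠ 0 := mul_ne_zero two_ne_zero h.det
    have hle : bf G a a ≤ |2 * G.det| :=
      Int.le_of_dvd (abs_pos.mpr hne) ((dvd_abs _ _).mpr hd)
    exact_mod_cast hle
  · intro x hx y hy c hc0 hc1 v hv hv0
    exact ha.pos' (ha.conv hx.1 hy.1 (hxy x hx y hy) hc0.le hc1.le) hv hv0

end MP_dcc566_gt
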