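import Mathlib
import Pool.Agent.Lib.MP_dcc566_gt.Roots

namespace MP_dcc566_gt

variable {ι : Type} [Fintype ι] [DecidableEq ι]

omit [Fintype ι] [DecidableEq ι] in
private theorem Words_dvd {s : ι → ℤ} (hs : Prim s) {m c : ℤ} (h : ∀ i, m ∣ c * s i)
    (hm : m ≠ 0) : m ∣ c := by
  have hg : 0 < Int.gcd m c := Int.gcd_pos_of_ne_zero_left c hm
  obtain ⟨m', c', hco, hm', hc'⟩ := Int.exists_gcd_one hg
  generalize Int.gcd m c = e at hg hm' hc'
  have hco' : IsCoprime m' c' := Int.isCoprime_iff_gcd_eq_one.2 hco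
  have h1 : ∀ i, m' ∣ s i := by
    intro i
    have h2 := h i
    rw [hm', hc'] at h2
    have h3 : m' * (e : ℤ) ∣ (c' * s i) * (e : ℤ) := by
      have h5 : (c' * s i) * (e : ℤ) = c' * (e : ℤ) * s i := by ring
      rw [h5]
      exact h2
    have h4 : m' ∣ c' * s i := by
      refine Int.dvd_of_mul_dvd_mul_right ?_ h3
      exact_mod_cast hg.ne'
    exact hco'.dvd_of_dvd_mul_left h4
  choose v hv using h1
  have hu : IsUnit m' := hs m' v (by
    funext i
    rw [hv i]
    simp)
  have h5 : m' ∣ c' := hu.dvd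
  rw [hm', hc']
  exact mul_dvd_mul_right h5 _

/-- A reflection of the lattice is the reflection in a primitive root.

PROOF.  Write `r = d s`, `s` primitive, `d > 0` (`exists_prim`; `r ≠ 0` as `bf r r > 0`).
`(s,s) g x = (s,s) x - 2 (s,x) s` (cancel `d²`).  For the divisibility `(s,s) ∣ 2 (s,x)`: the vector
`2 (s,x) s = (s,s) (x - g x)` is divisible by `(s,s)`; with `m = (s,s)`, `c = 2 (s,x)`, `g =
gcd(m,c)`,
`m/g` divides all coordinates of `s`, so is a unit, so `m ∣ c`. -/
theorem IsReflectionIn.exists_rt {G : Matrix ι ι ℤ} {g : (ι → ℤ) ≃ₗ[ℤ] (ι → ℤ)} {r : ι → ℤ}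
    (h : IsReflectionIn G g r) :
    ∃ s : ι → ℤ, IsRt G s ∧ ∀ x, rv (g x) = sr (rB G) (rv s) (rv x) := by
  obtain ⟨hpos, hg⟩ := h
  have hr0 : r ≠ 0 := by
    rintro rfl
    rw [bf_zero_left] at hpos
    exact lt_irrefl _ hpos
  obtain ⟨d, s, hd, hs, rfl⟩ := exists_prim hr0
  have hrr : bf G (d • s) (d • s) = d * d * bf G s s := by
    rw [bf_smul_left, bf_smul_right]
    ring
  rw [hrr] at hpos hg
  have hdd : 0 < d * d := mul_pos hd hd
  have hm : 0 < bf G s s := by
    rcases lt_or_ge 0 (bf G s s) with h | h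
    · exact h
    · exact absurd hpos (not_lt.2 (mul_nonpos_of_nonneg_of_nonpos hdd.le h))
  have key : ∀ x i, bf G s s * g x i = bf G s s * x i - 2 * bf G s x * s i := by
    intro x i
    have h1 := congrFun (hg x) i
    simp only [Pi.smul_apply, Pi.sub_apply, smul_eq_mul] at h1
    rw [bf_smul_left] at h1
    have h2 : (d * d) * (bf G s s * g x i - (bf G s s * x i - 2 * bf G s x * s i)) = 0 := by
      linear_combination h1
    rcases mul_eq_zero.1 h2 with h3 | h3
    · exact absurd h3 hdd.ne'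
    · linarith
  refine ⟨s, ⟨hs, hm, ?_⟩, ?_⟩
  · intro x
    refine Words_dvd hs (fun i => ?_) hm.ne'
    refine ⟨x i - g x i, ?_⟩
    have := key x i
    linarith
  · intro x
    funext i
    have hmR : ((bf G s s : ℤ) : ℝ) ≠ 0 := by exact_mod_cast hm.ne'
    have h1 : ((bf G s s : ℤ) : ℝ) * (g x i : ℝ)
        = ((bf G s s : ℤ) : ℝ) * (x i : ℝ) - 2 * ((bf G s x : ℤ) : ℝ) * (s i : ℝ) := by
      exact_mod_cast key x i
    simp only [sr, rB_rv, rv, Pi.sub_apply, Pi.smul_apply, smul_eq_mul]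
    field_simp
    linarith

private theorem Words_rev {G : Matrix ι ι ℤ} (l : List (ι → ℤ)) (hl : ∀ r ∈ l, IsRt G r)
    (y : ι → ℝ) : act (rB G) (l.reverse.map rv) (act (rB G) (l.map rv) y) = y := by
  induction l generalizing y with
  | nil => rfl
  | cons r l ih =>
    have hr : rB G (rv r) (rv r) ≠ 0 := by
      rw [rB_rv]
      exact_mod_cast (hl r (List.mem_cons_self ..)).pos.ne'
    rw [List.reverse_cons, List.map_append, act_append, List.map_cons, List.map_cons, List.map_nil,
      act_cons, act_cons, act_nil, sr_sr hr]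
    exact ih (fun r' hr' => hl r' (List.mem_cons_of_mem _ hr')) y

/-- The elements of the reflection group are words in primitive roots.
(`Subgroup.closure_induction`; the inverse of `s₁ ⋯ s_k` is `s_k ⋯ s₁`, see `act_reverse_act`-type
computation with `sr_sr`, `act_append`.) -/
theorem exists_word {G : Matrix ι ι ℤ} (hG : G.IsSymm) (g : isoGroup G)
    (hg : g ∈ reflGroup G) :
    ∃ l : List (ι → ℤ), (∀ r ∈ l, IsRt G r) ∧
      ∀ x : ι → ℤ, rv (g.1 x) = act (rB G) (l.map rv) (rv x) := by
  unfold reflGroup at hg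
  induction hg using Subgroup.closure_induction with
  | mem g hg =>
    obtain ⟨r, hr⟩ := hg
    obtain ⟨s, hs, hx⟩ := hr.exists_rt
    refine ⟨[s], ?_, ?_⟩
    · intro r' hr'
      rw [List.mem_singleton] at hr'
      rw [hr']
      exact hs
    · intro x
      rw [hx x]
      rfl
  | one => exact ⟨[], by simp, fun x => rfl⟩
  | mul a b _ _ iha ihb =>
    obtain ⟨la, hla, ha⟩ := iha
    obtain ⟨lb, hlb, hb⟩ := ihb
    refine ⟨la ++ lb, ?_, ?_⟩
    · intro r hr
      rcases List.mem_append.1 hr with h | h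
      · exact hla r h
      · exact hlb r h
    · intro x
      rw [List.map_append, act_append, ← hb x, ← ha (b.1 x)]
      rfl
  | inv a _ iha =>
    obtain ⟨la, hla, ha⟩ := iha
    refine ⟨la.reverse, ?_, ?_⟩
    · intro r hr
      exact hla r (List.mem_reverse.1 hr)
    · intro x
      have h1 : a.1 ((a⁻¹).1 x) = x := by
        have h2 : (a * a⁻¹).1 x = x := by
          rw [mul_inv_cancel]
          rfl
        exact h2
      have h3 := ha ((a⁻¹).1 x)
      rw [h1] at h3
      rw [h3, Words_rev la hla]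

end MP_dcc566_gt
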