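import Mathlib
import Pool.Agent.Lib.MP_dcc566_gt.ChD
import Pool.Agent.Lib.MP_dcc566_gt.RDat
import Pool.Agent.Lib.MP_dcc566_gt.Words
import Pool.Agent.Lib.MP_dcc566_gt.Deep
import Pool.Agent.Lib.MP_dcc566_gt.Gen

namespace MP_dcc566_gt

variable {ι : Type} [Fintype ι] [DecidableEq ι]

/-- THE CRITERION.  A lattice of signature `(n,1)` with a bad cusp is not reflective.

PROOF.  Suppose `reflGroup G` has finite index.  `exists_eich` gives `g ∈ isoGroup G` with `g^n =
E_n`; by finite
index there is `m ≥ 1` with `g^m ∈ reflGroup G` (`Subgroup.exists_pow_mem_of_index_ne_zero`). 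
`exists_word`
gives a word `l` of primitive roots with `rv (g^m x) = act (l.map rv) (rv x)`, and by `act_eq_reich`
`act (l.map rv) x = reich G e t m x` for all real `x`.
`exists_generic` gives `p`; `deep` (with `C = |2 det G|`) gives `n` such that `x = p + n e` is
timelike and roots
separating `x` from `E_m x` are orthogonal to `e`.  `x ∈ OmSet G p`: `(x,p) = (p,p) + n (e,p) <
0`, genericity
from `exists_generic` (primitive roots are `≠ 0`).
`Dset x (act l x) = ∅`: let `r` be a root in it; `(r,r) ≤ C` by `IsRt.bound`; so `(r,e) = 0` by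
`deep`, so `(r,t) = 0`
by the hypothesis on `e, t`.  Then `(r, E_m x) = (r,x) + 2m(x,e)(r,t) - … (r,e) = (r,x) > 0`,
contradiction.
By `free`, `act l y = y` for all `y`, in particular `reich G e t m (rv t) = rv t`; but
`E_m t = t - 2 m (t,t) e ≠ t` since `m ≥ 1`, `(t,t) > 0`, `e ≠ 0`. -/
theorem not_reflective_of_cuspBad {G : Matrix ι ι ℤ} {q : ι → ℤ} (h : Lor G (rv q))
    (hb : CuspBad G) : ¬ Reflective G := by
  intro hR
  obtain ⟨e, t, he0, hee, hte, htt, hroot⟩ := hb
  obtain ⟨g, hg⟩ := exists_eich h.symm hee hte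
  have hfi : (reflGroup G).FiniteIndex := hR
  obtain ⟨m, hm0, -, hmem⟩ := Subgroup.exists_pow_mem_of_index_ne_zero hfi.index_ne_zero g
  obtain ⟨l, hl, hlx⟩ := exists_word h.symm (g ^ m) hmem
  have hact : ∀ x, act (rB G) (l.map rv) x = reich G e t (m : ℤ) x := by
    refine act_eq_reich (n := (m : ℤ)) (fun x => act (rB G) (l.map rv) x)
      (fun x y => act_add _ x y) (fun c x => act_smul _ c x) ?_
    intro x
    rw [← hg m x]
    exact hlx x
  obtain ⟨p, hp, hpe, hgen⟩ := exists_generic h he0 hee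
  obtain ⟨N, hN⟩ := deep h hp hee hte hpe (m : ℤ) (((|2 * G.det| : ℤ) : ℝ))
  obtain ⟨h1, h2⟩ := hN N le_rfl
  have hRD := rd_lattice h hp
  have hs := rB_symm h.symm
  have hxO : p + (N : ℝ) • rv e ∈ OmSet G p := by
    refine ⟨h1, ?_, ?_⟩
    · have h3 : rB G (p + (N : ℝ) • rv e) p = rB G p p + (N : ℝ) * rB G p (rv e) := by
        rw [map_add, LinearMap.add_apply, map_smul, LinearMap.smul_apply, smul_eq_mul,
          hs (rv e) p]
      rw [h3]
      have h4 : (N : ℝ) * rB G p (rv e) ≤ 0 :=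
        mul_nonpos_of_nonneg_of_nonpos (Nat.cast_nonneg N) hpe.le
      linarith
    · rintro v ⟨r, hr, rfl⟩
      have hr0 : r ≠ 0 := by
        rintro rfl
        have := hr.pos
        rw [bf_zero_left] at this
        exact lt_irrefl _ this
      have h3 := hgen r hr0 (N : ℤ)
      rwa [Int.cast_natCast] at h3
  have hD : Dset (rB G) (PhiSet G) (p + (N : ℝ) • rv e)
      (act (rB G) (l.map rv) (p + (N : ℝ) • rv e)) = ∅ := by
    rw [Set.eq_empty_iff_forall_notMem]
    rintro _ ⟨⟨r, hr, rfl⟩, hr1, hr2⟩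
    rw [hact] at hr2
    have hd := hr.bound h.symm h.det
    have hne : 2 * G.det ≠ 0 := mul_ne_zero two_ne_zero h.det
    have hle : bf G r r ≤ |2 * G.det| :=
      Int.le_of_dvd (abs_pos.mpr hne) ((dvd_abs _ _).mpr hd)
    have hre := h2 r hr.pos (by exact_mod_cast hle) hr1 hr2
    have hrt := hroot r hr.pos hr.dvd hre
    have h3 : rB G (rv r) (reich G e t (m : ℤ) (p + (N : ℝ) • rv e)) =
        rB G (rv r) (p + (N : ℝ) • rv e) := by
      rw [reich]
      rw [map_sub, map_sub, map_add (rB G (rv r)) (p + (N : ℝ) • rv e), map_smul, map_smul,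
        map_smul, rB_rv G r t, rB_rv G r e, hre, hrt]
      simp
    rw [h3] at hr2
    linarith
  have hfix := free hRD hxO (l.map rv) (by
    intro v hv
    obtain ⟨r, hr, rfl⟩ := List.mem_map.1 hv
    exact ⟨r, hl r hr, rfl⟩) hD (rv t)
  rw [hact, reich, rB_rv, rB_rv, hte] at hfix
  have h5 : (2 * (m : ℝ) * ((bf G t t : ℤ) : ℝ)) • rv e = 0 := by
    have h6 := hfix
    simp only [Int.cast_zero, mul_zero, zero_smul, add_zero, sub_zero, Int.cast_natCast] at h6
    exact sub_eq_self.1 h6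
  rcases smul_eq_zero.1 h5 with h6 | h6
  · have h7 : (0 : ℝ) < 2 * (m : ℝ) * ((bf G t t : ℤ) : ℝ) := by
      have h8 : (0 : ℝ) < (m : ℝ) := by exact_mod_cast hm0
      have h9 : (0 : ℝ) < ((bf G t t : ℤ) : ℝ) := by exact_mod_cast htt
      positivity
    exact h7.ne' h6
  · exact he0 (rv_injective (h6.trans rv_zero.symm))

end MP_dcc566_gt
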