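import Mathlib
import Pool.Agent.Lib.MP_dcc566_gt.E8F

namespace MP_dcc566_gt

open Matrix

theorem LorLG_rB_bf {ι : Type} [Fintype ι] [DecidableEq ι] (G : Matrix ι ι ℤ) (x y : ι → ℝ) :
    rB G x y = bf (G.map (Int.cast : ℤ → ℝ)) x y := by
  rw [rB_apply, bf_eq_sum]
  rfl

theorem LorLG_bf_UG (a b a' b' : ℝ) :
    bf (UG.map (Int.cast : ℤ → ℝ)) ![a, b] ![a', b'] = a * b' + b * a' := by
  simp [bf, UG, dotProduct, mulVec, Fin.sum_univ_two]

theorem LorLG_map {k : ℕ} (K : Matrix (Fin k) (Fin k) ℤ) :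
    (LG K).map (Int.cast : ℤ → ℝ) =
      fromBlocks (UG.map (Int.cast : ℤ → ℝ)) 0 0
        (fromBlocks (E8.map (Int.cast : ℤ → ℝ)) 0 0
          (fromBlocks (E8.map (Int.cast : ℤ → ℝ)) 0 0 (K.map (Int.cast : ℤ → ℝ)))) := by
  unfold LG
  simp [fromBlocks_map]

theorem LorLG_mk {k : ℕ} (K : Matrix (Fin k) (Fin k) ℤ) (a b a' b' : ℝ)
    (u₁ u₂ u₁' u₂' : Fin 8 → ℝ) (z z' : Fin k → ℝ) :
    rB (LG K) (mk a b u₁ u₂ z) (mk a' b' u₁' u₂' z') =
      a * b' + b * a' + bf (E8.map (Int.cast : ℤ → ℝ)) u₁ u₁'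
        + bf (E8.map (Int.cast : ℤ → ℝ)) u₂ u₂' + rB K z z' := by
  rw [LorLG_rB_bf, LorLG_rB_bf, LorLG_map]
  unfold mk
  rw [bf_fromBlocks, bf_fromBlocks, bf_fromBlocks, LorLG_bf_UG]
  ring

theorem LorLG_rv {k : ℕ} :
    rv (mk 1 (-1) 0 0 0 : Idx k → ℤ) = (mk 1 (-1) 0 0 0 : Idx k → ℝ) := by
  funext i
  rcases i with i | i | i | i
  · fin_cases i <;> simp [rv, mk]
  · simp [rv, mk]
  · simp [rv, mk]
  · simp [rv, mk]

theorem LorLG_nonneg (u : Fin 8 → ℝ) : 0 ≤ bf (E8.map (Int.cast : ℤ → ℝ)) u u := by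
  by_cases h : u = 0
  · subst h; rw [bf_zero_left]
  · exact (E8_pos_real u h).le

theorem LorLG_det {k : ℕ} {K : Matrix (Fin k) (Fin k) ℤ}
    (hp : ∀ z : Fin k → ℝ, z ≠ 0 → 0 < rB K z z) : (LG K).det ≠ 0 := by
  unfold LG
  rw [det_fromBlocks_zero₂₁, det_fromBlocks_zero₂₁, det_fromBlocks_zero₂₁]
  have h1 : UG.det ≠ 0 := by
    simp [UG, det_fin_two]
  have h2 : (E8 : Matrix (Fin 8) (Fin 8) ℤ).det ≠ 0 := by
    rw [CartanMatrix.E₈_det]; exact one_ne_zero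
  have h3 : K.det ≠ 0 := by
    intro h
    obtain ⟨z, hz, hz'⟩ := exists_mulVec_eq_zero_iff.2 h
    have h0 : rv z ≠ 0 := by
      intro h'
      exact hz (rv_injective (h'.trans rv_zero.symm))
    have := hp (rv z) h0
    rw [rB_rv, bf, hz', dotProduct_zero] at this
    simp at this
  exact mul_ne_zero h1 (mul_ne_zero h2 (mul_ne_zero h2 h3))

/-- `U ⊕ E₈ ⊕ E₈ ⊕ K` is Lorentzian when `K` is positive definite; timelike vector `e - f = mk 1
(-1) 0 0 0`.

PROOF.  `symm`: `LG_symm`.  `det`: `det (LG K) = det UG * det E8 * det E8 * det K = - det K`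
(`det_fromBlocks_zero₂₁`, `CartanMatrix.E₈_det`), and `det K ≠ 0` because `K` is positive definite
over `ℝ`
(if `K z = 0`, `z` rational non-zero…, `Matrix.exists_mulVec_eq_zero_iff` over `ℤ`: an integral `z
≠ 0` with `K z = 0`
has `rB K (rv z) (rv z) = 0`).  `neg`: the norm of `e - f` is `-2`.  `pos`: a real vector `v = mk
a b u₁ u₂ z`
(`exists_mk`) has `rB v v = 2ab + (u₁,u₁) + (u₂,u₂) + (z,z)`, `rB v (e - f) = b - a`; so `a = b`
and the norm is
`2a² + (u₁,u₁) + (u₂,u₂) + (z,z) > 0` (`E8_pos_real`). -/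
theorem lor_LG {k : ℕ} {K : Matrix (Fin k) (Fin k) ℤ} (hs : K.IsSymm)
    (hp : ∀ z : Fin k → ℝ, z ≠ 0 → 0 < rB K z z) :
    Lor (LG K) (rv (mk 1 (-1) 0 0 0)) := by
  refine ⟨LG_symm hs, LorLG_det hp, ?_, ?_⟩
  · rw [LorLG_rv, LorLG_mk, bf_zero_left, map_zero]
    norm_num
  · intro v hv hv0
    obtain ⟨a, b, u₁, u₂, z, rfl⟩ := exists_mk v
    rw [LorLG_rv, LorLG_mk, bf_zero_right, bf_zero_right, map_zero] at hv
    have hab : b = a := by linarith
    subst hab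
    rw [LorLG_mk]
    have hu1 := LorLG_nonneg u₁
    have hu2 := LorLG_nonneg u₂
    have hz : 0 ≤ rB K z z := by
      by_cases h : z = 0
      · subst h; simp
      · exact (hp z h).le
    have hb : 0 ≤ b * b := mul_self_nonneg b
    by_cases h1 : u₁ = 0
    · by_cases h2 : u₂ = 0
      · by_cases h3 : z = 0
        · have h4 : b ≠ 0 := by
            intro h4
            apply hv0
            subst h1 h2 h3 h4
            funext i
            rcases i with i | i | i | i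
            · fin_cases i <;> rfl
            · rfl
            · rfl
            · rfl
          have := mul_self_pos.2 h4
          linarith
        · have := hp z h3
          linarith
      · have := E8_pos_real u₂ h2
        linarith
    · have := E8_pos_real u₁ h1
      linarith

/-- Rank one. -/
theorem real_pos_one {K : Matrix (Fin 1) (Fin 1) ℤ} (h : ∀ z : Fin 1 → ℤ, z ≠ 0 → 0 < bf K z z) :
    ∀ z : Fin 1 → ℝ, z ≠ 0 → 0 < rB K z z := by
  intro z hz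
  have h1 : (0 : ℤ) < K 0 0 := by
    have := h ![1] (by intro h'; simpa using congrFun h' 0)
    simpa [bf_eq_sum] using this
  have h2 : z 0 ≠ 0 := by
    intro h'
    apply hz
    funext i
    fin_cases i
    exact h'
  have h3 : (0 : ℝ) < (K 0 0 : ℝ) := by exact_mod_cast h1
  rw [rB_apply]
  simp only [Finset.univ_unique, Fin.default_eq_zero, Fin.isValue, Finset.sum_singleton]
  have h4 : 0 < z 0 * z 0 := mul_self_pos.2 h2
  have h5 : z 0 * (K 0 0 : ℝ) * z 0 = (K 0 0 : ℝ) * (z 0 * z 0) := by ring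
  rw [h5]
  exact mul_pos h3 h4

/-- Rank two: with `K = [α, β; β, γ]`: `α > 0` (`z = ![1,0]`) and `α γ - β² > 0` (`z = ![β, -α]`
has norm
`α (α γ - β²)`); then `α (z,z) = (α z0 + β z1)² + (α γ - β²) z1²`. -/
theorem real_pos_two {K : Matrix (Fin 2) (Fin 2) ℤ} (hs : K.IsSymm)
    (h : ∀ z : Fin 2 → ℤ, z ≠ 0 → 0 < bf K z z) :
    ∀ z : Fin 2 → ℝ, z ≠ 0 → 0 < rB K z z := by
  intro z hz
  have hsym : K 1 0 = K 0 1 := hs.apply 0 1
  have h1 : (0 : ℤ) < K 0 0 := by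
    have := h ![1, 0] (by intro h'; simpa using congrFun h' 0)
    simpa [bf_eq_sum, Fin.sum_univ_two] using this
  have h2 : (0 : ℤ) < K 0 0 * (K 0 0 * K 1 1 - K 0 1 * K 0 1) := by
    have := h ![K 0 1, -K 0 0] (by
      intro h'
      have := congrFun h' 1
      simp at this
      omega)
    simp only [bf_eq_sum, Fin.sum_univ_two, Matrix.cons_val_zero, Matrix.cons_val_one,
      Matrix.cons_val_fin_one, hsym] at this
    linarith
  have h3 : (0 : ℤ) < K 0 0 * K 1 1 - K 0 1 * K 0 1 := by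
    exact (mul_pos_iff_of_pos_left h1).1 h2
  have h1' : (0 : ℝ) < (K 0 0 : ℝ) := by exact_mod_cast h1
  have h3' : (0 : ℝ) < (K 0 0 : ℝ) * (K 1 1 : ℝ) - (K 0 1 : ℝ) * (K 0 1 : ℝ) := by
    exact_mod_cast h3
  have hr : rB K z z = z 0 * (K 0 0 : ℝ) * z 0 + z 0 * (K 0 1 : ℝ) * z 1 +
      (z 1 * (K 0 1 : ℝ) * z 0 + z 1 * (K 1 1 : ℝ) * z 1) := by
    rw [rB_apply]
    simp only [Fin.sum_univ_two, hsym]
  have hmul : (K 0 0 : ℝ) * rB K z z = ((K 0 0 : ℝ) * z 0 + (K 0 1 : ℝ) * z 1) ^ 2 +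
      ((K 0 0 : ℝ) * (K 1 1 : ℝ) - (K 0 1 : ℝ) * (K 0 1 : ℝ)) * z 1 ^ 2 := by
    rw [hr]; ring
  have hpos : 0 < (K 0 0 : ℝ) * rB K z z := by
    rw [hmul]
    by_cases h4 : z 1 = 0
    · have h5 : z 0 ≠ 0 := by
        intro h5
        apply hz
        funext i
        fin_cases i
        · exact h5
        · exact h4
      rw [h4]
      have : 0 < ((K 0 0 : ℝ) * z 0 + (K 0 1 : ℝ) * 0) ^ 2 := by
        apply sq_pos_of_ne_zero
        rw [mul_zero, add_zero]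
        exact mul_ne_zero h1'.ne' h5
      nlinarith [this]
    · have h5 : 0 < z 1 ^ 2 := by positivity
      have h6 := mul_pos h3' h5
      have h7 := sq_nonneg ((K 0 0 : ℝ) * z 0 + (K 0 1 : ℝ) * z 1)
      linarith
  exact (mul_pos_iff_of_pos_left h1').1 hpos

end MP_dcc566_gt
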