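import Mathlib
import Pool.Agent.Lib.MP_dcc566_gt.Cusp

namespace MP_dcc566_gt

open Matrix

/-- `bf` after a change of basis. -/
theorem bf_conj {m n : Type} [Fintype m] [Fintype n] (K : Matrix m m ℤ) (P : Matrix m n ℤ)
    (x y : n → ℤ) : bf (Pᵀ * K * P) x y = bf K (P *ᵥ x) (P *ᵥ y) := by
  simp only [bf, ← mulVec_mulVec, dotProduct_mulVec, vecMul_transpose]

/-- The matrix with the columns `g`, `h`. -/
private def kclsP (g h : Fin 2 → ℤ) : Matrix (Fin 2) (Fin 2) ℤ := !![g 0, h 0; g 1, h 1]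

private theorem kclsP_det (g h : Fin 2 → ℤ) : (kclsP g h).det = g 0 * h 1 - h 0 * g 1 := by
  rw [kclsP, det_fin_two_of]

private theorem kclsP_gram (K : Matrix (Fin 2) (Fin 2) ℤ) (g h : Fin 2 → ℤ) :
    (kclsP g h)ᵀ * K * kclsP g h = !![bf K g g, bf K g h; bf K h g, bf K h h] := by
  ext i j
  fin_cases i <;> fin_cases j <;>
    simp [kclsP, bf, Matrix.mul_apply, dotProduct, mulVec, Fin.sum_univ_two] <;> ring

/-- BINARY LATTICES WITH A ROOT.  An even positive definite binary lattice with a root has a basis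
with Gram
matrix `diag(2p, 2q)`, `1 ≤ p ≤ q`, or `[2h, b; b, 2h]`, `0 < b < 2h`.

PROOF.  Let `s` be a root, `(s,s) = 2κ`, `κ ∣ (s,x)` for all `x`.  Write `s = d s'`, `s'`
primitive (`d = gcd`
of the two coordinates, `s' = ![x, y]` coprime); `(s',s') = 2κ'` (even), `κ = d² κ'`, and
`κ ∣ (s,x) = d (s',x)` gives `κ' ∣ (s',x)`.  So we may assume `s = ![x,y]`, `x u + y v = 1`, and let
`z₀ = ![-v, u]`: `s, z₀` is a basis (determinant `x u + y v = 1`).  `(s,z₀) = κ j`; replacing `z₀`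
by
`z₀ - (j / 2) s` we may assume `j ∈ {0, 1}`.
`j = 0`: Gram matrix `diag(2κ, (z₀,z₀))`, `(z₀,z₀) = 2κ₂` even positive; exchange the two vectors
if necessary.
`j = 1`: `(z₀,z₀) = 2h`; the basis `z₀, s - z₀` has Gram matrix `[2h, κ - 2h; κ - 2h, 2h]`
(`(s - z₀, s - z₀) = 2κ - 2κ + 2h`), `|κ - 2h| < 2h` by positivity (norms of `g₁ ± g₂`).  If `κ -
2h < 0`, change
the sign of the second vector; if `κ = 2h` it is `diag(2h, 2h)`. -/
theorem binary_cases {K : Matrix (Fin 2) (Fin 2) ℤ} (hK : EvenPD K) {s : Fin 2 → ℤ}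
    (hs : 0 < bf K s s) (hr : ∀ x, bf K s s ∣ 2 * bf K s x) :
    ∃ P : Matrix (Fin 2) (Fin 2) ℤ, IsUnit P.det ∧
      ((∃ p q : ℤ, 1 ≤ p ∧ p ≤ q ∧ Pᵀ * K * P = !![2 * p, 0; 0, 2 * q]) ∨
        (∃ h b : ℤ, 0 < b ∧ b < 2 * h ∧ Pᵀ * K * P = !![2 * h, b; b, 2 * h])) := by
  have hsym : ∀ x y, bf K x y = bf K y x := bf_comm K hK.symm
  -- half norms
  obtain ⟨κ, hκ⟩ := (hK.even s).two_dvd
  have hκ0 : 0 < κ := by omega
  have hdiv : ∀ x, κ ∣ bf K s x := by
    intro x
    have h := hr x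
    rw [hκ] at h
    exact (mul_dvd_mul_iff_left (two_ne_zero)).1 h
  -- the primitive vector
  have hs0 : ¬ (s 0 = 0 ∧ s 1 = 0) := by
    rintro ⟨h0, h1⟩
    have : s = 0 := by
      funext i
      fin_cases i
      · exact h0
      · exact h1
    rw [this, bf_zero_left] at hs
    exact lt_irrefl _ hs
  have hg : 0 < Int.gcd (s 0) (s 1) := by
    rw [Nat.pos_iff_ne_zero]
    intro h
    exact hs0 (Int.gcd_eq_zero_iff.1 h)
  obtain ⟨d, x, y, hd, hxy, hx, hy⟩ : ∃ d x y : ℤ, 0 < d ∧ Int.gcd x y = 1 ∧ s 0 = d * x ∧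
      s 1 = d * y := by
    obtain ⟨x, y, h1, h2, h3⟩ := Int.exists_gcd_one hg
    exact ⟨(Int.gcd (s 0) (s 1) : ℤ), x, y, by exact_mod_cast hg, h1, by rw [mul_comm]; exact h2,
      by rw [mul_comm]; exact h3⟩
  obtain ⟨u, v, huv⟩ : ∃ u v : ℤ, x * u + y * v = 1 := by
    refine ⟨Int.gcdA x y, Int.gcdB x y, ?_⟩
    have := Int.gcd_eq_gcd_ab x y
    rw [hxy] at this
    exact_mod_cast this.symm
  obtain ⟨t, ht⟩ : ∃ t : Fin 2 → ℤ, t = ![x, y] := ⟨_, rfl⟩
  have hst : s = d • t := by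
    funext i
    fin_cases i
    · simpa [ht] using hx
    · simpa [ht] using hy
  obtain ⟨κ', hκ'⟩ := (hK.even t).two_dvd
  have hκd : κ = d ^ 2 * κ' := by
    have h1 : bf K s s = d * (d * bf K t t) := by
      rw [hst, bf_smul_left, bf_smul_right]
    rw [hκ, hκ'] at h1
    linarith [h1, sq d, mul_comm d (d * κ'), (by ring : d * (d * (2 * κ')) = 2 * (d ^ 2 * κ'))]
  have hκ'0 : 0 < κ' := by
    have h1 : 0 < d ^ 2 * κ' := by rw [← hκd]; exact hκ0
    exact (mul_pos_iff_of_pos_left (by positivity)).1 h1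
  have hdiv' : ∀ z, κ' ∣ bf K t z := by
    intro z
    have h1 := hdiv z
    rw [hst, bf_smul_left, hκd] at h1
    have h2 : d * (d * κ') ∣ d * bf K t z := by
      rwa [← mul_assoc, ← sq]
    exact (dvd_mul_left κ' d).trans ((mul_dvd_mul_iff_left hd.ne').1 h2)
  -- the second basis vector
  obtain ⟨j, hj⟩ := hdiv' ![-v, u]
  obtain ⟨z, hz⟩ : ∃ z : Fin 2 → ℤ, z = ![-v, u] - (j / 2) • t := ⟨_, rfl⟩
  have htz : bf K t z = κ' * (j % 2) := by
    have h1 : bf K t z = κ' * j - (j / 2) * (2 * κ') := by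
      rw [hz, bf_sub_right, bf_smul_right, hj, hκ']
    have h2 := Int.emod_add_mul_ediv j 2
    rw [h1]
    linear_combination (-κ') * h2
  have hdet : t 0 * z 1 - z 0 * t 1 = 1 := by
    have h0 : z 0 = -v - (j / 2) * x := by simp [hz, ht]
    have h1 : z 1 = u - (j / 2) * y := by simp [hz, ht]
    have h2 : t 0 = x := by simp [ht]
    have h3 : t 1 = y := by simp [ht]
    rw [h0, h1, h2, h3]
    linear_combination huv
  have hz0 : z ≠ 0 := by
    intro h
    rw [h] at hdet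
    simp at hdet
  obtain ⟨h, hh⟩ := (hK.even z).two_dvd
  have hh0 : 0 < h := by
    have := hK.pos z hz0
    omega
  rcases Int.emod_two_eq_zero_or_one j with hj0 | hj1
  · rw [hj0, mul_zero] at htz
    have hzt : bf K z t = 0 := by rw [hsym, htz]
    rcases le_total κ' h with hle | hle
    · refine ⟨kclsP t z, ?_, Or.inl ⟨κ', h, hκ'0, hle, ?_⟩⟩
      · rw [kclsP_det, hdet]
        exact isUnit_one
      · rw [kclsP_gram, htz, hzt, hκ', hh]
    · refine ⟨kclsP z t, ?_, Or.inl ⟨h, κ', hh0, hle, ?_⟩⟩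
      · rw [kclsP_det, show z 0 * t 1 - t 0 * z 1 = -1 by linarith]
        exact isUnit_one.neg
      · rw [kclsP_gram, htz, hzt, hκ', hh]
  · rw [hj1, mul_one] at htz
    have hzt : bf K z t = κ' := by rw [hsym, htz]
    -- the vectors `z`, `t - z`
    have g1 : bf K z (t - z) = κ' - 2 * h := by rw [bf_sub_right, hzt, hh]
    have g2 : bf K (t - z) z = κ' - 2 * h := by rw [hsym, g1]
    have g3 : bf K (t - z) (t - z) = 2 * h := by
      rw [bf_sub_left K t z (t - z), bf_sub_right K t t z, g1, htz, hκ']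
      ring
    have g4 : 0 < 4 * h - κ' := by
      have h1 : z - (t - z) ≠ 0 := by
        intro h1
        have e0 : z 0 - (t 0 - z 0) = 0 := by
          have := congrFun h1 0
          simpa using this
        have e1 : z 1 - (t 1 - z 1) = 0 := by
          have := congrFun h1 1
          simpa using this
        have e2 : t 0 = 2 * z 0 := by linarith
        have e3 : t 1 = 2 * z 1 := by linarith
        rw [e2, e3] at hdet
        have : (0 : ℤ) = 1 := by linear_combination hdet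
        omega
      have h2 := hK.pos _ h1
      rw [bf_sub_left K z (t - z), bf_sub_right K z z (t - z), bf_sub_right K (t - z) z (t - z),
        g1, g2, g3, hh] at h2
      linarith
    have e1 : (t - z) 0 = t 0 - z 0 := rfl
    have e2 : (t - z) 1 = t 1 - z 1 := rfl
    rcases lt_trichotomy (κ' - 2 * h) 0 with hb | hb | hb
    · refine ⟨kclsP z (z - t), ?_, Or.inr ⟨h, 2 * h - κ', by linarith, by linarith, ?_⟩⟩
      · have e3 : (z - t) 0 = z 0 - t 0 := rfl
        have e4 : (z - t) 1 = z 1 - t 1 := rfl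
        rw [kclsP_det, e3, e4, show z 0 * (z 1 - t 1) - (z 0 - t 0) * z 1 = 1 by linarith]
        exact isUnit_one
      · have f1 : bf K z (z - t) = 2 * h - κ' := by rw [bf_sub_right, hzt, hh]
        have f2 : bf K (z - t) z = 2 * h - κ' := by rw [hsym, f1]
        have f3 : bf K (z - t) (z - t) = 2 * h := by
          rw [bf_sub_left K z t, bf_sub_right K t z t, f1, htz, hκ']
          ring
        rw [kclsP_gram, f1, f2, f3, hh]
    · refine ⟨kclsP z (t - z), ?_, Or.inl ⟨h, h, hh0, le_rfl, ?_⟩⟩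
      · rw [kclsP_det, e1, e2, show z 0 * (t 1 - z 1) - (t 0 - z 0) * z 1 = -1 by linarith]
        exact isUnit_one.neg
      · rw [kclsP_gram, g1, g2, g3, hh, hb]
    · refine ⟨kclsP z (t - z), ?_, Or.inr ⟨h, κ' - 2 * h, hb, by linarith, ?_⟩⟩
      · rw [kclsP_det, e1, e2, show z 0 * (t 1 - z 1) - (t 0 - z 0) * z 1 = -1 by linarith]
        exact isUnit_one.neg
      · rw [kclsP_gram, g1, g2, g3, hh]

end MP_dcc566_gt
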