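import Mathlib
import Pool.Agent.Lib.MP_dcc566_gt.Cusp
import Pool.Agent.Lib.MP_dcc566_gt.KCls

namespace MP_dcc566_gt

open Matrix

private theorem OddK_bf {K : Matrix (Fin 2) (Fin 2) ℤ} (hs : K.IsSymm) (z : Fin 2 → ℤ) :
    bf K z z = K 0 0 * z 0 ^ 2 + 2 * (K 0 1 * z 0 * z 1) + K 1 1 * z 1 ^ 2 := by
  have h : K 1 0 = K 0 1 := hs.apply 0 1
  rw [bf_eq_sum]
  simp only [Fin.sum_univ_two]
  rw [h]
  ring

private theorem OddK_even {K : Matrix (Fin 2) (Fin 2) ℤ} (hs : K.IsSymm) (z : Fin 2 → ℤ) :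
    Even (bf K z z) ↔ Even (K 0 0 * z 0 + K 1 1 * z 1) := by
  rw [OddK_bf hs]
  have e : K 0 0 * z 0 ^ 2 + 2 * (K 0 1 * z 0 * z 1) + K 1 1 * z 1 ^ 2 =
      (K 0 0 * z 0 + K 1 1 * z 1) + 2 * (K 0 1 * z 0 * z 1) +
        K 0 0 * (z 0 * (z 0 - 1)) + K 1 1 * (z 1 * (z 1 - 1)) := by ring
  have h0 : Even (z 0 * (z 0 - 1)) := Int.even_mul_pred_self _
  have h1 : Even (z 1 * (z 1 - 1)) := Int.even_mul_pred_self _
  rw [e]
  have h2 : Even (K 1 1 * (z 1 * (z 1 - 1))) := h1.mul_left _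
  have h3 : Even (K 0 0 * (z 0 * (z 0 - 1))) := h0.mul_left _
  have h4 : Even (2 * (K 0 1 * z 0 * z 1)) := even_two_mul _
  constructor
  · intro h
    have h5 := (Int.even_add.1 h).2 h2
    have h6 := (Int.even_add.1 h5).2 h3
    exact (Int.even_add.1 h6).2 h4
  · intro h
    exact ((h.add h4).add h3).add h2

/-- The even sublattice of an integral binary lattice.

PROOF.  `(z,z) = α z0² + 2 β z0 z1 + γ z1² ≡ α z0 + γ z1 mod 2`.  `α, γ` even: `Q = 1`.  `α` odd,
`γ` even: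
`z0` even, `Q = !![2,0;0,1]`.  `α` even, `γ` odd: `Q = !![1,0;0,2]`.  Both odd: `z0 + z1` even,
`Q = !![1,0;1,2]`. -/
theorem even_sub_two {K : Matrix (Fin 2) (Fin 2) ℤ} (hs : K.IsSymm) :
    ∃ Q : Matrix (Fin 2) (Fin 2) ℤ, (Q.det = 1 ∨ Q.det = 2) ∧
      ∀ z : Fin 2 → ℤ, Even (bf K z z) ↔ ∃ w, z = Q *ᵥ w := by
  rcases Int.even_or_odd (K 0 0) with h0 | h0 <;> rcases Int.even_or_odd (K 1 1) with h1 | h1
  · refine ⟨1, Or.inl (by simp), fun z => ?_⟩
    rw [OddK_even hs]
    constructor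
    · intro _
      exact ⟨z, by simp⟩
    · intro _
      exact (h0.mul_right _).add (h1.mul_right _)
  · refine ⟨!![1, 0; 0, 2], Or.inr (by simp [det_fin_two]), fun z => ?_⟩
    rw [OddK_even hs, Int.even_add]
    constructor
    · intro h
      have h2 := h.1 (h0.mul_right _)
      have h3 : Even (z 1) := (Int.even_mul.1 h2).resolve_left (Int.not_even_iff_odd.2 h1)
      obtain ⟨r, hr⟩ := h3
      refine ⟨![z 0, r], ?_⟩
      ext i
      fin_cases i
      · simp [mulVec, dotProduct, Fin.sum_univ_two]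
      · simp only [mulVec, dotProduct, Fin.sum_univ_two]
        simp
        linarith
    · rintro ⟨w, rfl⟩
      have h3 : Even (K 1 1 * (!![1, 0; 0, 2] *ᵥ w) 1) := by
        refine Even.mul_left ?_ _
        simp [mulVec, dotProduct, Fin.sum_univ_two]
      exact ⟨fun _ => h3, fun _ => h0.mul_right _⟩
  · refine ⟨!![2, 0; 0, 1], Or.inr (by simp [det_fin_two]), fun z => ?_⟩
    rw [OddK_even hs, Int.even_add]
    constructor
    · intro h
      have h2 := h.2 (h1.mul_right _)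
      have h3 : Even (z 0) := (Int.even_mul.1 h2).resolve_left (Int.not_even_iff_odd.2 h0)
      obtain ⟨r, hr⟩ := h3
      refine ⟨![r, z 1], ?_⟩
      ext i
      fin_cases i
      · simp only [mulVec, dotProduct, Fin.sum_univ_two]
        simp
        linarith
      · simp [mulVec, dotProduct, Fin.sum_univ_two]
    · rintro ⟨w, rfl⟩
      have h3 : Even (K 0 0 * (!![2, 0; 0, 1] *ᵥ w) 0) := by
        refine Even.mul_left ?_ _
        simp [mulVec, dotProduct, Fin.sum_univ_two]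
      exact ⟨fun _ => h1.mul_right _, fun _ => h3⟩
  · refine ⟨!![1, 0; 1, 2], Or.inr (by simp [det_fin_two]), fun z => ?_⟩
    rw [OddK_even hs]
    have e : Even (K 0 0 * z 0 + K 1 1 * z 1) ↔ Even (z 1 - z 0) := by
      rw [Int.even_add, Int.even_mul, Int.even_mul, Int.even_sub]
      have h2 := Int.not_even_iff_odd.2 h0
      have h3 := Int.not_even_iff_odd.2 h1
      tauto
    rw [e]
    constructor
    · rintro ⟨r, hr⟩
      refine ⟨![z 0, r], ?_⟩
      ext i
      fin_cases i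
      · simp [mulVec, dotProduct, Fin.sum_univ_two]
      · simp only [mulVec, dotProduct, Fin.sum_univ_two]
        simp
        linarith
    · rintro ⟨w, rfl⟩
      refine ⟨w 1, ?_⟩
      simp only [mulVec, dotProduct, Fin.sum_univ_two]
      simp
      ring

/-- The even sublattice is `⟨2⟩ ⊕ ⟨2⟩`, of index 2: then `K` is `ℤ²`.

PROOF.  `M` (`= Q P`) has `MᵀKM = diag(2,2)`, `|det M| = 2`.  So `det K = 1`.  Let `m₁, m₂` be the
columns of `M`
(norm 2, orthogonal).  By parity of `det M` some nontrivial combination of `m₁, m₂` (coefficients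
0 or 1) is
`≡ 0 mod 2`.  `m₁ = 2 v` gives `2 = 4 (v,v)`, impossible, likewise `m₂`; so `m₁ + m₂ = 2 g`, and
`g' = m₁ - g = (m₁ - m₂)/2`.  `(g,g) = (2+2)/4 = 1 = (g',g')`, `(g,g') = (2-2)/4 = 0`.
`P' = [g, g']` satisfies `M = P' [1,1;1,-1]`, so `|det P'| = 1`, `P'ᵀ K P' = 1`. -/
theorem odd_two {K M : Matrix (Fin 2) (Fin 2) ℤ} (hs : K.IsSymm)
    (hM : M.det = 2 ∨ M.det = -2) (h : Mᵀ * K * M = !![2, 0; 0, 2]) :
    ∃ P : Matrix (Fin 2) (Fin 2) ℤ, IsUnit P.det ∧ Pᵀ * K * P = !![1, 0; 0, 1] := by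
  have hK : K 1 0 = K 0 1 := hs.apply 0 1
  have g1 := congrFun (congrFun h 0) 0
  have g2 := congrFun (congrFun h 1) 1
  have g3 := congrFun (congrFun h 0) 1
  simp only [mul_apply, transpose_apply, Fin.sum_univ_two, hK, of_apply, cons_val', cons_val_zero,
    cons_val_one, cons_val_fin_one] at g1 g2 g3
  rw [det_fin_two] at hM
  generalize M 0 0 = a at *
  generalize M 0 1 = b at *
  generalize M 1 0 = c at *
  generalize M 1 1 = d at *
  have e1 : K 0 0 * a ^ 2 + 2 * K 0 1 * (a * c) + K 1 1 * c ^ 2 = 2 := by linarith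
  have e2 : K 0 0 * b ^ 2 + 2 * K 0 1 * (b * d) + K 1 1 * d ^ 2 = 2 := by linarith
  have e3 : K 0 0 * (a * b) + K 0 1 * (a * d + b * c) + K 1 1 * (c * d) = 0 := by linarith
  have n1 : ¬ (Even a ∧ Even c) := by
    rintro ⟨⟨r, rfl⟩, ⟨s, rfl⟩⟩
    have : 4 * (K 0 0 * r ^ 2 + 2 * K 0 1 * (r * s) + K 1 1 * s ^ 2) = 2 := by
      linarith
    omega
  have n2 : ¬ (Even b ∧ Even d) := by
    rintro ⟨⟨r, rfl⟩, ⟨s, rfl⟩⟩
    have : 4 * (K 0 0 * r ^ 2 + 2 * K 0 1 * (r * s) + K 1 1 * s ^ 2) = 2 := by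
      linarith
    omega
  have hev : Even (a * d - b * c) := by
    rcases hM with hM | hM
    · rw [hM]
      exact even_two
    · rw [hM]
      exact ⟨-1, by norm_num⟩
  rw [Int.even_sub, Int.even_mul, Int.even_mul] at hev
  have p1 : Even (a - b) := by
    rw [Int.even_sub]
    tauto
  have p2 : Even (c - d) := by
    rw [Int.even_sub]
    tauto
  obtain ⟨r, hr⟩ := p1
  obtain ⟨s, hs'⟩ := p2
  obtain rfl : a = b + r + r := by linarith
  obtain rfl : c = d + s + s := by linarith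
  refine ⟨!![b + r, r; d + s, s], ?_, ?_⟩
  · rw [det_fin_two_of, Int.isUnit_iff]
    rcases hM with hM | hM
    · right
      have : -2 * ((b + r) * s - r * (d + s)) = 2 := by linarith
      linarith
    · left
      have : -2 * ((b + r) * s - r * (d + s)) = -2 := by linarith
      linarith
  · ext i j
    fin_cases i <;> fin_cases j <;>
      simp only [mul_apply, transpose_apply, Fin.sum_univ_two, hK, of_apply, cons_val',
        cons_val_zero, cons_val_one, cons_val_fin_one, Fin.zero_eta, Fin.mk_one, Fin.isValue]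
    · linarith
    · linarith
    · linarith
    · linarith

end MP_dcc566_gt
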