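import Mathlib
import Pool.Agent.Lib.MP_dcc566_gt.KCls

namespace MP_dcc566_gt

open Matrix

/-- Transport of bad cusps along an isometric map `φ` such that every root of `G` has a nonzero
multiple
which is the image of a root of `G'`.

PROOF.  `e = φ e'`, `t = φ t'`; `φ e' ≠ 0` because: `φ` is linear isometric and, `G'` being
nondegenerate
(`hinj` : `φ` injective).  For a root `r` of `G` with `(r,e) = 0`: `c r = φ r'`, `(r',e') = (φ r',
φ e') = c (r,e) = 0`,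
so `(r',t') = 0 = c (r,t)`. -/
theorem cuspBad_transport {m n : Type} [Fintype m] [Fintype n] {G : Matrix m m ℤ}
    {G' : Matrix n n ℤ} (φ : (n → ℤ) →ₗ[ℤ] (m → ℤ)) (hinj : Function.Injective φ)
    (hφ : ∀ x y, bf G (φ x) (φ y) = bf G' x y)
    (hroot : ∀ r : m → ℤ, 0 < bf G r r → (∀ x, bf G r r ∣ 2 * bf G r x) →
      ∃ (c : ℤ) (r' : n → ℤ), c ≠ 0 ∧ φ r' = c • r ∧ 0 < bf G' r' r' ∧
        ∀ x, bf G' r' r' ∣ 2 * bf G' r' x)
    (hb : CuspBad G') : CuspBad G := by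
  obtain ⟨e, t, he, hee, hte, htt, hr⟩ := hb
  refine ⟨φ e, φ t, ?_, ?_, ?_, ?_, ?_⟩
  · intro h
    exact he (hinj (h.trans (map_zero φ).symm))
  · rw [hφ, hee]
  · rw [hφ, hte]
  · rw [hφ]
    exact htt
  · intro r h1 h2 h3
    obtain ⟨c, r', hc, hr', h4, h5⟩ := hroot r h1 h2
    have h6 : bf G' r' e = 0 := by
      rw [← hφ, hr', bf_smul_left, h3, mul_zero]
    have h7 := hr r' h4 h5 h6
    rw [← hφ, hr', bf_smul_left] at h7
    exact (mul_eq_zero.1 h7).resolve_left hc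

/-- The map `mk a b u₁ u₂ z ↦ mk a b u₁ u₂ (P z)`. -/
private def trMap {k : ℕ} (P : Matrix (Fin k) (Fin k) ℤ) : (Idx k → ℤ) →ₗ[ℤ] (Idx k → ℤ) where
  toFun x := mk (x (Sum.inl 0)) (x (Sum.inl 1)) (fun i => x (Sum.inr (Sum.inl i)))
    (fun i => x (Sum.inr (Sum.inr (Sum.inl i))))
    (P *ᵥ fun i => x (Sum.inr (Sum.inr (Sum.inr i))))
  map_add' x y := by
    rw [mk_add]
    simp only [Pi.add_apply]
    congr 1
    rw [← mulVec_add]
    rfl
  map_smul' c x := by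
    rw [RingHom.id_apply, smul_mk]
    simp only [Pi.smul_apply, smul_eq_mul]
    congr 1
    rw [← mulVec_smul]
    rfl

private theorem trMap_mk {k : ℕ} (P : Matrix (Fin k) (Fin k) ℤ) (a b : ℤ) (u₁ u₂ : Fin 8 → ℤ)
    (z : Fin k → ℤ) : trMap P (mk a b u₁ u₂ z) = mk a b u₁ u₂ (P *ᵥ z) := rfl

private theorem trMap_inj {k : ℕ} {P : Matrix (Fin k) (Fin k) ℤ} (hP : P.det ≠ 0) :
    Function.Injective (trMap P) := by
  intro x y h
  obtain ⟨a, b, u₁, u₂, z, rfl⟩ := exists_mk x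
  obtain ⟨a', b', u₁', u₂', z', rfl⟩ := exists_mk y
  rw [trMap_mk, trMap_mk] at h
  obtain ⟨h1, h2, h3, h4, h5⟩ := mk_inj h
  have h6 : P *ᵥ (z - z') = 0 := by rw [mulVec_sub, h5, sub_self]
  have h7 := Matrix.eq_zero_of_mulVec_eq_zero hP h6
  rw [h1, h2, h3, h4, sub_eq_zero.1 h7]

private theorem trMap_iso {k : ℕ} (K P : Matrix (Fin k) (Fin k) ℤ) (x y : Idx k → ℤ) :
    bf (LG K) (trMap P x) (trMap P y) = bf (LG (Pᵀ * K * P)) x y := by
  obtain ⟨a, b, u₁, u₂, z, rfl⟩ := exists_mk x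
  obtain ⟨a', b', u₁', u₂', z', rfl⟩ := exists_mk y
  rw [trMap_mk, trMap_mk, bf_mk, bf_mk, bf_conj]

/-- Unimodular change of basis of `K`.
(`φ (mk a b u₁ u₂ z) = mk a b u₁ u₂ (P z)`, a bijection with inverse given by `P⁻¹`; `c = 1`.) -/
theorem cuspBad_congr {k : ℕ} {K P : Matrix (Fin k) (Fin k) ℤ} (hP : IsUnit P.det)
    (hb : CuspBad (LG (Pᵀ * K * P))) : CuspBad (LG K) := by
  refine cuspBad_transport (trMap P) (trMap_inj hP.ne_zero) (trMap_iso K P) ?_ hb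
  intro r h1 h2
  obtain ⟨a, b, u₁, u₂, z, rfl⟩ := exists_mk r
  have hz : P *ᵥ (P⁻¹ *ᵥ z) = z := by
    rw [mulVec_mulVec, Matrix.mul_nonsing_inv P hP, one_mulVec]
  have he : trMap P (mk a b u₁ u₂ (P⁻¹ *ᵥ z)) = mk a b u₁ u₂ z := by
    rw [trMap_mk, hz]
  refine ⟨1, mk a b u₁ u₂ (P⁻¹ *ᵥ z), one_ne_zero, by rw [he, one_smul], ?_, ?_⟩
  · rw [← trMap_iso, he]
    exact h1
  · intro x
    rw [← trMap_iso, ← trMap_iso, he]
    exact h2 _

/-- Passing to the even sublattice: if `Q` is a matrix such that `Q ℤ^k` is the set of vectors of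
even norm of
the integral lattice `K`, a bad cusp of `U ⊕ E₈ ⊕ E₈ ⊕ QᵀKQ` gives one of `U ⊕ E₈ ⊕ E₈ ⊕ K`.

PROOF.  `φ (mk a b u₁ u₂ z) = mk a b u₁ u₂ (Q z)`, image = vectors of even norm (`U` and `E₈` are
even).
Let `r` be a root of `LG K`, `n = (r,r)`.  If `n` is even, `r = φ r'`, `c = 1`: `n ∣ 2 (r, φ x)`.
If `n` is odd, `2r` has norm `4n` even so `2 r = φ r'`, `c = 2`: need `4n ∣ 2 (2r, φ x) = 4 (r, φ
x)`, and
`n ∣ 2 (r,φ x)`, `n` odd, gives `n ∣ (r, φ x)`.  Injectivity of `φ` is that of `Q` (`hQ : Q.det ≠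
0`). -/
theorem cuspBad_even {k : ℕ} {K Q : Matrix (Fin k) (Fin k) ℤ} (hQ : Q.det ≠ 0)
    (hQi : ∀ z : Fin k → ℤ, Even (bf K z z) ↔ ∃ w, z = Q *ᵥ w)
    (hb : CuspBad (LG (Qᵀ * K * Q))) : CuspBad (LG K) := by
  refine cuspBad_transport (trMap Q) (trMap_inj hQ) (trMap_iso K Q) ?_ hb
  have him : ∀ r : Idx k → ℤ, Even (bf (LG K) r r) → ∃ r', trMap Q r' = r := by
    intro r hr
    obtain ⟨a, b, u₁, u₂, z, rfl⟩ := exists_mk r
    rw [bf_mk] at hr
    have h1 : Even (a * b + b * a) := ⟨a * b, by ring⟩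
    have h2 : Even (bf K z z) := by
      have h3 := ((h1.add (E8_even u₁)).add (E8_even u₂))
      exact (Int.even_add.1 hr).1 h3
    obtain ⟨w, hw⟩ := (hQi z).1 h2
    exact ⟨mk a b u₁ u₂ w, by rw [trMap_mk, ← hw]⟩
  intro r h1 h2
  rcases Int.even_or_odd (bf (LG K) r r) with hev | hodd
  · obtain ⟨r', hr'⟩ := him r hev
    refine ⟨1, r', one_ne_zero, by rw [hr', one_smul], ?_, ?_⟩
    · rw [← trMap_iso, hr']
      exact h1
    · intro x
      rw [← trMap_iso, ← trMap_iso, hr']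
      exact h2 _
  · have h4 : bf (LG K) ((2 : ℤ) • r) ((2 : ℤ) • r) = 4 * bf (LG K) r r := by
      rw [bf_smul_left, bf_smul_right]
      ring
    obtain ⟨r', hr'⟩ := him ((2 : ℤ) • r) (by
      rw [h4]
      exact ⟨2 * bf (LG K) r r, by ring⟩)
    refine ⟨2, r', two_ne_zero, hr', ?_, ?_⟩
    · rw [← trMap_iso, hr', h4]
      linarith
    · intro x
      rw [← trMap_iso, ← trMap_iso, hr', h4, bf_smul_left]
      have h5 : bf (LG K) r r ∣ bf (LG K) r (trMap Q x) :=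
        (Int.isCoprime_iff_gcd_eq_one.2 (by
          rw [Int.gcd_comm]
          exact Int.isCoprime_iff_gcd_eq_one.1
            (Int.isCoprime_two_left.2 hodd))).dvd_of_dvd_mul_left (h2 _)
      obtain ⟨q, hq⟩ := h5
      exact ⟨q, by rw [hq]; ring⟩

end MP_dcc566_gt
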