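import Mathlib
import Pool.Agent.Lib.MP_dcc566_gt.Criterion
import Pool.Agent.Lib.MP_dcc566_gt.CaseB
import Pool.Agent.Lib.MP_dcc566_gt.Transp
import Pool.Agent.Lib.MP_dcc566_gt.LorLG
import Pool.Agent.Lib.MP_dcc566_gt.OddK

/-!
# Reflective lattices `U ⊕ E₈ ⊕ E₈ ⊕ K`, `K` of rank one or two
-/

namespace MP_dcc566_gt

open Matrix

theorem symm_one (K : Matrix (Fin 1) (Fin 1) ℤ) : K.IsSymm := by
  ext i j
  rw [Subsingleton.elim i j, Matrix.transpose_apply]

theorem bf_one (n : ℤ) (z w : Fin 1 → ℤ) : bf !![n] z w = n * z 0 * w 0 := by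
  simp [bf, dotProduct, mulVec]
  ring

theorem not_bad_one {K : Matrix (Fin 1) (Fin 1) ℤ} (h : ∀ z : Fin 1 → ℤ, z ≠ 0 → 0 < bf K z z)
    (hR : Reflective (LG K)) : ¬ CuspBad (LG K) := fun hb =>
  not_reflective_of_cuspBad (lor_LG (symm_one K) (real_pos_one h)) hb hR

theorem not_bad_two {K : Matrix (Fin 2) (Fin 2) ℤ} (hs : K.IsSymm)
    (h : ∀ z : Fin 2 → ℤ, z ≠ 0 → 0 < bf K z z)
    (hR : Reflective (LG K)) : ¬ CuspBad (LG K) := fun hb =>
  not_reflective_of_cuspBad (lor_LG hs (real_pos_two hs h)) hb hR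

/-- Rank one: a reflective `U ⊕ E₈ ⊕ E₈ ⊕ ⟨n⟩` has `n ∈ {1, 2, 4}`. -/
theorem classification_one (n : ℤ) (hn : 0 < n) (hR : Reflective (LG !![n])) :
    n = 1 ∨ n = 2 ∨ n = 4 := by
  have hpos : ∀ z : Fin 1 → ℤ, z ≠ 0 → 0 < bf !![n] z z := by
    intro z hz
    have hz0 : z 0 ≠ 0 := by
      intro h0
      apply hz
      funext i
      rw [Subsingleton.elim i 0, h0]
      rfl
    rw [bf_one]
    have : 0 < z 0 * z 0 := mul_self_pos.2 hz0
    nlinarith
  have hnb := not_bad_one hpos hR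
  rcases Int.even_or_odd n with ⟨q, hq⟩ | ho
  · by_contra hcon
    push Not at hcon
    have hq3 : 3 ≤ q := by omega
    have hb := cuspBad_rank1 hq3
    rw [show 2 * q = n by omega] at hb
    exact hnb hb
  · by_contra hcon
    push Not at hcon
    have hn2 : 3 ≤ 2 * n := by omega
    have hb := cuspBad_rank1 hn2
    refine hnb (cuspBad_even (Q := !![2]) (by simp) ?_ ?_)
    · intro z
      rw [bf_one]
      constructor
      · intro hz
        have : Even (z 0) := by
          by_contra hodd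
          rw [Int.not_even_iff_odd] at hodd
          have := ((ho.mul hodd).mul hodd)
          exact (Int.not_even_iff_odd.2 this) hz
        obtain ⟨c, hc⟩ := this
        refine ⟨![c], ?_⟩
        funext i
        rw [Subsingleton.elim i 0]
        simp [mulVec, dotProduct, hc]
        ring
      · rintro ⟨w, rfl⟩
        simp only [mulVec, dotProduct]
        simp
    · have : ((!![2] : Matrix (Fin 1) (Fin 1) ℤ)ᵀ * !![n] * !![2]) = !![2 * (2 * n)] := by
        ext i j
        rw [Subsingleton.elim i 0, Subsingleton.elim j 0]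
        simp [Matrix.mul_apply]
        ring
      rw [this]
      exact hb

/-- Even rank two: a basis with Gram matrix `2 I` or `A₂`. -/
theorem even_class_two {K : Matrix (Fin 2) (Fin 2) ℤ} (hK : EvenPD K)
    (hnb : ¬ CuspBad (LG K)) :
    ∃ P : Matrix (Fin 2) (Fin 2) ℤ, IsUnit P.det ∧
      (Pᵀ * K * P = !![2, 0; 0, 2] ∨ Pᵀ * K * P = !![2, 1; 1, 2]) := by
  by_cases hroot : ∃ s : Fin 2 → ℤ, 0 < bf K s s ∧ ∀ x, bf K s s ∣ 2 * bf K s x
  · obtain ⟨s, hs0, hsr⟩ := hroot
    obtain ⟨P, hP, h | h⟩ := binary_cases hK hs0 hsr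
    · obtain ⟨p, q, hp, hpq, hPK⟩ := h
      refine ⟨P, hP, Or.inl ?_⟩
      by_contra hcon
      apply hnb
      refine cuspBad_congr hP ?_
      rw [hPK]
      by_cases hq : 4 ≤ q
      · exact cuspBad_O1 hp hpq hq
      · refine cuspBad_O2 hp hpq (by omega) ?_
        rintro ⟨rfl, rfl⟩
        exact hcon hPK
    · obtain ⟨h, b, hb0, hb2, hPK⟩ := h
      refine ⟨P, hP, Or.inr ?_⟩
      by_contra hcon
      apply hnb
      refine cuspBad_congr hP ?_
      rw [hPK]
      by_cases hh : 2 ≤ h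
      · by_cases hbh : b = h
        · subst hbh
          exact cuspBad_G2 hh
        · exact cuspBad_G1 hh hb0 hb2 hbh
      · exfalso
        apply hcon
        rw [hPK]
        have : h = 1 := by omega
        subst this
        have : b = 1 := by omega
        subst this
        rfl
  · exfalso
    push Not at hroot
    refine hnb (cuspBad_zero hK (y := ![1, 0]) ?_ ?_)
    · intro h
      have := congrFun h 0
      simp at this
    · intro s hs hx
      obtain ⟨x, hx'⟩ := hroot s hs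
      exact hx' (hx x)

/-- Rank two. -/
theorem classification_two {K : Matrix (Fin 2) (Fin 2) ℤ} (hs : K.IsSymm)
    (h : ∀ z : Fin 2 → ℤ, z ≠ 0 → 0 < bf K z z) (hR : Reflective (LG K)) :
    ∃ P : Matrix (Fin 2) (Fin 2) ℤ, IsUnit P.det ∧
      (Pᵀ * K * P = !![1, 0; 0, 1] ∨ Pᵀ * K * P = !![2, 0; 0, 2] ∨
        Pᵀ * K * P = !![2, 1; 1, 2]) := by
  have hnb := not_bad_two hs h hR
  by_cases hev : ∀ z, Even (bf K z z)
  · obtain ⟨P, hP, h1⟩ := even_class_two ⟨hs, hev, h⟩ hnb
    exact ⟨P, hP, Or.inr h1⟩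
  · obtain ⟨Q, hQ, hQz⟩ := even_sub_two hs
    have hQdet : Q.det ≠ 0 := by rcases hQ with hQ | hQ <;> rw [hQ] <;> norm_num
    have hQ2 : Q.det = 2 := by
      rcases hQ with hQ | hQ
      · exfalso
        apply hev
        intro z
        rw [hQz]
        refine ⟨Q⁻¹ *ᵥ z, ?_⟩
        rw [mulVec_mulVec, Matrix.mul_nonsing_inv _ (by rw [hQ]; exact isUnit_one), one_mulVec]
      · exact hQ
    have hnb' : ¬ CuspBad (LG (Qᵀ * K * Q)) := fun hb => hnb (cuspBad_even hQdet hQz hb)
    have hK' : EvenPD (Qᵀ * K * Q) := by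
      refine ⟨?_, ?_, ?_⟩
      · unfold IsSymm
        rw [transpose_mul, transpose_mul, transpose_transpose, hs.eq, mul_assoc]
      · intro z
        rw [bf_conj, hQz]
        exact ⟨z, rfl⟩
      · intro z hz
        rw [bf_conj]
        apply h
        intro h0
        exact hz (Matrix.eq_zero_of_mulVec_eq_zero hQdet h0)
    obtain ⟨P, hP, h1⟩ := even_class_two hK' hnb'
    have hPd : P.det = 1 ∨ P.det = -1 := Int.isUnit_iff.1 hP
    have hassoc : Pᵀ * (Qᵀ * K * Q) * P = (Q * P)ᵀ * K * (Q * P) := by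
      rw [transpose_mul]
      simp only [mul_assoc]
    rw [hassoc] at h1
    rcases h1 with h1 | h1
    · have hd : (Q * P).det = 2 ∨ (Q * P).det = -2 := by
        rw [det_mul, hQ2]
        rcases hPd with hPd | hPd <;> rw [hPd] <;> norm_num
      obtain ⟨P', hP', h2⟩ := odd_two hs hd h1
      exact ⟨P', hP', Or.inl h2⟩
    · exfalso
      have hd := congrArg det h1
      rw [det_mul, det_mul, det_transpose, det_mul, hQ2, det_fin_two_of] at hd
      rcases hPd with hPd | hPd <;> rw [hPd] at hd <;> omega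

end MP_dcc566_gt
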